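import Pool.Agent.Work.MP_298761_T2.INV12

/-! Block BUNDLE: Darboux bases and the inverse bivector. -/

namespace Pool.Agent.Work.MP_298761_T2

open ExteriorAlgebra Module

section Darboux

variable {K : Type*} [Field K] {W : Type*} [AddCommGroup W] [Module K W]

theorem BUNDLE_anti (Q : W →ₗ[K] W →ₗ[K] K) (halt : ∀ x, Q x x = 0) (x y : W) :
    Q x y = - Q y x := by
  have h := halt (x + y)
  rw [map_add, map_add, LinearMap.add_apply, LinearMap.add_apply, halt, halt, zero_add,
    add_zero] at h
  exact eq_neg_of_add_eq_zero_right h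

/-- a family with the Gram matrix of a Darboux basis -/
def BUNDLE_Gram (Q : W →ₗ[K] W →ₗ[K] K) {m : ℕ} (w : Fin m → Fin 2 → W) : Prop :=
  (∀ k l, Q (w k 0) (w l 1) = if k = l then 1 else 0) ∧ ∀ k l s, Q (w k s) (w l s) = 0

/-- the coordinates are given by `Q` -/
theorem BUNDLE_coord (Q : W →ₗ[K] W →ₗ[K] K) (halt : ∀ x, Q x x = 0) {m : ℕ}
    (w : Fin m → Fin 2 → W) (hw : BUNDLE_Gram Q w) (c : Fin m → Fin 2 → K) (l : Fin m)
    (t : Fin 2) : sg K t * Q (∑ k, ∑ s, c k s • w k s) (w l t.rev) = c l t := by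
  have e : ∀ y, Q (∑ k, ∑ s, c k s • w k s) y = ∑ k, ∑ s, c k s * Q (w k s) y := by
    intro y
    rw [map_sum, LinearMap.sum_apply]
    refine Finset.sum_congr rfl (fun k _ => ?_)
    rw [map_sum, LinearMap.sum_apply]
    refine Finset.sum_congr rfl (fun s _ => ?_)
    rw [map_smul, LinearMap.smul_apply, smul_eq_mul]
  rw [e]
  fin_cases t
  · simp only [Fin.zero_eta, Fin.isValue, sg, Matrix.cons_val_zero, one_mul]
    rw [show Fin.rev (0 : Fin 2) = 1 from rfl]
    simp only [Fin.sum_univ_two, hw.1, hw.2, mul_zero, add_zero]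
    simp
  · simp only [Fin.mk_one, Fin.isValue, sg, Matrix.cons_val_one]
    rw [show Fin.rev (1 : Fin 2) = 0 from rfl]
    simp only [Fin.sum_univ_two, hw.2, mul_zero, zero_add]
    have e2 : ∀ k, Q (w k 1) (w l 0) = - if l = k then 1 else 0 := by
      intro k
      rw [BUNDLE_anti Q halt, hw.1]
    simp [e2]

theorem BUNDLE_li (Q : W →ₗ[K] W →ₗ[K] K) (halt : ∀ x, Q x x = 0) {m : ℕ}
    (w : Fin m → Fin 2 → W) (hw : BUNDLE_Gram Q w) :
    LinearIndependent K (fun u : Fin m × Fin 2 => w u.1 u.2) := by
  rw [Fintype.linearIndependent_iff]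
  intro g hg u
  have h := BUNDLE_coord Q halt w hw (fun k s => g (k, s)) u.1 u.2
  rw [← Fintype.sum_prod_type' (fun k s => g (k, s) • w k s)] at h
  have hg' : ∑ x : Fin m × Fin 2, g (x.1, x.2) • w x.1 x.2 = 0 := hg
  rw [hg', map_zero, LinearMap.zero_apply, mul_zero] at h
  exact h.symm

theorem BUNDLE_darboux_aux (Q : W →ₗ[K] W →ₗ[K] K) (halt : ∀ x, Q x x = 0) (n : ℕ) :
    ∀ (P : Submodule K W), FiniteDimensional K P → finrank K P ≤ n →
      (∀ x ∈ P, (∀ y ∈ P, Q x y = 0) → x = 0) →
      ∃ (m : ℕ) (w : Fin m → Fin 2 → W), (∀ k s, w k s ∈ P) ∧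
        P ≤ Submodule.span K (Set.range fun u : Fin m × Fin 2 => w u.1 u.2) ∧
        BUNDLE_Gram Q w := by
  induction n with
  | zero =>
    intro P hP hr _
    refine ⟨0, fun k => Fin.elim0 k, fun k => Fin.elim0 k, ?_, fun k => Fin.elim0 k,
      fun k => Fin.elim0 k⟩
    have : P = ⊥ := Submodule.finrank_eq_zero.1 (Nat.le_zero.1 hr)
    rw [this]
    exact bot_le
  | succ n ih =>
    intro P hP hr hnd
    by_cases hbot : P = ⊥
    · refine ⟨0, fun k => Fin.elim0 k, fun k => Fin.elim0 k, ?_, fun k => Fin.elim0 k,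
        fun k => Fin.elim0 k⟩
      rw [hbot]
      exact bot_le
    obtain ⟨x, hx, hx0⟩ := Submodule.exists_mem_ne_zero_of_ne_bot hbot
    have hy : ∃ y ∈ P, Q x y ≠ 0 := by
      by_contra hcon
      push Not at hcon
      exact hx0 (hnd x hx hcon)
    obtain ⟨y', hy', hxy'⟩ := hy
    obtain ⟨y, hyP, hxy⟩ : ∃ y ∈ P, Q x y = 1 :=
      ⟨(Q x y')⁻¹ • y', P.smul_mem _ hy', by rw [map_smul, smul_eq_mul, inv_mul_cancel₀ hxy']⟩
    have hyx : Q y x = -1 := by rw [BUNDLE_anti Q halt, hxy]
    -- the orthogonal complement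
    set P' : Submodule K W := P ⊓ (LinearMap.ker (Q x) ⊓ LinearMap.ker (Q y)) with hP'
    have hP'P : P' ≤ P := inf_le_left
    have hfd : FiniteDimensional K P' := Submodule.finiteDimensional_of_le hP'P
    have hlt : P' < P := by
      refine lt_of_le_of_ne hP'P (fun h => ?_)
      have h1 : x ∈ P' := by rw [h]; exact hx
      have h2 : Q y x = 0 := h1.2.2
      rw [hyx] at h2
      exact absurd h2 (by simp)
    have hr' : finrank K P' ≤ n := by
      have := Submodule.finrank_lt_finrank_of_lt hlt
      omega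
    have hdec : ∀ p ∈ P, p - Q p y • x + Q p x • y ∈ P' := by
      intro p hp
      refine ⟨P.add_mem (P.sub_mem hp (P.smul_mem _ hx)) (P.smul_mem _ hyP), ?_, ?_⟩
      · rw [SetLike.mem_coe, LinearMap.mem_ker, map_add, map_sub, map_smul, map_smul, halt, hxy,
          BUNDLE_anti Q halt x p]
        simp
      · rw [SetLike.mem_coe, LinearMap.mem_ker, map_add, map_sub, map_smul, map_smul, halt, hyx,
          BUNDLE_anti Q halt y p]
        simp
    have hnd' : ∀ z ∈ P', (∀ y' ∈ P', Q z y' = 0) → z = 0 := by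
      intro z hz h
      refine hnd z hz.1 (fun p hp => ?_)
      have h1 := h _ (hdec p hp)
      have hzx : Q z x = 0 := by
        rw [BUNDLE_anti Q halt]
        have : Q x z = 0 := hz.2.1
        rw [this, neg_zero]
      have hzy : Q z y = 0 := by
        rw [BUNDLE_anti Q halt]
        have : Q y z = 0 := hz.2.2
        rw [this, neg_zero]
      rw [map_add, map_sub, map_smul, map_smul, hzx, hzy] at h1
      simpa using h1
    obtain ⟨m, w, hwP, hsp, hG⟩ := ih P' hfd hr' hnd'
    refine ⟨m + 1, Fin.cons ![x, y] w, ?_, ?_, ?_, ?_⟩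
    · intro k s
      refine Fin.cases ?_ (fun k => ?_) k
      · rw [Fin.cons_zero]
        fin_cases s
        · exact hx
        · exact hyP
      · rw [Fin.cons_succ]
        exact hP'P (hwP k s)
    · intro p hp
      have h1 := hsp (hdec p hp)
      have hsub : Submodule.span K (Set.range fun u : Fin m × Fin 2 => w u.1 u.2) ≤
          Submodule.span K (Set.range fun u : Fin (m + 1) × Fin 2 =>
            (Fin.cons ![x, y] w : Fin (m + 1) → Fin 2 → W) u.1 u.2) := by
        refine Submodule.span_mono ?_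
        rintro _ ⟨u, rfl⟩
        exact ⟨(u.1.succ, u.2), by simp⟩
      have h2 := hsub h1
      have hxs : x ∈ Submodule.span K (Set.range fun u : Fin (m + 1) × Fin 2 =>
            (Fin.cons ![x, y] w : Fin (m + 1) → Fin 2 → W) u.1 u.2) :=
        Submodule.subset_span ⟨(0, 0), by simp⟩
      have hys : y ∈ Submodule.span K (Set.range fun u : Fin (m + 1) × Fin 2 =>
            (Fin.cons ![x, y] w : Fin (m + 1) → Fin 2 → W) u.1 u.2) :=
        Submodule.subset_span ⟨(0, 1), by simp⟩
      have h3 : p = (p - Q p y • x + Q p x • y) + Q p y • x - Q p x • y := by abel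
      rw [h3]
      exact Submodule.sub_mem _ (Submodule.add_mem _ h2 (Submodule.smul_mem _ _ hxs))
        (Submodule.smul_mem _ _ hys)
    · intro k l
      refine Fin.cases ?_ (fun k => ?_) k <;> refine Fin.cases ?_ (fun l => ?_) l
      · simp [hxy]
      · have h : Q x (w l 1) = 0 := (hwP l 1).2.1
        rw [Fin.cons_zero, Fin.cons_succ, if_neg (Fin.succ_ne_zero l).symm]
        exact h
      · have h : Q y (w k 0) = 0 := (hwP k 0).2.2
        rw [Fin.cons_zero, Fin.cons_succ, if_neg (Fin.succ_ne_zero k), BUNDLE_anti Q halt]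
        simp [h]
      · rw [Fin.cons_succ, Fin.cons_succ, hG.1]
        simp [Fin.succ_inj]
    · intro k l s
      refine Fin.cases ?_ (fun k => ?_) k <;> refine Fin.cases ?_ (fun l => ?_) l
      · exact halt _
      · rw [Fin.cons_zero, Fin.cons_succ]
        fin_cases s
        · exact (hwP l 0).2.1
        · exact (hwP l 1).2.2
      · rw [Fin.cons_zero, Fin.cons_succ, BUNDLE_anti Q halt]
        fin_cases s
        · have h : Q x (w k 0) = 0 := (hwP k 0).2.1
          simp [h]
        · have h : Q y (w k 1) = 0 := (hwP k 1).2.2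
          simp [h]
      · rw [Fin.cons_succ, Fin.cons_succ]
        exact hG.2 k l s

theorem darboux (P : Submodule K W) [FiniteDimensional K P] (Q : W →ₗ[K] W →ₗ[K] K)
    (halt : ∀ x, Q x x = 0) (hnd : ∀ x ∈ P, (∀ y ∈ P, Q x y = 0) → x = 0) :
    ∃ (m : ℕ) (w : Fin m → Fin 2 → W), (∀ k s, w k s ∈ P) ∧
      LinearIndependent K (fun u : Fin m × Fin 2 => w u.1 u.2) ∧
      Submodule.span K (Set.range fun u : Fin m × Fin 2 => w u.1 u.2) = P ∧
      (∀ k l, Q (w k 0) (w l 1) = if k = l then 1 else 0) ∧ (∀ k l s, Q (w k s) (w l s) = 0) := by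
  obtain ⟨m, w, hwP, hsp, hG⟩ := BUNDLE_darboux_aux Q halt _ P inferInstance (le_refl _) hnd
  refine ⟨m, w, hwP, BUNDLE_li Q halt w hG, ?_, hG.1, hG.2⟩
  refine le_antisymm (Submodule.span_le.2 ?_) hsp
  rintro _ ⟨u, rfl⟩
  exact hwP u.1 u.2

end Darboux

section Top

variable {K : Type*} [Field K] {W : Type*} [AddCommGroup W] [Module K W] {κ : Type*}

/-- contraction by a functional which vanishes on the planes -/
theorem BUNDLE_contract (w : κ → Fin 2 → W) (φ : Module.Dual K W) (S : Finset κ)
    (h : ∀ k ∈ S, ∀ s, φ (w k s) = 0) :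
    CliffordAlgebra.contractLeft (Q := (0 : QuadraticForm K W)) φ (mon K w S) = 0 := by
  classical
  induction S using Finset.induction_on with
  | empty =>
    rw [mon_empty]
    exact CliffordAlgebra.contractLeft_one (0 : QuadraticForm K W) φ
  | insert k S hk ih =>
    rw [mon_insert w hk, mul_assoc]
    have e1 := CliffordAlgebra.contractLeft_ι_mul (Q := (0 : QuadraticForm K W)) φ (w k 0)
      (ι K (w k 1) * mon K w S)
    have e2 := CliffordAlgebra.contractLeft_ι_mul (Q := (0 : QuadraticForm K W)) φ (w k 1)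
      (mon K w S)
    have h0 := h k (Finset.mem_insert_self k S) 0
    have h1 := h k (Finset.mem_insert_self k S) 1
    have ih' := ih (fun l hl s => h l (Finset.mem_insert_of_mem hl) s)
    rw [h1, zero_smul, ih', mul_zero, sub_zero] at e2
    rw [h0, zero_smul] at e1
    refine e1.trans ?_
    have e3 : CliffordAlgebra.contractLeft (Q := (0 : QuadraticForm K W)) φ
        (ι K (w k 1) * mon K w S) = 0 := e2
    rw [e3, mul_zero, sub_zero]

/-- the monomials of a Darboux family do not vanish -/
theorem BUNDLE_mon_ne (Q : W →ₗ[K] W →ₗ[K] K) (halt : ∀ x, Q x x = 0) {m : ℕ}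
    (w : Fin m → Fin 2 → W) (hw : BUNDLE_Gram Q w) (S : Finset (Fin m)) : mon K w S ≠ 0 := by
  induction S using Finset.induction_on with
  | empty => rw [mon_empty]; exact one_ne_zero
  | insert k S hk ih =>
    intro hcon
    apply ih
    rw [mon_insert w hk, mul_assoc] at hcon
    -- contract with the functional dual to `w k 0`
    set φ : Module.Dual K W := -(Q (w k 1)) with hφ
    have hφ0 : ∀ l, φ (w l 0) = if k = l then 1 else 0 := by
      intro l
      rw [hφ, LinearMap.neg_apply, BUNDLE_anti Q halt, hw.1, neg_neg]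
      simp only [eq_comm]
    have hφ1 : ∀ l, φ (w l 1) = 0 := by
      intro l
      rw [hφ, LinearMap.neg_apply, hw.2, neg_zero]
    have hS : ∀ l ∈ S, k ≠ l := fun l hl h => hk (h ▸ hl)
    have c1 := CliffordAlgebra.contractLeft_ι_mul (Q := (0 : QuadraticForm K W)) φ (w k 0)
      (ι K (w k 1) * mon K w S)
    have c2 := CliffordAlgebra.contractLeft_ι_mul (Q := (0 : QuadraticForm K W)) φ (w k 1)
      (mon K w S)
    have c3 := BUNDLE_contract w φ S (fun l hl s => by
      fin_cases s
      · exact (hφ0 l).trans (if_neg (hS l hl))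
      · exact hφ1 l)
    rw [hφ1, zero_smul, c3, mul_zero, sub_zero] at c2
    rw [hφ0, if_pos rfl, one_smul] at c1
    have c2' : CliffordAlgebra.contractLeft (Q := (0 : QuadraticForm K W)) φ
        (ι K (w k 1) * mon K w S) = 0 := c2
    rw [c2', mul_zero, sub_zero] at c1
    have c4 : ι K (w k 1) * mon K w S = 0 := by
      rw [← c1]
      have : CliffordAlgebra.contractLeft (Q := (0 : QuadraticForm K W)) φ
        (ι K (w k 0) * (ι K (w k 1) * mon K w S)) = 0 := by rw [hcon, map_zero]
      exact this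
    -- contract with the functional dual to `w k 1`
    set ψ : Module.Dual K W := Q (w k 0) with hψ
    have d1 := CliffordAlgebra.contractLeft_ι_mul (Q := (0 : QuadraticForm K W)) ψ (w k 1)
      (mon K w S)
    have d2 := BUNDLE_contract w ψ S (fun l hl s => by
      fin_cases s
      · exact hw.2 k l 0
      · exact (hw.1 k l).trans (if_neg (hS l hl)))
    have hψ1 : ψ (w k 1) = 1 := (hw.1 k k).trans (if_pos rfl)
    rw [hψ1, one_smul, d2, mul_zero, sub_zero] at d1
    rw [← d1]
    have : CliffordAlgebra.contractLeft (Q := (0 : QuadraticForm K W)) ψ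
        (ι K (w k 1) * mon K w S) = 0 := by rw [c4, map_zero]
    exact this

/-- monomials with planes in `P` are products of vectors of `P` -/
theorem BUNDLE_mon_mem (P : Submodule K W) (z : κ → Fin 2 → W) (S : Finset κ)
    (h : ∀ k ∈ S, ∀ s, z k s ∈ P) : mon K z S ∈ (P.map (ι K)) ^ (2 * S.card) := by
  classical
  induction S using Finset.induction_on with
  | empty => rw [mon_empty]; simp
  | insert k S hk ih =>
    rw [mon_insert z hk, Finset.card_insert_of_notMem hk, mul_assoc]
    have e : 2 * (S.card + 1) = 2 * S.card + 1 + 1 := by ring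
    rw [e, pow_succ', pow_succ']
    exact Submodule.mul_mem_mul ⟨_, h k (Finset.mem_insert_self k S) 0, rfl⟩
      (Submodule.mul_mem_mul ⟨_, h k (Finset.mem_insert_self k S) 1, rfl⟩
        (ih (fun l hl s => h l (Finset.mem_insert_of_mem hl) s)))

/-- products of `n` vectors of `P` -/
theorem BUNDLE_pow_span (P : Submodule K W) (n : ℕ) :
    (P.map (ι K)) ^ n ≤ Submodule.span K
      (Set.range fun f : Fin n → P => ιMulti K n (fun i => (f i : W))) := by
  induction n with
  | zero =>
    intro x hx
    rw [pow_zero] at hx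
    obtain ⟨r, rfl⟩ := Submodule.mem_one.1 hx
    rw [Algebra.algebraMap_eq_smul_one]
    refine Submodule.smul_mem _ _ (Submodule.subset_span ⟨fun i => Fin.elim0 i, ?_⟩)
    simp
  | succ n ih =>
    rw [pow_succ']
    refine Submodule.mul_le.2 ?_
    rintro _ ⟨p, hp, rfl⟩ x hx
    have key : ∀ y ∈ Submodule.span K
        (Set.range fun f : Fin n → P => ιMulti K n (fun i => (f i : W))),
        ι K p * y ∈ Submodule.span K
          (Set.range fun f : Fin (n + 1) → P => ιMulti K (n + 1) (fun i => (f i : W))) := by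
      intro y hy
      induction hy using Submodule.span_induction with
      | mem y hy =>
        obtain ⟨f, rfl⟩ := hy
        refine Submodule.subset_span ⟨Fin.cons ⟨p, hp⟩ f, ?_⟩
        simp only [ιMulti_succ_apply, Fin.cons_zero]
        congr 1
      | zero => rw [mul_zero]; exact Submodule.zero_mem _
      | add a b _ _ ha hb => rw [mul_add]; exact Submodule.add_mem _ ha hb
      | smul r a _ ha => rw [mul_smul_comm]; exact Submodule.smul_mem _ _ ha
    exact key x (ih hx)

/-- the top power of an `n`-dimensional subspace is a line -/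
theorem BUNDLE_top (P : Submodule K W) (n : ℕ) (e : Basis (Fin n) K P) :
    (P.map (ι K)) ^ n ≤ Submodule.span K {ιMulti K n (fun i => (e i : W))} := by
  refine le_trans (BUNDLE_pow_span P n) (Submodule.span_le.2 ?_)
  rintro _ ⟨f, rfl⟩
  -- both sides are alternating maps on `P`
  set F : P [⋀^Fin n]→ₗ[K] ExteriorAlgebra K W := (ιMulti K n).compLinearMap P.subtype with hF
  set G : P [⋀^Fin n]→ₗ[K] ExteriorAlgebra K W :=
    (LinearMap.toSpanSingleton K _ (F e)).compAlternatingMap e.det with hG
  have hFG : F = G := by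
    refine Module.Basis.ext_alternating e (fun v hv => ?_)
    have hb : Function.Bijective v := Finite.injective_iff_bijective.1 hv
    set σ : Equiv.Perm (Fin n) := Equiv.ofBijective v hb with hσ
    have e1 : (fun i => e (v i)) = e ∘ σ := rfl
    rw [e1, F.map_perm, G.map_perm]
    congr 1
    rw [hG, LinearMap.compAlternatingMap_apply, Module.Basis.det_self]
    simp
  have h1 : ιMulti K n (fun i => (f i : W)) = F f := rfl
  have h2 : ιMulti K n (fun i => (e i : W)) = F e := rfl
  have goal : ιMulti K n (fun i => (f i : W)) ∈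
      Submodule.span K {ιMulti K n (fun i => (e i : W))} := by
    have h3 : F f = e.det f • F e := by
      conv_lhs => rw [hFG]
      rw [hG, LinearMap.compAlternatingMap_apply, LinearMap.toSpanSingleton_apply]
    rw [h1, h2, h3]
    exact Submodule.smul_mem _ _ (Submodule.mem_span_singleton_self _)
  exact goal

end Top

section Fact

variable {Z : Type*} [CommRing Z]

theorem BUNDLE_binom (x s : Z) (hx : x * x = 0) (n : ℕ) :
    (x + s) ^ (n + 1) = s ^ (n + 1) + (n + 1 : ℕ) * x * s ^ n := by
  induction n with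
  | zero => simp; ring
  | succ n ih =>
    rw [pow_succ, ih]
    push_cast
    linear_combination ((n : Z) + 1) * s ^ n * hx

theorem BUNDLE_fact {κ : Type*} [DecidableEq κ] (e : κ → Z) (he : ∀ k, e k * e k = 0)
    (S : Finset κ) : (∑ k ∈ S, e k) ^ S.card = (S.card.factorial : Z) * ∏ k ∈ S, e k ∧
      (∑ k ∈ S, e k) * ∏ k ∈ S, e k = 0 := by
  induction S using Finset.induction_on with
  | empty => simp
  | insert k S hk ih =>
    obtain ⟨ih1, ih2⟩ := ih
    constructor
    · rw [Finset.sum_insert hk, Finset.prod_insert hk, Finset.card_insert_of_notMem hk,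
        BUNDLE_binom _ _ (he k), ih1, pow_succ, ih1, Nat.factorial_succ]
      push_cast
      linear_combination (S.card.factorial : Z) * ih2
    · rw [Finset.sum_insert hk, Finset.prod_insert hk]
      linear_combination (∏ k ∈ S, e k) * he k + e k * ih2

end Fact

section Bundle

variable {K : Type*} [Field K] [CharZero K] {W : Type*} [AddCommGroup W] [Module K W]
variable {κ : Type*} [DecidableEq κ]

omit [DecidableEq κ] [CharZero K] in
theorem BUNDLE_plspan (z : κ → Fin 2 → W) (T : Finset κ) : plspan K z T =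
    Submodule.span K (Set.range fun u : T × Fin 2 => z u.1 u.2) := by
  unfold plspan
  congr 1
  ext v
  constructor
  · rintro ⟨k, hk, s, rfl⟩
    exact ⟨(⟨k, hk⟩, s), rfl⟩
  · rintro ⟨u, rfl⟩
    exact ⟨u.1, u.1.2, u.2, rfl⟩

/-- (INV3) the inverse bivector of `Q` on a nondegenerate subspace. -/
theorem bundle (z : κ → Fin 2 → W) (T : Finset κ)
    (hli : LinearIndependent K (fun u : T × Fin 2 => z u.1 u.2)) (Q : W →ₗ[K] W →ₗ[K] K)
    (halt : ∀ x, Q x x = 0)
    (hnd : ∀ x ∈ plspan K z T, (∀ y ∈ plspan K z T, Q x y = 0) → x = 0) :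
    ∃ E ∈ ⋀[K]^2 W, (∀ X : W →ₗ[K] W, (∀ x ∈ plspan K z T, X x ∈ plspan K z T) →
      (∀ x y, Q (X x) y = - Q x (X y)) → der X E = 0) ∧ ∃ a : K, mon K z T = a • E ^ T.card := by
  have hfd : FiniteDimensional K (plspan K z T) := by
    rw [BUNDLE_plspan]
    exact FiniteDimensional.span_of_finite K (Set.finite_range _)
  obtain ⟨m, w, hwP, hwli, hwsp, hw01, hwss⟩ := darboux (plspan K z T) Q halt hnd
  have hG : BUNDLE_Gram Q w := ⟨hw01, hwss⟩
  have hcard : m = T.card := by
    have h1 := finrank_span_eq_card hwli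
    have h2 := finrank_span_eq_card hli
    rw [hwsp] at h1
    rw [← BUNDLE_plspan, h1] at h2
    simp only [Fintype.card_prod, Fintype.card_fin, Fintype.card_coe] at h2
    omega
  have hz : ∀ k ∈ T, ∀ s, z k s ∈ plspan K z T :=
    fun k hk s => Submodule.subset_span ⟨k, hk, s, rfl⟩
  -- coordinates in the Darboux basis
  have hcoord : ∀ x ∈ plspan K z T,
      x = ∑ l : Fin m, ∑ t : Fin 2, (sg K t * Q x (w l t.rev)) • w l t := by
    intro x hx
    rw [← hwsp] at hx
    obtain ⟨c, hc⟩ := (Submodule.mem_span_range_iff_exists_fun K).1 hx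
    have h1 : x = ∑ l : Fin m, ∑ t : Fin 2, c (l, t) • w l t := by
      rw [← hc, Fintype.sum_prod_type]
    have h2 : ∀ l t, sg K t * Q x (w l t.rev) = c (l, t) := by
      intro l t
      rw [h1]
      exact BUNDLE_coord Q halt w hG (fun k s => c (k, s)) l t
    simp only [h2]
    exact h1
  set E : Subalgebra.center K (ExteriorAlgebra K W) := ∑ k : Fin m, pl (K := K) w k with hE
  have hEcoe : (E : ExteriorAlgebra K W) =
      ∑ k : Fin m, (1 : K) • (pl (K := K) w k : ExteriorAlgebra K W) := by
    rw [hE]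
    simp
  refine ⟨E, ?_, ?_, ?_⟩
  · rw [hEcoe]
    refine Submodule.sum_mem _ (fun k _ => Submodule.smul_mem _ _ ?_)
    change (pl (K := K) w k : ExteriorAlgebra K W) ∈
      LinearMap.range (ι K : W →ₗ[K] ExteriorAlgebra K W) ^ 2
    rw [pow_two]
    exact Submodule.mul_mem_mul ⟨_, rfl⟩ ⟨_, rfl⟩
  · intro X hX hskew
    rw [hEcoe]
    refine der_sum_pl w Finset.univ X
      (fun u v => sg K u.2 * Q (X (w v.1 v.2)) (w u.1 u.2.rev)) ?_ (fun _ => 1) ?_
    · intro k _ s
      exact hcoord _ (hX _ (hwP k s))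
    · intro k _ l _ s t
      simp only [one_mul]
      rw [hskew (w l t.rev) (w k s.rev), BUNDLE_anti Q halt (w l t.rev)]
      ring
  · -- the top power
    have hbe : ∃ e : Basis (Fin (m * 2)) K (plspan K z T), True := by
      have hli' : LinearIndependent K
          (fun u : Fin m × Fin 2 => (⟨w u.1 u.2, hwP u.1 u.2⟩ : plspan K z T)) :=
        LinearIndependent.of_comp (plspan K z T).subtype hwli
      have hsp' : ⊤ ≤ Submodule.span K (Set.range
          (fun u : Fin m × Fin 2 => (⟨w u.1 u.2, hwP u.1 u.2⟩ : plspan K z T))) := by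
        have h1 : Submodule.map (plspan K z T).subtype (Submodule.span K (Set.range
            (fun u : Fin m × Fin 2 => (⟨w u.1 u.2, hwP u.1 u.2⟩ : plspan K z T)))) =
            plspan K z T := by
          rw [Submodule.map_span, ← Set.range_comp]
          exact hwsp
        rintro ⟨x, hx⟩ _
        have hx2 : x ∈ Submodule.map (plspan K z T).subtype (Submodule.span K (Set.range
            (fun u : Fin m × Fin 2 => (⟨w u.1 u.2, hwP u.1 u.2⟩ : plspan K z T)))) := by
          rw [h1]; exact hx
        obtain ⟨y, hy, hyx⟩ := hx2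
        have h3 : y = ⟨x, hx⟩ := Subtype.ext hyx
        rw [← h3]
        exact hy
      exact ⟨(Basis.mk hli' hsp').reindex finProdFinEquiv, trivial⟩
    obtain ⟨e, _⟩ := hbe
    have hmz := BUNDLE_top _ _ e (by
      have h := BUNDLE_mon_mem (K := K) (plspan K z T) z T hz
      rw [← hcard, mul_comm] at h
      exact h)
    have hmw := BUNDLE_top _ _ e (by
      have h := BUNDLE_mon_mem (K := K) (plspan K z T) w Finset.univ (fun k _ s => hwP k s)
      rw [Finset.card_univ, Fintype.card_fin, mul_comm] at h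
      exact h)
    obtain ⟨α, hα⟩ := Submodule.mem_span_singleton.1 hmz
    obtain ⟨β, hβ⟩ := Submodule.mem_span_singleton.1 hmw
    have hβ0 : β ≠ 0 := by
      rintro rfl
      rw [zero_smul] at hβ
      exact BUNDLE_mon_ne Q halt w hG Finset.univ hβ.symm
    have hpow : (E : ExteriorAlgebra K W) ^ T.card = (m.factorial : K) • mon K w Finset.univ := by
      have hsq : ∀ k : Fin m, pl (K := K) w k * pl (K := K) w k = 0 := by
        intro k
        apply Subtype.ext
        change ι K (w k 0) * ι K (w k 1) * (ι K (w k 0) * ι K (w k 1)) = 0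
        rw [mul_assoc, ← mul_assoc (ι K (w k 1)), ι_mul_ι_comm (w k 1) (w k 0), neg_mul, mul_neg,
          mul_assoc, ι_sq_zero, mul_zero, mul_zero, neg_zero]
      have h := (BUNDLE_fact (fun k => pl (K := K) w k) hsq Finset.univ).1
      rw [Finset.card_univ, Fintype.card_fin] at h
      rw [← hcard]
      have h' := congrArg (fun y : Subalgebra.center K (ExteriorAlgebra K W) =>
        (y : ExteriorAlgebra K W)) h
      simp only [Subalgebra.coe_pow, Subalgebra.coe_mul] at h'
      rw [hE, h', mon]
      rw [Algebra.smul_def]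
      congr 1
    refine ⟨α * β⁻¹ * (m.factorial : K)⁻¹, ?_⟩
    rw [hpow, ← hα, ← hβ, smul_smul, smul_smul]
    congr 1
    have : (m.factorial : K) ≠ 0 := by exact_mod_cast m.factorial_ne_zero
    field_simp

end Bundle

end Pool.Agent.Work.MP_298761_T2
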