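import Mathlib

/-!
# Derivations of an exterior algebra and monomials in planes

`der X` is the derivation of the exterior algebra extending the linear map `X`;
`pl z k` is the 2-vector `z k 0 ∧ z k 1` (a central element), `mon z S` the product of the
`pl z k`, `k ∈ S`.
-/

namespace Pool.Agent.Work.MP_298761_T2

open ExteriorAlgebra

variable {K : Type*} [Field K] {W : Type*} [AddCommGroup W] [Module K W]

/-- The algebra map `a ↦ a + ε (D a)` into the dual numbers defining the derivation. -/
noncomputable def derHom (X : W →ₗ[K] W) :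
    ExteriorAlgebra K W →ₐ[K] TrivSqZeroExt (ExteriorAlgebra K W) (ExteriorAlgebra K W) :=
  ExteriorAlgebra.lift K ⟨(TrivSqZeroExt.inlAlgHom K (ExteriorAlgebra K W)
      (ExteriorAlgebra K W)).toLinearMap ∘ₗ (ι K) +
      ((TrivSqZeroExt.inrHom (ExteriorAlgebra K W) (ExteriorAlgebra K W)).restrictScalars K) ∘ₗ
        (ι K) ∘ₗ X, by
    intro m
    apply TrivSqZeroExt.ext
    · simp
    · simp [ι_add_mul_swap]⟩

theorem derHom_ι (X : W →ₗ[K] W) (v : W) :
    derHom X (ι K v) = TrivSqZeroExt.inl (ι K v) + TrivSqZeroExt.inr (ι K (X v)) := by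
  simp [derHom]

theorem derHom_fst (X : W →ₗ[K] W) (a : ExteriorAlgebra K W) : (derHom X a).fst = a := by
  induction a using ExteriorAlgebra.induction with
  | algebraMap r => simp [TrivSqZeroExt.algebraMap_eq_inl']
  | ι x => simp [derHom_ι]
  | mul a b ha hb => simp [ha, hb]
  | add a b ha hb => simp [ha, hb]

/-- The derivation of the exterior algebra extending `X`. -/
noncomputable def der (X : W →ₗ[K] W) : ExteriorAlgebra K W →ₗ[K] ExteriorAlgebra K W where
  toFun a := (derHom X a).snd
  map_add' a b := by simp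
  map_smul' r a := by simp

theorem der_apply (X : W →ₗ[K] W) (a : ExteriorAlgebra K W) : der X a = (derHom X a).snd := rfl

@[simp] theorem der_ι (X : W →ₗ[K] W) (v : W) : der X (ι K v) = ι K (X v) := by
  simp [der_apply, derHom_ι]

@[simp] theorem der_algebraMap (X : W →ₗ[K] W) (r : K) :
    der X (algebraMap K (ExteriorAlgebra K W) r) = 0 := by
  simp [der_apply, TrivSqZeroExt.algebraMap_eq_inl']

@[simp] theorem der_one (X : W →ₗ[K] W) : der X (1 : ExteriorAlgebra K W) = 0 := by
  simp [der_apply]

theorem der_mul (X : W →ₗ[K] W) (a b : ExteriorAlgebra K W) :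
    der X (a * b) = der X a * b + a * der X b := by
  simp only [der_apply, map_mul, TrivSqZeroExt.snd_mul, derHom_fst, smul_eq_mul,
    MulOpposite.smul_eq_mul_unop, MulOpposite.unop_op]
  rw [add_comm]

/-- `der` is linear in the endomorphism. -/
theorem der_add (X Y : W →ₗ[K] W) (a : ExteriorAlgebra K W) :
    der (X + Y) a = der X a + der Y a := by
  induction a using ExteriorAlgebra.induction with
  | algebraMap r => simp
  | ι x => simp
  | mul a b ha hb => simp only [der_mul, ha, hb, add_mul, mul_add]; abel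
  | add a b ha hb => simp only [map_add, ha, hb]; abel

theorem der_smul (r : K) (X : W →ₗ[K] W) (a : ExteriorAlgebra K W) :
    der (r • X) a = r • der X a := by
  induction a using ExteriorAlgebra.induction with
  | algebraMap r => simp
  | ι x => simp
  | mul a b ha hb => simp only [der_mul, ha, hb, smul_add, smul_mul_assoc, mul_smul_comm]
  | add a b ha hb => simp only [map_add, ha, hb, smul_add]

@[simp] theorem der_zero (a : ExteriorAlgebra K W) : der (0 : W →ₗ[K] W) a = 0 := by
  have := der_smul (0 : K) (0 : W →ₗ[K] W) a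
  simpa using this

/-- `der` as a linear map of the endomorphism. -/
noncomputable def derL (a : ExteriorAlgebra K W) : (W →ₗ[K] W) →ₗ[K] ExteriorAlgebra K W where
  toFun X := der X a
  map_add' X Y := der_add X Y a
  map_smul' r X := der_smul r X a

@[simp] theorem derL_apply (a : ExteriorAlgebra K W) (X : W →ₗ[K] W) : derL a X = der X a := rfl

theorem ι_mul_ι_comm (u v : W) : ι K u * ι K v = -(ι K v * ι K u) :=
  eq_neg_of_add_eq_zero_left (ι_add_mul_swap u v)

/-- A 2-vector is central. -/
theorem ι_mul_ι_mem_center (u v : W) :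
    ι K u * ι K v ∈ Subalgebra.center K (ExteriorAlgebra K W) := by
  rw [Subalgebra.mem_center_iff]
  intro a
  induction a using ExteriorAlgebra.induction with
  | algebraMap r => exact Algebra.commutes r _
  | ι x =>
    rw [← mul_assoc, ι_mul_ι_comm x u, neg_mul, mul_assoc, ι_mul_ι_comm x v, mul_neg, neg_neg,
      mul_assoc]
  | mul a b ha hb => rw [mul_assoc, hb, ← mul_assoc, ha, mul_assoc]
  | add a b ha hb => rw [add_mul, mul_add, ha, hb]

variable {κ : Type*}

/-- The central 2-vector `z k 0 ∧ z k 1`. -/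
noncomputable def pl (z : κ → Fin 2 → W) (k : κ) : Subalgebra.center K (ExteriorAlgebra K W) :=
  ⟨ι K (z k 0) * ι K (z k 1), ι_mul_ι_mem_center _ _⟩

variable (K) in
/-- The product of the planes with index in `S`. -/
noncomputable def mon (z : κ → Fin 2 → W) (S : Finset κ) : ExteriorAlgebra K W :=
  ((∏ k ∈ S, pl (K := K) z k : Subalgebra.center K (ExteriorAlgebra K W)) : ExteriorAlgebra K W)

@[simp] theorem mon_empty (z : κ → Fin 2 → W) : mon K z ∅ = 1 := by simp [mon]

theorem mon_insert [DecidableEq κ] (z : κ → Fin 2 → W) {k : κ} {S : Finset κ} (hk : k ∉ S) :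
    mon K z (insert k S) = ι K (z k 0) * ι K (z k 1) * mon K z S := by
  simp [mon, Finset.prod_insert hk, pl]

theorem mon_mem_center (z : κ → Fin 2 → W) (S : Finset κ) :
    mon K z S ∈ Subalgebra.center K (ExteriorAlgebra K W) := by
  unfold mon
  exact SetLike.coe_mem _

theorem mon_comm (z : κ → Fin 2 → W) (S : Finset κ) (a : ExteriorAlgebra K W) :
    a * mon K z S = mon K z S * a :=
  (Subalgebra.mem_center_iff.mp (mon_mem_center z S)) a

theorem mon_mem (z : κ → Fin 2 → W) (S : Finset κ) :
    mon K z S ∈ ⋀[K]^(2 * S.card) W := by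
  classical
  induction S using Finset.induction_on with
  | empty => simpa using SetLike.GradedOne.one_mem (A := fun i : ℕ => ⋀[K]^i W)
  | insert k S hk ih =>
    rw [mon_insert z hk, Finset.card_insert_of_notMem hk]
    have h1 : ∀ v : W, ι K v ∈ ⋀[K]^1 W := fun v => by
      simpa only [pow_one] using LinearMap.mem_range_self (ι K) v
    have h2 : ι K (z k 0) * ι K (z k 1) ∈ ⋀[K]^(1 + 1) W :=
      SetLike.GradedMul.mul_mem (h1 _) (h1 _)
    have h3 := SetLike.GradedMul.mul_mem (A := fun i : ℕ => ⋀[K]^i W) h2 ih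
    have : 1 + 1 + 2 * S.card = 2 * (S.card + 1) := by ring
    rwa [this] at h3

/-- A vector in the span of the plane `k ∈ S` kills `mon z S`. -/
theorem ι_mul_mon_eq_zero [DecidableEq κ] (z : κ → Fin 2 → W) {k : κ} {S : Finset κ} (hk : k ∈ S)
    (s : Fin 2) : ι K (z k s) * mon K z S = 0 := by
  rw [← Finset.insert_erase hk, mon_insert z (Finset.notMem_erase k S)]
  fin_cases s
  · simp only [Fin.zero_eta, Fin.isValue, ← mul_assoc, ι_sq_zero, zero_mul]
  · simp only [Fin.mk_one, Fin.isValue, ← mul_assoc]
    rw [ι_mul_ι_comm (z k 1) (z k 0), neg_mul, mul_assoc (ι K (z k 0)), ι_sq_zero]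
    simp

theorem ι_mul_mon_eq_zero_of_mem_span [DecidableEq κ] (z : κ → Fin 2 → W) {S : Finset κ} {w : W}
    (hw : w ∈ Submodule.span K {v | ∃ k ∈ S, ∃ s, v = z k s}) : ι K w * mon K z S = 0 := by
  induction hw using Submodule.span_induction with
  | mem x hx => obtain ⟨k, hk, s, rfl⟩ := hx; exact ι_mul_mon_eq_zero z hk s
  | zero => simp
  | add x y _ _ hx hy => simp [add_mul, hx, hy]
  | smul r x _ hx => simp [hx]

theorem mon_union [DecidableEq κ] (z : κ → Fin 2 → W) {S T : Finset κ} (h : Disjoint S T) :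
    mon K z (S ∪ T) = mon K z S * mon K z T := by
  simp [mon, Finset.prod_union h]

theorem der_pl (X : W →ₗ[K] W) (z : κ → Fin 2 → W) (k : κ) :
    der X (pl (K := K) z k : ExteriorAlgebra K W) =
      ι K (X (z k 0)) * ι K (z k 1) + ι K (z k 0) * ι K (X (z k 1)) := by
  simp [pl, der_mul]

theorem der_mon [DecidableEq κ] (X : W →ₗ[K] W) (z : κ → Fin 2 → W) (S : Finset κ) :
    der X (mon K z S) = ∑ k ∈ S, der X (pl (K := K) z k : ExteriorAlgebra K W) *
      mon K z (S.erase k) := by
  induction S using Finset.induction_on with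
  | empty => simp
  | insert k S hk ih =>
    have hpl : (pl (K := K) z k : ExteriorAlgebra K W) = ι K (z k 0) * ι K (z k 1) := rfl
    rw [mon_insert z hk, ← hpl, der_mul, ih, Finset.sum_insert hk, Finset.erase_insert hk,
      Finset.mul_sum]
    congr 1
    refine Finset.sum_congr rfl fun l hl => ?_
    have hne : k ≠ l := fun h => hk (h ▸ hl)
    rw [Finset.erase_insert_of_ne hne, mon_insert z (fun h => hk (Finset.mem_of_mem_erase h)),
      ← hpl, ← mul_assoc, ← mul_assoc]
    congr 1
    exact ((Subalgebra.mem_center_iff.mp (pl (K := K) z k).2) _).symm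

end Pool.Agent.Work.MP_298761_T2
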