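import Pool.Agent.Work.MP_298761_T2.Base

/-!
# Common definitions for theorem T2
-/

namespace Pool.Agent.Work.MP_298761_T2

open ExteriorAlgebra Module

/-- The signs `1, -1`: `pl z k = sg s • (z k s ∧ z k s.rev)` for both `s`. -/
def sg (K : Type*) [Field K] : Fin 2 → K := ![1, -1]

section Defs

variable {K : Type*} [Field K] {W : Type*} [AddCommGroup W] [Module K W] {κ : Type*}

/-- The entry of `X` in the basis `b`: coefficient of `b u` in `X (b v)`. -/
noncomputable def ent (b : Basis (κ × Fin 2) K W) (X : W →ₗ[K] W) (u v : κ × Fin 2) : K :=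
  b.repr (X (b v)) u

/-- The planes of a basis indexed by `κ × Fin 2`. -/
noncomputable def bz (b : Basis (κ × Fin 2) K W) : κ → Fin 2 → W := fun k s => b (k, s)

/-- The span of the planes in `T`. -/
def plspan (K : Type*) [Field K] {W : Type*} [AddCommGroup W] [Module K W] {κ : Type*}
    (z : κ → Fin 2 → W) (T : Finset κ) : Submodule K W :=
  Submodule.span K {v | ∃ k ∈ T, ∃ s, v = z k s}

/-- The endomorphism of `W` attached to a 2-vector `D` by the form `Q`:
`x ↦` contraction of `D` with the linear form `Q x`. -/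
noncomputable def endo (Q : W →ₗ[K] W →ₗ[K] K) (D : ExteriorAlgebra K W) : W →ₗ[K] W :=
  ExteriorAlgebra.ιInv ∘ₗ
    (CliffordAlgebra.contractLeft (Q := (0 : QuadraticForm K W))).flip D ∘ₗ Q

end Defs

section Comb

variable {K : Type*} [Field K] {κ : Type*} [DecidableEq κ]

/-- `k` and `l` are equal, or the coefficients `c (R ∪ k)` and `c (R ∪ l)` are proportional
with a fixed nonzero factor. -/
def Sim (c : Finset κ → K) (k l : κ) : Prop :=
  k = l ∨ ∃ a : K, a ≠ 0 ∧ ∀ R : Finset κ, k ∉ R → l ∉ R → c (insert k R) = a * c (insert l R)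

/-- Every monomial containing `k` contains `l`. -/
def Imp (c : Finset κ → K) (k l : κ) : Prop := ∀ S : Finset κ, c S ≠ 0 → k ∈ S → l ∈ S

/-- Strict implication. -/
def SI (c : Finset κ → K) (k l : κ) : Prop := Imp c k l ∧ ¬ Sim c k l

end Comb

section Desc

variable (n : Type) [Fintype n] [DecidableEq n]

/-- The inclusion `ℚ^n → ℝ^n`. -/
noncomputable def incl : (n → ℚ) →ₗ[ℚ] (n → ℝ) := (Algebra.linearMap ℚ ℝ).compLeft n

/-- The inclusion of the rational exterior algebra into the real one. -/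
noncomputable def toReal : ExteriorAlgebra ℚ (n → ℚ) →ₐ[ℚ] ExteriorAlgebra ℝ (n → ℝ) :=
  ExteriorAlgebra.lift ℚ ⟨((ι ℝ : (n → ℝ) →ₗ[ℝ] _).restrictScalars ℚ) ∘ₗ incl n, fun m => by
    simp [ι_sq_zero]⟩

variable {n}

/-- The real extension of a rational endomorphism. -/
noncomputable def ext (X : (n → ℚ) →ₗ[ℚ] (n → ℚ)) : (n → ℝ) →ₗ[ℝ] (n → ℝ) :=
  Matrix.toLin' ((LinearMap.toMatrix' X).map (fun q : ℚ => (q : ℝ)))

end Desc

end Pool.Agent.Work.MP_298761_T2
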