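import Pool.Agent.Work.MP_298761_T2.BaseDefs

/-!
# Block COMB: combinatorics of the coefficient function
-/

namespace Pool.Agent.Work.MP_298761_T2

section Comb

variable {K : Type*} [Field K] {κ : Type*} [DecidableEq κ]

theorem COMB_iff (c : Finset κ → K) (k l : κ) : Sim c k l ↔
    ∃ a : K, a ≠ 0 ∧ ∀ R : Finset κ, k ∉ R → l ∉ R → c (insert k R) = a * c (insert l R) := by
  constructor
  · rintro (rfl | h)
    · exact ⟨1, one_ne_zero, fun R _ _ => (one_mul _).symm⟩
    · exact h
  · exact fun h => Or.inr h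

theorem COMB_refl (c : Finset κ → K) (k : κ) : Sim c k k := Or.inl rfl

theorem COMB_symm {c : Finset κ → K} {k l : κ} (h : Sim c k l) : Sim c l k := by
  rw [COMB_iff] at h ⊢
  obtain ⟨a, ha, h⟩ := h
  refine ⟨a⁻¹, inv_ne_zero ha, fun R h1 h2 => ?_⟩
  rw [h R h2 h1, ← mul_assoc, inv_mul_cancel₀ ha, one_mul]

theorem COMB_trans {c : Finset κ → K} {k l m : κ} (h : Sim c k l) (h' : Sim c l m) :
    Sim c k m := by
  by_cases hkl : k = l
  · subst hkl; exact h'
  by_cases hlm : l = m
  · subst hlm; exact h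
  by_cases hkm : k = m
  · exact Or.inl hkm
  rw [COMB_iff] at h h' ⊢
  obtain ⟨a, ha, h⟩ := h
  obtain ⟨a', ha', h'⟩ := h'
  refine ⟨a * a', mul_ne_zero ha ha', fun R hk hm => ?_⟩
  by_cases hl : l ∈ R
  · have hR : insert l (R.erase l) = R := Finset.insert_erase hl
    have e1 : insert k R = insert l (insert k (R.erase l)) := by
      rw [← hR, Finset.erase_insert (Finset.notMem_erase l R), Finset.insert_comm]
    have e2 : insert m R = insert l (insert m (R.erase l)) := by
      rw [← hR, Finset.erase_insert (Finset.notMem_erase l R), Finset.insert_comm]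
    have k1 : k ∉ R.erase l := fun h => hk (Finset.mem_of_mem_erase h)
    have m1 : m ∉ R.erase l := fun h => hm (Finset.mem_of_mem_erase h)
    rw [e1, h' (insert k (R.erase l)) (by simp [Ne.symm hkl]) (by
      rw [Finset.mem_insert]; rintro (h | h)
      · exact hkm h.symm
      · exact m1 h), Finset.insert_comm m k,
      h (insert m (R.erase l)) (by
        rw [Finset.mem_insert]; rintro (h | h)
        · exact hkm h
        · exact k1 h) (by simp [hlm]), e2]
    ring
  · rw [h R hk hl, h' R hl hm, mul_assoc]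

theorem sim_equivalence (c : Finset κ → K) : Equivalence (Sim c) :=
  ⟨COMB_refl c, COMB_symm, COMB_trans⟩

theorem COMB_imp_sim {c : Finset κ → K} {k m l : κ} (h : Imp c k m) (hkm : k ≠ m)
    (h' : Sim c m l) : Imp c k l := by
  intro S hS hk
  by_contra hl
  have hm := h S hS hk
  have hml : m ≠ l := fun e => hl (e ▸ hm)
  rw [COMB_iff] at h'
  obtain ⟨a, ha, h'⟩ := h'
  have e : insert m (S.erase m) = S := Finset.insert_erase hm
  have h1 := h' (S.erase m) (Finset.notMem_erase m S) (fun h => hl (Finset.mem_of_mem_erase h))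
  rw [e] at h1
  have h2 : c (insert l (S.erase m)) ≠ 0 := fun h0 => hS (by rw [h1, h0, mul_zero])
  have h3 := h _ h2 (Finset.mem_insert_of_mem (Finset.mem_erase.mpr ⟨hkm, hk⟩))
  rw [Finset.mem_insert] at h3
  rcases h3 with h3 | h3
  · exact hml h3
  · exact Finset.notMem_erase m S h3

theorem COMB_sim_imp {c : Finset κ → K} {k m l : κ} (h : Sim c k m) (h' : Imp c m l)
    (hml : m ≠ l) : Imp c k l := by
  intro S hS hk
  by_cases hm : m ∈ S
  · exact h' S hS hm
  rw [COMB_iff] at h
  obtain ⟨a, ha, h⟩ := h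
  have e : insert k (S.erase k) = S := Finset.insert_erase hk
  have h1 := h (S.erase k) (Finset.notMem_erase k S) (fun h => hm (Finset.mem_of_mem_erase h))
  rw [e] at h1
  have h2 : c (insert m (S.erase k)) ≠ 0 := fun h0 => hS (by rw [h1, h0, mul_zero])
  have h3 := h' _ h2 (Finset.mem_insert_self _ _)
  rw [Finset.mem_insert] at h3
  rcases h3 with h3 | h3
  · exact absurd h3.symm hml
  · exact Finset.mem_of_mem_erase h3

theorem COMB_sim_of_imp {c : Finset κ → K} {k l : κ} (h : Imp c k l) (h' : Imp c l k) :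
    Sim c k l := by
  by_cases hkl : k = l
  · exact Or.inl hkl
  refine Or.inr ⟨1, one_ne_zero, fun R hk hl => ?_⟩
  have h1 : c (insert k R) = 0 := by
    by_contra h0
    have := h _ h0 (Finset.mem_insert_self _ _)
    rw [Finset.mem_insert] at this
    rcases this with e | e
    · exact hkl e.symm
    · exact hl e
  have h2 : c (insert l R) = 0 := by
    by_contra h0
    have := h' _ h0 (Finset.mem_insert_self _ _)
    rw [Finset.mem_insert] at this
    rcases this with e | e
    · exact hkl e
    · exact hk e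
  rw [h1, h2, mul_zero]

theorem COMB_imp_trans {c : Finset κ → K} {k l m : κ} (h : Imp c k l) (h' : Imp c l m) :
    Imp c k m := fun S hS hk => h' S hS (h S hS hk)

theorem SI.trans {c : Finset κ → K} {k l m : κ} (h : SI c k l) (h' : SI c l m) : SI c k m := by
  refine ⟨COMB_imp_trans h.1 h'.1, fun hs => ?_⟩
  have hlm : l ≠ m := fun e => h'.2 (Or.inl e)
  have h1 : Imp c l k := COMB_imp_sim h'.1 hlm (COMB_symm hs)
  exact h.2 (COMB_sim_of_imp h.1 h1)

theorem SI.sim {c : Finset κ → K} {k l m : κ} (h : SI c k l) (h' : Sim c l m) : SI c k m :=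
  ⟨COMB_imp_sim h.1 (fun e => h.2 (Or.inl e)) h', fun hs => h.2 (COMB_trans hs (COMB_symm h'))⟩

theorem Sim.si {c : Finset κ → K} {k l m : κ} (h : Sim c k l) (h' : SI c l m) : SI c k m :=
  ⟨COMB_sim_imp h h'.1 (fun e => h'.2 (Or.inl e)), fun hs => h'.2 (COMB_trans (COMB_symm h) hs)⟩

theorem exists_scale [Fintype κ] (c : Finset κ → K) : ∃ μ : κ → K, (∀ k, μ k ≠ 0) ∧
    ∀ (k l : κ) (R : Finset κ), Sim c k l → k ∉ R → l ∉ R →
      c (insert k R) * μ l = c (insert l R) * μ k := by
  let s : Setoid κ := ⟨Sim c, sim_equivalence c⟩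
  let r : κ → κ := fun k => Quotient.out (Quotient.mk s k)
  have hr : ∀ k, Sim c k (r k) := fun k => COMB_symm (Quotient.mk_out (s := s) k)
  have hrr : ∀ k l, Sim c k l → r k = r l := by
    intro k l h
    have : Quotient.mk s k = Quotient.mk s l := Quotient.sound h
    show Quotient.out (Quotient.mk s k) = Quotient.out (Quotient.mk s l)
    rw [this]
  have hx : ∀ k, ∃ a : K, a ≠ 0 ∧ ∀ R : Finset κ, k ∉ R → r k ∉ R →
      c (insert k R) = a * c (insert (r k) R) := fun k => (COMB_iff c k (r k)).mp (hr k)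
  choose μ hμ0 hμ using hx
  refine ⟨μ, hμ0, fun k l R hkl hk hl => ?_⟩
  by_cases e : k = l
  · subst e; rfl
  have hkr := hrr k l hkl
  by_cases hR : r k ∈ R
  · have ne1 : k ≠ r k := fun h => hk (h ▸ hR)
    have ne2 : l ≠ r k := fun h => hl (h ▸ hR)
    have hins : insert (r k) (R.erase (r k)) = R := Finset.insert_erase hR
    have hr0 : r k ∉ R.erase (r k) := Finset.notMem_erase _ _
    have k1 : k ∉ R.erase (r k) := fun h => hk (Finset.mem_of_mem_erase h)
    have l1 : l ∉ R.erase (r k) := fun h => hl (Finset.mem_of_mem_erase h)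
    have A := hμ k (insert l (R.erase (r k))) (by
      rw [Finset.mem_insert]; rintro (h | h)
      · exact e h
      · exact k1 h) (by
      rw [Finset.mem_insert]; rintro (h | h)
      · exact ne2 h.symm
      · exact hr0 h)
    have B := hμ l (insert k (R.erase (r k))) (by
      rw [Finset.mem_insert]; rintro (h | h)
      · exact e h.symm
      · exact l1 h) (by
      rw [Finset.mem_insert, ← hkr]; rintro (h | h)
      · exact ne1 h.symm
      · exact hr0 h)
    rw [← hkr] at B
    rw [Finset.insert_comm (r k) l, hins] at A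
    rw [Finset.insert_comm (r k) k, hins] at B
    rw [Finset.insert_comm l k] at B
    rw [mul_comm, ← B, A, mul_comm]
  · rw [hμ k R hk hR, hμ l R hl (hkr ▸ hR), ← hkr]
    ring

/-- A class is either a bundle (all monomials contain all or none of its elements) or every two
of its elements are separated by a monomial. -/
theorem dichotomy (c : Finset κ → K) (k : κ) :
    (∀ l m, Sim c k l → Sim c k m → Imp c l m) ∨
    (∀ l m, Sim c k l → Sim c k m → l ≠ m →
      ∃ R : Finset κ, l ∉ R ∧ m ∉ R ∧ c (insert l R) ≠ 0 ∧ c (insert m R) ≠ 0) := by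
  by_cases H : ∀ l m, Sim c k l → Sim c k m → l ≠ m →
      ∃ R : Finset κ, l ∉ R ∧ m ∉ R ∧ c (insert l R) ≠ 0 ∧ c (insert m R) ≠ 0
  · exact Or.inr H
  · left
    push Not at H
    obtain ⟨l, m, hl, hm, hlm, H⟩ := H
    have hs : Sim c l m := COMB_trans (COMB_symm hl) hm
    obtain ⟨a, ha, h⟩ := (COMB_iff c l m).mp hs
    have v1 : ∀ R : Finset κ, l ∉ R → m ∉ R → c (insert l R) = 0 := by
      intro R h1 h2
      by_contra h0
      have h3 := H R h1 h2 h0
      rw [h R h1 h2, h3, mul_zero] at h0
      exact h0 rfl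
    have v2 : ∀ R : Finset κ, l ∉ R → m ∉ R → c (insert m R) = 0 := by
      intro R h1 h2
      have h3 := h R h1 h2
      rw [v1 R h1 h2] at h3
      rcases mul_eq_zero.mp h3.symm with h4 | h4
      · exact absurd h4 ha
      · exact h4
    have i1 : Imp c l m := by
      intro S hS hlS
      by_contra hmS
      apply hS
      rw [← Finset.insert_erase hlS]
      exact v1 _ (Finset.notMem_erase _ _) (fun h => hmS (Finset.mem_of_mem_erase h))
    have i2 : Imp c m l := by
      intro S hS hmS
      by_contra hlS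
      apply hS
      rw [← Finset.insert_erase hmS]
      exact v2 _ (fun h => hlS (Finset.mem_of_mem_erase h)) (Finset.notMem_erase _ _)
    intro x y hx hy
    have j1 : Imp c x m := COMB_sim_imp (COMB_trans (COMB_symm hx) hl) i1 hlm
    have j2 : Imp c x l := COMB_sim_imp (COMB_trans (COMB_symm hx) hm) i2 hlm.symm
    by_cases hxm : x = m
    · exact COMB_imp_sim j2 (fun e => hlm (e.symm.trans hxm)) (COMB_trans (COMB_symm hl) hy)
    · exact COMB_imp_sim j1 hxm (COMB_trans (COMB_symm hm) hy)

end Comb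

end Pool.Agent.Work.MP_298761_T2
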