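import Pool.Agent.Work.MP_298761_T2.BaseDefs

/-!
# Block INV12: the symmetry criterion and the trace of a skew endomorphism
-/

namespace Pool.Agent.Work.MP_298761_T2

open ExteriorAlgebra Module

section Inv

variable {K : Type*} [Field K] [CharZero K] {W : Type*} [AddCommGroup W] [Module K W]
variable {κ : Type*} [DecidableEq κ]

/-- (INV1) the symmetry criterion. -/
theorem der_sum_pl (z : κ → Fin 2 → W) (T : Finset κ) (X : W →ₗ[K] W)
    (M : κ × Fin 2 → κ × Fin 2 → K)
    (hX : ∀ k ∈ T, ∀ s, X (z k s) = ∑ l ∈ T, ∑ t, M (l, t) (k, s) • z l t) (μ : κ → K)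
    (hsym : ∀ k ∈ T, ∀ l ∈ T, ∀ s t, μ k * (sg K s * M (l, t) (k, s.rev)) =
      μ l * (sg K t * M (k, s) (l, t.rev))) :
    der X (∑ k ∈ T, μ k • (pl (K := K) z k : ExteriorAlgebra K W)) = 0 := by
  classical
  set F : κ × Fin 2 → κ × Fin 2 → ExteriorAlgebra K W := fun u v =>
    (μ u.1 * (sg K u.2 * M v (u.1, u.2.rev))) • (ι K (z u.1 u.2) * ι K (z v.1 v.2)) with hF
  set U : Finset (κ × Fin 2) := T ×ˢ Finset.univ with hU
  have h1 : der X (∑ k ∈ T, μ k • (pl (K := K) z k : ExteriorAlgebra K W)) =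
      ∑ u ∈ U, ∑ v ∈ U, F u v := by
    rw [map_sum, hU, Finset.sum_product]
    apply Finset.sum_congr rfl
    intro k hk
    have hpl : (pl (K := K) z k : ExteriorAlgebra K W) = ι K (z k 0) * ι K (z k 1) := rfl
    rw [map_smul, hpl, der_mul, der_ι, der_ι, hX k hk, hX k hk, Fin.sum_univ_two]
    simp only [Finset.sum_product, map_sum, map_smul, Finset.sum_mul, Finset.mul_sum, smul_add,
      Finset.smul_sum, hF, smul_mul_assoc, mul_smul_comm]
    rw [add_comm]
    congr 1
    · apply Finset.sum_congr rfl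
      intro l _
      apply Finset.sum_congr rfl
      intro t _
      simp [sg, smul_smul]
    · apply Finset.sum_congr rfl
      intro l _
      apply Finset.sum_congr rfl
      intro t _
      rw [ι_mul_ι_comm (z l t) (z k 1)]
      simp [sg, smul_smul]
  have h2 : ∑ u ∈ U, ∑ v ∈ U, F u v = -∑ u ∈ U, ∑ v ∈ U, F u v := by
    conv_lhs => rw [Finset.sum_comm]
    rw [← Finset.sum_neg_distrib]
    apply Finset.sum_congr rfl
    intro u hu
    rw [← Finset.sum_neg_distrib]
    apply Finset.sum_congr rfl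
    intro v hv
    have hu' : u.1 ∈ T := by
      rw [hU, Finset.mem_product] at hu
      exact hu.1
    have hv' : v.1 ∈ T := by
      rw [hU, Finset.mem_product] at hv
      exact hv.1
    simp only [hF]
    rw [ι_mul_ι_comm (z v.1 v.2) (z u.1 u.2), smul_neg]
    congr 2
    exact hsym v.1 hv' u.1 hu' v.2 u.2
  rw [h1]
  have h3 : (2 : K) • ∑ u ∈ U, ∑ v ∈ U, F u v = 0 := by
    rw [two_smul]
    nth_rewrite 1 [h2]
    exact neg_add_cancel _
  exact (smul_eq_zero.mp h3).resolve_left two_ne_zero

/-- (INV2) the trace of a skew endomorphism on a stable nondegenerate subspace vanishes. -/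
theorem trace_zero (z : κ → Fin 2 → W) (T : Finset κ)
    (hli : LinearIndependent K (fun u : T × Fin 2 => z u.1 u.2)) (Q : W →ₗ[K] W →ₗ[K] K)
    (hnd : ∀ x ∈ plspan K z T, (∀ y ∈ plspan K z T, Q x y = 0) → x = 0)
    (X : W →ₗ[K] W) (M : κ × Fin 2 → κ × Fin 2 → K)
    (hX : ∀ k ∈ T, ∀ s, X (z k s) = ∑ l ∈ T, ∑ t, M (l, t) (k, s) • z l t)
    (hskew : ∀ x y, Q (X x) y = - Q x (X y)) :
    ∑ k ∈ T, (M (k, 0) (k, 0) + M (k, 1) (k, 1)) = 0 := by
  classical
  set w : T × Fin 2 → W := fun u => z u.1 u.2 with hw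
  set A : Matrix (T × Fin 2) (T × Fin 2) K := fun u v => M (u.1, u.2) (v.1, v.2) with hA
  set G : Matrix (T × Fin 2) (T × Fin 2) K := fun u v => Q (w u) (w v) with hG
  have hXw : ∀ v, X (w v) = ∑ u, A u v • w u := by
    intro v
    rw [hw, Fintype.sum_prod_type]
    have := hX v.1 v.1.2 v.2
    rw [this, ← Finset.sum_coe_sort T]
  have hmem : ∀ u, w u ∈ plspan K z T :=
    fun u => Submodule.subset_span ⟨u.1, u.1.2, u.2, rfl⟩
  have hspan : ∀ x : W, (∀ v, Q x (w v) = 0) → ∀ y ∈ plspan K z T, Q x y = 0 := by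
    intro x hx y hy
    unfold plspan at hy
    induction hy using Submodule.span_induction with
    | mem y hy =>
      obtain ⟨k, hk, s, rfl⟩ := hy
      exact hx (⟨k, hk⟩, s)
    | zero => simp
    | add y y' _ _ h h' => rw [map_add, h, h', add_zero]
    | smul a y _ h => rw [map_smul, h, smul_zero]
  have hdet : G.det ≠ 0 := by
    intro h0
    obtain ⟨x, hx, hxG⟩ := Matrix.exists_vecMul_eq_zero_iff.mpr h0
    apply hx
    have h1 : ∑ u, x u • w u = 0 := by
      apply hnd
      · exact Submodule.sum_mem _ fun u _ => Submodule.smul_mem _ _ (hmem u)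
      · apply hspan
        intro v
        have := congrFun hxG v
        simp only [Matrix.vecMul, dotProduct, Pi.zero_apply, hG] at this
        simpa [map_sum, LinearMap.sum_apply] using this
    funext u
    exact Fintype.linearIndependent_iff.mp hli x h1 u
  have hrel : A.transpose * G = -(G * A) := by
    ext v u
    simp only [Matrix.mul_apply, Matrix.transpose_apply, Matrix.neg_apply]
    have h := hskew (w v) (w u)
    rw [hXw, hXw] at h
    simp only [map_sum, LinearMap.sum_apply, map_smul, LinearMap.smul_apply, smul_eq_mul] at h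
    rw [hG]
    rw [h]
    congr 1
    apply Finset.sum_congr rfl
    intro i _
    ring
  have hunit : IsUnit G.det := isUnit_iff_ne_zero.mpr hdet
  have htr : A.trace = -A.trace := by
    have h1 : A = G⁻¹ * (G * A) := by
      rw [← Matrix.mul_assoc, Matrix.nonsing_inv_mul _ hunit, Matrix.one_mul]
    have h2 : G * A = -(A.transpose * G) := by rw [hrel, neg_neg]
    calc A.trace = (G⁻¹ * (G * A)).trace := by rw [← h1]
      _ = (G⁻¹ * -(A.transpose * G)).trace := by rw [h2]
      _ = -(A.transpose * G * G⁻¹).trace := by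
          rw [Matrix.mul_neg, Matrix.trace_neg, Matrix.trace_mul_comm]
      _ = -A.trace := by
          rw [Matrix.mul_assoc, Matrix.mul_nonsing_inv _ hunit, Matrix.mul_one,
            Matrix.trace_transpose]
  have h0 : A.trace = 0 := by
    have h3 : (2 : K) * A.trace = 0 := by
      rw [two_mul]
      nth_rewrite 1 [htr]
      exact neg_add_cancel _
    exact (mul_eq_zero.mp h3).resolve_left two_ne_zero
  have h4 : A.trace = ∑ k ∈ T, (M (k, 0) (k, 0) + M (k, 1) (k, 1)) := by
    rw [Matrix.trace, Fintype.sum_prod_type, ← Finset.sum_coe_sort T]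
    apply Finset.sum_congr rfl
    intro k _
    rw [Fin.sum_univ_two]
    rfl
  rw [← h4, h0]

end Inv

end Pool.Agent.Work.MP_298761_T2
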