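import Pool.Agent.Work.MP_298761_T2.BaseDefs

/-!
# Block SHEAR
-/

namespace Pool.Agent.Work.MP_298761_T2

open ExteriorAlgebra Module

section Shear

variable {K : Type*} [Field K] {W : Type*} [AddCommGroup W] [Module K W]

/-- The orthogonal projection onto a nondegenerate subspace. -/
theorem shear_proj [FiniteDimensional K W] (Q : W →ₗ[K] W →ₗ[K] K) (P : Submodule K W)
    (hP : ∀ x ∈ P, (∀ y ∈ P, Q x y = 0) → x = 0) :
    ∃ π : W →ₗ[K] W, (∀ w, π w ∈ P) ∧ ∀ w, ∀ y ∈ P, Q (π w) y = Q w y := by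
  set φ : P →ₗ[K] Module.Dual K P := P.subtype.dualMap ∘ₗ Q ∘ₗ P.subtype with hφ
  have hinj : Function.Injective φ := by
    rw [← LinearMap.ker_eq_bot, LinearMap.ker_eq_bot']
    intro x hx
    have := hP x x.2 fun y hy => by
      have := LinearMap.congr_fun hx ⟨y, hy⟩
      simpa [hφ] using this
    exact Subtype.ext this
  let e : P ≃ₗ[K] Module.Dual K P :=
    LinearMap.linearEquivOfInjective φ hinj (Subspace.dual_finrank_eq).symm
  refine ⟨P.subtype ∘ₗ e.symm.toLinearMap ∘ₗ P.subtype.dualMap ∘ₗ Q, fun w => ?_, fun w y hy => ?_⟩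
  · simp
  · have h1 : φ (e.symm (P.subtype.dualMap (Q w))) = P.subtype.dualMap (Q w) :=
      e.apply_symm_apply _
    have := LinearMap.congr_fun h1 ⟨y, hy⟩
    simpa [hφ] using this

variable {κ : Type*} [Fintype κ] [DecidableEq κ]

omit [DecidableEq κ] in
theorem shear_expand (b : Basis (κ × Fin 2) K W) (X : W →ₗ[K] W) (v : κ × Fin 2) :
    X (b v) = ∑ u, ent b X u v • b u := by
  simp only [ent]
  exact (b.sum_repr (X (b v))).symm

omit [Fintype κ] in
/-- Replacing the vectors of one plane by vectors congruent modulo the span of other planes does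
not change the monomial. -/
theorem shear_replace (z : κ → Fin 2 → W) (S : Finset κ) (x0 x1 p0 p1 : W)
    (h0 : p0 ∈ Submodule.span K {v | ∃ k ∈ S, ∃ s, v = z k s})
    (h1 : p1 ∈ Submodule.span K {v | ∃ k ∈ S, ∃ s, v = z k s}) :
    ι K (x0 - p0) * ι K (x1 - p1) * mon K z S = ι K x0 * ι K x1 * mon K z S := by
  have e0 := ι_mul_mon_eq_zero_of_mem_span z h0
  have e1 := ι_mul_mon_eq_zero_of_mem_span z h1
  have e2 : ι K p0 * ι K x1 * mon K z S = 0 := by
    rw [ι_mul_ι_comm, neg_mul, mul_assoc, e0, mul_zero, neg_zero]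
  have e3 : ι K (x0 - p0) * ι K (x1 - p1) * mon K z S = ι K (x0 - p0) * ι K x1 * mon K z S := by
    rw [mul_assoc, mul_assoc, map_sub (ι K) x1 p1, sub_mul, e1, sub_zero]
  rw [e3, map_sub, sub_mul, sub_mul, e2, sub_zero]

theorem shear (b : Basis (κ × Fin 2) K W) (Q : W →ₗ[K] W →ₗ[K] K)
    (𝔪 : Set (W →ₗ[K] W)) (hskew : ∀ X ∈ 𝔪, ∀ x y, Q (X x) y = - Q x (X y))
    (hnd : ∀ P : Submodule K W, (∀ X ∈ 𝔪, ∀ x ∈ P, X x ∈ P) → ∀ x ∈ P, (∀ y ∈ P, Q x y = 0) → x = 0)
    (sim si : κ → κ → Prop) [DecidableRel sim] (hsim : Equivalence sim)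
    (hent : ∀ X ∈ 𝔪, ∀ k l s t, ent b X (l, t) (k, s) ≠ 0 → sim k l ∨ si k l)
    (htrans : ∀ {k l m}, si k l → si l m → si k m) (hss : ∀ {k l m}, si k l → sim l m → si k m)
    (hsi : ∀ {k l m}, sim k l → si l m → si k m) (hns : ∀ {k l}, si k l → ¬ sim k l) :
    ∃ z : κ → Fin 2 → W,
      (∀ X ∈ 𝔪, ∀ k s, X (z k s) = ∑ l with sim k l, ∑ t, ent b X (l, t) (k, s) • z l t) ∧
      (∀ S : Finset κ, (∀ k ∈ S, ∀ l, si k l → l ∈ S) → mon K z S = mon K (bz b) S) ∧
      (∀ k, LinearIndependent K (fun u : {l // sim k l} × Fin 2 => z u.1 u.2)) := by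
  classical
  have : FiniteDimensional K W := Module.Finite.of_basis b
  have key : ∀ P : Submodule K W, (∀ X ∈ 𝔪, ∀ x ∈ P, X x ∈ P) →
      ∃ π : W →ₗ[K] W, (∀ w, π w ∈ P) ∧ ∀ w, ∀ y ∈ P, Q (π w) y = Q w y :=
    fun P hP => shear_proj Q P (hnd P hP)
  choose! π hπ1 hπ2 using key
  set P : κ → Submodule K W := fun k => Submodule.span K (b '' {u | si k u.1}) with hPdef
  -- the subspaces are stable
  have hst : ∀ k, ∀ X ∈ 𝔪, ∀ x ∈ P k, X x ∈ P k := by
    intro k X hX x hx
    induction hx using Submodule.span_induction with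
    | mem x hx =>
      obtain ⟨⟨l, s⟩, hl, rfl⟩ := hx
      rw [shear_expand b X (l, s)]
      refine Submodule.sum_mem _ fun u _ => ?_
      obtain ⟨m, t⟩ := u
      by_cases h0 : ent b X (m, t) (l, s) = 0
      · rw [h0, zero_smul]; exact Submodule.zero_mem _
      · refine Submodule.smul_mem _ _ (Submodule.subset_span ⟨(m, t), ?_, rfl⟩)
        rcases hent X hX l m s t h0 with h | h
        · exact hss hl h
        · exact htrans hl h
    | zero => simp
    | add x y _ _ hx hy => rw [map_add]; exact Submodule.add_mem _ hx hy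
    | smul r x _ hx => rw [map_smul]; exact Submodule.smul_mem _ _ hx
  -- independence of the representative
  have hPsim : ∀ k l, sim k l → P k = P l := by
    intro k l hkl
    have : {u : κ × Fin 2 | si k u.1} = {u : κ × Fin 2 | si l u.1} := by
      ext u
      exact ⟨fun h => hsi (hsim.symm hkl) h, fun h => hsi hkl h⟩
    simp only [hPdef, this]
  have hfix : ∀ k, ∀ x ∈ P k, π (P k) x = x := by
    intro k x hx
    have h1 : π (P k) x - x ∈ P k := Submodule.sub_mem _ (hπ1 _ (hst k) x) hx
    have := hnd (P k) (hst k) _ h1 fun y hy => by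
      rw [map_sub, LinearMap.sub_apply, hπ2 _ (hst k) x y hy, sub_self]
    exact sub_eq_zero.mp this
  have hcomm : ∀ k, ∀ X ∈ 𝔪, ∀ w, X (π (P k) w) = π (P k) (X w) := by
    intro k X hX w
    have h1 : X (π (P k) w) - π (P k) (X w) ∈ P k :=
      Submodule.sub_mem _ (hst k X hX _ (hπ1 _ (hst k) w)) (hπ1 _ (hst k) _)
    have := hnd (P k) (hst k) _ h1 fun y hy => by
      rw [map_sub, LinearMap.sub_apply, hπ2 _ (hst k) _ y hy, hskew X hX,
        hπ2 _ (hst k) w _ (hst k X hX y hy), hskew X hX, sub_self]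
    exact sub_eq_zero.mp this
  set z : κ → Fin 2 → W := fun k s => b (k, s) - π (P k) (b (k, s)) with hz
  refine ⟨z, ?_, ?_, ?_⟩
  · intro X hX k s
    have e1 : X (z k s) = (∑ u, ent b X u (k, s) • (b u - π (P k) (b u))) := by
      simp only [hz]
      rw [map_sub, hcomm k X hX, shear_expand b X (k, s), map_sum, ← Finset.sum_sub_distrib]
      refine Finset.sum_congr rfl fun u _ => ?_
      rw [map_smul, smul_sub]
    rw [e1, Fintype.sum_prod_type, Finset.sum_filter]
    refine Finset.sum_congr rfl fun l _ => ?_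
    split_ifs with h
    · refine Finset.sum_congr rfl fun t _ => ?_
      simp only [hz]
      rw [hPsim k l h]
    · refine Finset.sum_eq_zero fun t _ => ?_
      by_cases h0 : ent b X (l, t) (k, s) = 0
      · rw [h0, zero_smul]
      · rcases hent X hX k l s t h0 with h' | h'
        · exact absurd h' h
        · rw [hfix k (b (l, t)) (Submodule.subset_span ⟨(l, t), h', rfl⟩), sub_self, smul_zero]
  · have hwf : WellFounded si := by
      have : IsTrans κ si := ⟨fun _ _ _ h h' => htrans h h'⟩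
      have : Std.Irrefl si := ⟨fun k h => hns h (hsim.refl k)⟩
      exact Finite.wellFounded_of_trans_of_irrefl si
    intro S
    induction S using Finset.strongInduction with
    | H S ih =>
      intro hS
      rcases S.eq_empty_or_nonempty with rfl | hne
      · simp
      obtain ⟨k, hkS, hmin⟩ := hwf.has_min (S : Set κ) hne
      have hcl : ∀ l ∈ S.erase k, ∀ m, si l m → m ∈ S.erase k := by
        intro l hl m hlm
        rw [Finset.mem_erase]
        refine ⟨?_, hS l (Finset.mem_of_mem_erase hl) m hlm⟩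
        rintro rfl
        exact hmin l (Finset.mem_of_mem_erase hl) hlm
      have hih := ih (S.erase k) (Finset.erase_ssubset hkS) hcl
      have hins : S = insert k (S.erase k) := (Finset.insert_erase hkS).symm
      rw [hins, mon_insert z (Finset.notMem_erase k S), mon_insert (bz b) (Finset.notMem_erase k S),
        hih]
      have hle : P k ≤ Submodule.span K {v | ∃ l ∈ S.erase k, ∃ s, v = bz b l s} := by
        refine Submodule.span_mono ?_
        rintro v ⟨⟨l, s⟩, hl, rfl⟩
        refine ⟨l, ?_, s, rfl⟩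
        rw [Finset.mem_erase]
        refine ⟨?_, hS k hkS l hl⟩
        rintro rfl
        exact hns hl (hsim.refl l)
      exact shear_replace (bz b) (S.erase k) _ _ _ _ (hle (hπ1 _ (hst k) _))
        (hle (hπ1 _ (hst k) _))
  · intro k
    set f : W →ₗ[K] W := LinearMap.id - π (P k) with hf
    have hfun : (fun u : {l // sim k l} × Fin 2 => z u.1 u.2) =
        f ∘ (fun u : {l // sim k l} × Fin 2 => b (u.1.1, u.2)) := by
      funext u
      simp only [hz, hf, Function.comp, LinearMap.sub_apply, LinearMap.id_apply]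
      rw [hPsim k u.1.1 u.1.2]
    rw [hfun]
    refine LinearIndependent.map ?_ ?_
    · refine b.linearIndependent.comp (fun u : {l // sim k l} × Fin 2 => ((u.1.1, u.2) : κ × Fin 2)) ?_
      rintro ⟨⟨l, hl⟩, s⟩ ⟨⟨m, hm⟩, t⟩ h
      simp only [Prod.mk.injEq] at h
      obtain ⟨rfl, rfl⟩ := h
      rfl
    · have hker : LinearMap.ker f ≤ P k := by
        intro w hw
        rw [LinearMap.mem_ker] at hw
        simp only [hf, LinearMap.sub_apply, LinearMap.id_apply] at hw
        rw [sub_eq_zero.mp hw]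
        exact hπ1 _ (hst k) w
      have hrange : Set.range (fun u : {l // sim k l} × Fin 2 => b (u.1.1, u.2)) ⊆
          b '' {u | sim k u.1} := by
        rintro _ ⟨u, rfl⟩
        exact ⟨(u.1.1, u.2), u.1.2, rfl⟩
      refine Disjoint.mono (Submodule.span_mono hrange) hker ?_
      refine b.linearIndependent.disjoint_span_image ?_
      rw [Set.disjoint_left]
      intro u hu hu'
      exact hns hu' hu

end Shear

end Pool.Agent.Work.MP_298761_T2
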