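import Pool.Agent.Work.MP_298761_T2.BaseDefs

/-!
# Block SYM
-/

namespace Pool.Agent.Work.MP_298761_T2

section Sym

variable {K : Type*} [Field K] [CharZero K] {Z : Type*} [CommRing Z] [Algebra K Z]
variable {κ : Type*} [Fintype κ] [DecidableEq κ]

/-- Powers of a sum of elements of square zero. -/
theorem SYM_pow (e : κ → Z) (he : ∀ k, e k * e k = 0) (C : Finset κ) (j : ℕ) :
    (∑ k ∈ C, e k) ^ j = (j.factorial : Z) * ∑ T ∈ C.powersetCard j, ∏ k ∈ T, e k := by
  induction C using Finset.induction_on generalizing j with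
  | empty =>
    cases j with
    | zero => simp
    | succ j =>
      rw [Finset.powersetCard_eq_empty.mpr (by simp)]
      simp
  | insert x C hx ih =>
    rw [Finset.sum_insert hx]
    have hpow : ∀ (s : Z) (j : ℕ), (e x + s) ^ (j + 1) = s ^ (j + 1) + (j + 1 : Z) * (e x * s ^ j) := by
      intro s j
      induction j with
      | zero => simp; ring
      | succ j ihj =>
        rw [pow_succ, ihj]
        have h0 := he x
        push_cast
        linear_combination ((j + 1 : Z) * s ^ j) * h0
    cases j with
    | zero => simp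
    | succ j =>
      rw [hpow, ih, ih, Finset.powersetCard_succ_insert hx, Finset.sum_union, Finset.sum_image]
      · have h1 : ∀ T ∈ C.powersetCard j, ∏ k ∈ insert x T, e k = e x * ∏ k ∈ T, e k := by
          intro T hT
          rw [Finset.prod_insert]
          exact fun h => hx ((Finset.mem_powersetCard.mp hT).1 h)
        rw [Finset.sum_congr rfl h1, ← Finset.mul_sum, Nat.factorial_succ]
        push_cast
        ring
      · intro T hT T' hT' h
        have h1 : x ∉ T := fun h => hx ((Finset.mem_powersetCard.mp hT).1 h)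
        have h2 : x ∉ T' := fun h => hx ((Finset.mem_powersetCard.mp hT').1 h)
        rw [← Finset.erase_insert h1, ← Finset.erase_insert h2, h]
      · rw [Finset.disjoint_left]
        intro T hT hT'
        obtain ⟨T', hT', rfl⟩ := Finset.mem_image.mp hT'
        exact hx ((Finset.mem_powersetCard.mp hT).1 (Finset.mem_insert_self x T'))

variable (r : Setoid κ) [DecidableRel r.r]

/-- The part of `S` in the class `q`. -/
def SYM_part (S : Finset κ) (q : Quotient r) : Finset κ := S.filter fun k => (⟦k⟧ : Quotient r) = q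

/-- The type of `S`. -/
def SYM_ty (S : Finset κ) : Quotient r → ℕ := fun q => (SYM_part r S q).card

theorem SYM_const (c : Finset κ → K)
    (hc : ∀ (k l : κ) (R : Finset κ), r.r k l → k ∉ R → l ∉ R → c (insert k R) = c (insert l R)) :
    ∀ (N : ℕ) (S S' : Finset κ), (S \ S').card = N → SYM_ty r S = SYM_ty r S' → c S = c S' := by
  intro N
  induction N with
  | zero =>
    intro S S' h0 hty
    have hsub : S ⊆ S' := Finset.sdiff_eq_empty_iff_subset.mp (Finset.card_eq_zero.mp h0)
    have : S = S' := by
      apply Finset.Subset.antisymm hsub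
      intro k hk
      have h1 : SYM_part r S ⟦k⟧ = SYM_part r S' ⟦k⟧ :=
        Finset.eq_of_subset_of_card_le (Finset.filter_subset_filter _ hsub)
          (le_of_eq (congrFun hty ⟦k⟧).symm)
      have h2 : k ∈ SYM_part r S' ⟦k⟧ := by simp [SYM_part, hk]
      rw [← h1] at h2
      exact (Finset.mem_filter.mp h2).1
    rw [this]
  | succ N ih =>
    intro S S' hN hty
    obtain ⟨i, hi⟩ : (S \ S').Nonempty := Finset.card_pos.mp (by omega)
    obtain ⟨hiS, hiS'⟩ := Finset.mem_sdiff.mp hi
    -- find j
    obtain ⟨j, hjS', hjS, hij⟩ : ∃ j, j ∈ S' ∧ j ∉ S ∧ r.r i j := by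
      by_contra hcon
      push_neg at hcon
      have hsub : SYM_part r S' ⟦i⟧ ⊆ (SYM_part r S ⟦i⟧).erase i := by
        intro j hj
        obtain ⟨hj1, hj2⟩ := Finset.mem_filter.mp hj
        have hij : r.r i j := r.symm (Quotient.exact hj2)
        have hjS : j ∈ S := by
          by_contra h
          exact hcon j hj1 h hij
        rw [Finset.mem_erase]
        refine ⟨?_, Finset.mem_filter.mpr ⟨hjS, hj2⟩⟩
        rintro rfl
        exact hiS' hj1
      have h1 := Finset.card_le_card hsub
      have hmem : i ∈ SYM_part r S ⟦i⟧ := by simp [SYM_part, hiS]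
      have h2 := Finset.card_erase_lt_of_mem hmem
      have h3 : (SYM_part r S ⟦i⟧).card = (SYM_part r S' ⟦i⟧).card := congrFun hty ⟦i⟧
      omega
    set S1 := insert j (S.erase i) with hS1
    have hjE : j ∉ S.erase i := fun h => hjS (Finset.mem_of_mem_erase h)
    have h1 : c S = c S1 := by
      have := hc i j (S.erase i) hij (Finset.notMem_erase i S) hjE
      rwa [Finset.insert_erase hiS] at this
    rw [h1]
    apply ih
    · have : S1 \ S' = (S \ S').erase i := by
        ext x
        simp only [hS1, Finset.mem_sdiff, Finset.mem_insert, Finset.mem_erase]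
        constructor
        · rintro ⟨h | h, hx⟩
          · exact absurd (h ▸ hjS') hx
          · exact ⟨h.1, h.2, hx⟩
        · rintro ⟨h1, h2, h3⟩
          exact ⟨Or.inr ⟨h1, h2⟩, h3⟩
      rw [this, Finset.card_erase_of_mem hi, hN]
      rfl
    · rw [← hty]
      funext q
      have hqij : (⟦i⟧ : Quotient r) = ⟦j⟧ := Quotient.sound hij
      by_cases hq : (⟦i⟧ : Quotient r) = q
      · have e1 : SYM_part r S1 q = insert j ((SYM_part r S q).erase i) := by
          ext x
          simp only [SYM_part, hS1, Finset.mem_filter, Finset.mem_insert, Finset.mem_erase]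
          constructor
          · rintro ⟨h | h, hx⟩
            · exact Or.inl h
            · exact Or.inr ⟨h.1, h.2, hx⟩
          · rintro (h | h)
            · subst h
              exact ⟨Or.inl rfl, by rw [← hqij]; exact hq⟩
            · exact ⟨Or.inr ⟨h.1, h.2.1⟩, h.2.2⟩
        have hmem : i ∈ SYM_part r S q := Finset.mem_filter.mpr ⟨hiS, hq⟩
        have hnm : j ∉ (SYM_part r S q).erase i := fun h =>
          hjS (Finset.mem_filter.mp (Finset.mem_of_mem_erase h)).1
        simp only [SYM_ty]
        rw [e1, Finset.card_insert_of_notMem hnm, Finset.card_erase_of_mem hmem]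
        have := Finset.card_pos.mpr ⟨i, hmem⟩
        omega
      · have e1 : SYM_part r S1 q = SYM_part r S q := by
          ext x
          simp only [SYM_part, hS1, Finset.mem_filter, Finset.mem_insert, Finset.mem_erase]
          constructor
          · rintro ⟨h | h, hx⟩
            · subst h
              exact absurd (hqij.trans hx) hq
            · exact ⟨h.2, hx⟩
          · rintro ⟨h, hx⟩
            refine ⟨Or.inr ⟨?_, h⟩, hx⟩
            rintro rfl
            exact hq hx
        simp only [SYM_ty]
        rw [e1]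

theorem SYM_fac (e : κ → Z) (τ : Quotient r → ℕ) :
    ∑ S with SYM_ty r S = τ, ∏ k ∈ S, e k =
      ∏ q : Quotient r, ∑ T ∈ (SYM_part r Finset.univ q).powersetCard (τ q), ∏ k ∈ T, e k := by
  rw [Finset.prod_univ_sum]
  refine Finset.sum_bij' (fun S _ q => SYM_part r S q)
    (fun p _ => Finset.univ.filter fun k => k ∈ p ⟦k⟧) ?_ ?_ ?_ ?_ ?_
  · intro S hS
    rw [Fintype.mem_piFinset]
    intro q
    rw [Finset.mem_powersetCard]
    exact ⟨Finset.filter_subset_filter _ (Finset.subset_univ _),
      congrFun (Finset.mem_filter.mp hS).2 q⟩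
  · intro p hp
    rw [Fintype.mem_piFinset] at hp
    rw [Finset.mem_filter]
    refine ⟨Finset.mem_univ _, ?_⟩
    funext q
    have hq := Finset.mem_powersetCard.mp (hp q)
    have : SYM_part r (Finset.univ.filter fun k => k ∈ p ⟦k⟧) q = p q := by
      ext k
      simp only [SYM_part, Finset.mem_filter, Finset.mem_univ, true_and]
      constructor
      · rintro ⟨h1, rfl⟩; exact h1
      · intro h
        have := (Finset.mem_filter.mp (hq.1 h)).2
        exact ⟨by rw [this]; exact h, this⟩
    simp only [SYM_ty, this]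
    exact hq.2
  · intro S hS
    ext k
    simp [SYM_part]
  · intro p hp
    rw [Fintype.mem_piFinset] at hp
    funext q
    have hq := Finset.mem_powersetCard.mp (hp q)
    ext k
    simp only [SYM_part, Finset.mem_filter, Finset.mem_univ, true_and]
    constructor
    · rintro ⟨h1, rfl⟩; exact h1
    · intro h
      have := (Finset.mem_filter.mp (hq.1 h)).2
      exact ⟨by rw [this]; exact h, this⟩
  · intro S hS
    simp only [SYM_part]
    exact (Finset.prod_fiberwise S (fun k => (⟦k⟧ : Quotient r)) e).symm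

theorem sym_mem (e : κ → Z) (he : ∀ k, e k * e k = 0)
    (c : Finset κ → K)
    (hc : ∀ (k l : κ) (R : Finset κ), r.r k l → k ∉ R → l ∉ R → c (insert k R) = c (insert l R))
    (A : Subalgebra K Z)
    (hA : ∀ k, (∑ l with r.r k l, e l) ∈ A ∨ ((∏ l with r.r k l, e l) ∈ A ∧
      ∀ S, c S ≠ 0 → ∀ l m, r.r k l → r.r k m → l ∈ S → m ∈ S)) :
    ∑ S, c S • ∏ k ∈ S, e k ∈ A := by
  classical
  have h1 : ∑ S : Finset κ, c S • ∏ k ∈ S, e k =
      ∑ τ ∈ Finset.univ.image (SYM_ty r), ∑ S with SYM_ty r S = τ, c S • ∏ k ∈ S, e k :=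
    (Finset.sum_fiberwise_of_maps_to (fun S _ => Finset.mem_image_of_mem _ (Finset.mem_univ S))
      (fun S => c S • ∏ k ∈ S, e k)).symm
  rw [h1]
  refine Subalgebra.sum_mem _ fun τ hτ => ?_
  obtain ⟨S₀, -, hS₀⟩ := Finset.mem_image.mp hτ
  have h2 : ∑ S with SYM_ty r S = τ, c S • ∏ k ∈ S, e k =
      c S₀ • ∑ S with SYM_ty r S = τ, ∏ k ∈ S, e k := by
    rw [Finset.smul_sum]
    refine Finset.sum_congr rfl fun S hS => ?_
    rw [SYM_const r c hc _ S S₀ rfl ((Finset.mem_filter.mp hS).2.trans hS₀.symm)]
  rw [h2]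
  by_cases hc0 : c S₀ = 0
  · rw [hc0, zero_smul]; exact Subalgebra.zero_mem _
  refine Subalgebra.smul_mem _ ?_ _
  rw [SYM_fac]
  refine Subalgebra.prod_mem _ fun q _ => ?_
  obtain ⟨k, rfl⟩ := Quotient.exists_rep q
  have hpart : SYM_part r Finset.univ ⟦k⟧ = Finset.univ.filter fun l => r.r k l := by
    ext l
    simp only [SYM_part, Finset.mem_filter, Finset.mem_univ, true_and]
    exact ⟨fun h => r.symm (Quotient.exact h), fun h => Quotient.sound (r.symm h)⟩
  rw [hpart]
  rcases hA k with hs | ⟨hp, hall⟩
  · have h3 := SYM_pow e he (Finset.univ.filter fun l => r.r k l) (τ ⟦k⟧)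
    have h4 : ∑ T ∈ (Finset.univ.filter fun l => r.r k l).powersetCard (τ ⟦k⟧), ∏ k ∈ T, e k =
        ((((τ ⟦k⟧).factorial : K))⁻¹) • (∑ l with r.r k l, e l) ^ (τ ⟦k⟧) := by
      rw [h3, ← map_natCast (algebraMap K Z), ← Algebra.smul_def, smul_smul,
        inv_mul_cancel₀ (by exact_mod_cast Nat.factorial_ne_zero _), one_smul]
    rw [h4]
    exact Subalgebra.smul_mem _ (Subalgebra.pow_mem _ hs _) _
  · -- bundle
    have hτk : τ ⟦k⟧ = (SYM_part r S₀ ⟦k⟧).card := by rw [← hS₀]; rfl
    by_cases hne : (SYM_part r S₀ ⟦k⟧).Nonempty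
    · obtain ⟨l, hl⟩ := hne
      obtain ⟨hlS, hlk⟩ := Finset.mem_filter.mp hl
      have hkl : r.r k l := r.symm (Quotient.exact hlk)
      have hfull : SYM_part r S₀ ⟦k⟧ = Finset.univ.filter fun l => r.r k l := by
        ext m
        simp only [SYM_part, Finset.mem_filter, Finset.mem_univ, true_and]
        constructor
        · rintro ⟨-, h⟩; exact r.symm (Quotient.exact h)
        · intro h
          exact ⟨hall S₀ hc0 l m hkl h hlS, Quotient.sound (r.symm h)⟩
      rw [hτk, hfull, Finset.powersetCard_self]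
      simpa using hp
    · rw [Finset.not_nonempty_iff_eq_empty] at hne
      rw [hτk, hne]
      simp

end Sym

end Pool.Agent.Work.MP_298761_T2
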