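import Pool.Agent.Work.MP_298761_T2.REL
import Pool.Agent.Work.MP_298761_T2.COMB
import Pool.Agent.Work.MP_298761_T2.SYM78
import Pool.Agent.Work.MP_298761_T2.SHEAR
import Pool.Agent.Work.MP_298761_T2.INV12
import Pool.Agent.Work.MP_298761_T2.BUNDLE

/-!
# The core theorem
-/

namespace Pool.Agent.Work.MP_298761_T2

open ExteriorAlgebra Module

section Core

variable {K : Type*} [Field K] [CharZero K] {W : Type*} [AddCommGroup W] [Module K W]
variable {κ : Type*} [Fintype κ] [DecidableEq κ]

theorem sg_ne_zero (s : Fin 2) : sg K s ≠ 0 := by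
  fin_cases s <;> simp [sg]

theorem sg_rev (s : Fin 2) : sg K s.rev = - sg K s := by
  fin_cases s
  · simp [sg, Fin.rev]
  · simp [sg, Fin.rev]

/-- Off-diagonal entries give similarity or strict implication. -/
theorem core_hent (b : Basis (κ × Fin 2) K W) (X : W →ₗ[K] W) (p : ℕ) (c : Finset κ → K)
    (hc : ∀ S, c S ≠ 0 → S.card = p) (hX : der X (∑ S, c S • mon K (bz b) S) = 0)
    (k l : κ) (s t : Fin 2) (h : ent b X (l, t) (k, s) ≠ 0) : Sim c k l ∨ SI c k l := by
  classical
  by_cases hkl : k = l
  · exact Or.inl (Or.inl hkl)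
  have key : ∀ R : Finset κ, k ∉ R → l ∉ R →
      c (insert k R) * (sg K s.rev * ent b X (l, t) (k, s)) =
        c (insert l R) * (sg K t * ent b X (k, s.rev) (l, t.rev)) := by
    intro R hk hl
    have := rel b X p c hc hX hkl hk hl s.rev t
    rwa [Fin.rev_rev] at this
  set α := sg K s.rev * ent b X (l, t) (k, s) with hα
  set β := sg K t * ent b X (k, s.rev) (l, t.rev) with hβ
  have hα0 : α ≠ 0 := mul_ne_zero (sg_ne_zero _) h
  by_cases hβ0 : β = 0
  · have hImp : Imp c k l := by
      intro S hS hkS
      by_contra hlS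
      have h1 := key (S.erase k) (Finset.notMem_erase k S) (fun h => hlS (Finset.mem_of_mem_erase h))
      rw [Finset.insert_erase hkS, hβ0, mul_zero] at h1
      rcases mul_eq_zero.mp h1 with h2 | h2
      · exact hS h2
      · exact hα0 h2
    by_cases hs : Sim c k l
    · exact Or.inl hs
    · exact Or.inr ⟨hImp, hs⟩
  · left
    right
    refine ⟨β / α, div_ne_zero hβ0 hα0, fun R hk hl => ?_⟩
    have := key R hk hl
    field_simp
    linear_combination this

theorem core (b : Basis (κ × Fin 2) K W) (Q : W →ₗ[K] W →ₗ[K] K) (halt : ∀ x, Q x x = 0)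
    (𝔪 : Set (W →ₗ[K] W)) (hskew : ∀ X ∈ 𝔪, ∀ x y, Q (X x) y = - Q x (X y))
    (hnd : ∀ P : Submodule K W, (∀ X ∈ 𝔪, ∀ x ∈ P, X x ∈ P) → ∀ x ∈ P, (∀ y ∈ P, Q x y = 0) → x = 0)
    (p : ℕ) (c : Finset κ → K) (hc : ∀ S, c S ≠ 0 → S.card = p)
    (hω : ∀ X ∈ 𝔪, der X (∑ S, c S • mon K (bz b) S) = 0) :
    ∑ S, c S • mon K (bz b) S ∈
      Algebra.adjoin K {η : ExteriorAlgebra K W | η ∈ ⋀[K]^2 W ∧ ∀ X ∈ 𝔪, der X η = 0} := by
  classical
  have heq := sim_equivalence c
  obtain ⟨z, hz1, hz2, hz3⟩ := shear b Q 𝔪 hskew hnd (Sim c) (SI c) heq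
    (fun X hX k l s t h => core_hent b X p c hc (hω X hX) k l s t h)
    (fun h h' => SI.trans h h') (fun h h' => SI.sim h h') (fun h h' => Sim.si h h')
    (fun h => h.2)
  obtain ⟨μ, hμ0, hμ⟩ := exists_scale c
  set Z := Subalgebra.center K (ExteriorAlgebra K W) with hZ
  set 𝒜 := Algebra.adjoin K {η : ExteriorAlgebra K W | η ∈ ⋀[K]^2 W ∧ ∀ X ∈ 𝔪, der X η = 0} with h𝒜
  let e : κ → Z := fun k => μ k • pl (K := K) z k
  let c' : Finset κ → K := fun S => c S / ∏ k ∈ S, μ k
  have hprod0 : ∀ S : Finset κ, ∏ k ∈ S, μ k ≠ 0 := fun S => Finset.prod_ne_zero_iff.mpr fun k _ => hμ0 k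
  have hc'0 : ∀ S, c' S ≠ 0 → c S ≠ 0 := by
    intro S h h0
    exact h (by simp [c', h0])
  have he_prod : ∀ S : Finset κ, ∏ k ∈ S, e k = (∏ k ∈ S, μ k) • ∏ k ∈ S, pl (K := K) z k := by
    intro S
    simp only [e, Finset.prod_smul]
  have hsum : ∑ S, c S • mon K (bz b) S = ((∑ S, c' S • ∏ k ∈ S, e k : Z) : ExteriorAlgebra K W) := by
    rw [AddSubmonoidClass.coe_finsetSum]
    refine Finset.sum_congr rfl fun S _ => ?_
    by_cases hS : c S = 0
    · simp [c', hS]
    · have h1 : mon K z S = mon K (bz b) S :=
        hz2 S (fun k hk l hl => hl.1 S hS hk)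
      rw [← h1, he_prod, smul_smul]
      simp only [c', div_mul_cancel₀ _ (hprod0 S)]
      rfl
  rw [hsum]
  let r : Setoid κ := ⟨Sim c, heq⟩
  have hfil : ∀ k l : κ, Sim c k l → Finset.univ.filter (fun m => Sim c k m) =
      Finset.univ.filter (fun m => Sim c l m) := by
    intro k l h
    ext m
    simp only [Finset.mem_filter, Finset.mem_univ, true_and]
    exact ⟨fun h' => heq.trans (heq.symm h) h', fun h' => heq.trans h h'⟩
  have hsymm := sym_mem r e (by
      intro k
      have h0 : pl (K := K) z k * pl (K := K) z k = 0 := by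
        apply Subtype.ext
        simp only [pl, MulMemClass.mk_mul_mk, ZeroMemClass.coe_zero]
        rw [mul_assoc, ← mul_assoc (ι K (z k 1)), ι_mul_ι_comm (z k 1) (z k 0), neg_mul,
          mul_assoc (ι K (z k 0)) (ι K (z k 1)), ι_sq_zero]
        simp
      simp only [e, smul_mul_smul_comm, h0, smul_zero]) c' (by
      intro k l R hkl hk hl
      have h1 := hμ k l R hkl hk hl
      simp only [c']
      rw [Finset.prod_insert hk, Finset.prod_insert hl]
      rw [div_eq_div_iff (mul_ne_zero (hμ0 k) (hprod0 R)) (mul_ne_zero (hμ0 l) (hprod0 R))]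
      linear_combination (∏ k ∈ R, μ k) * h1) (𝒜.comap Z.val) (by
      intro k
      set T : Finset κ := Finset.univ.filter (fun m => Sim c k m) with hT
      have hkT : k ∈ T := by simp [hT, heq.refl k]
      have hTmem : ∀ l, l ∈ T ↔ Sim c k l := fun l => by simp [hT]
      -- action on the planes of the class
      have hXT : ∀ X ∈ 𝔪, ∀ k' ∈ T, ∀ s, X (z k' s) =
          ∑ l ∈ T, ∑ t, ent b X (l, t) (k', s) • z l t := by
        intro X hX k' hk' s
        rw [hz1 X hX k' s, hT, hfil k k' ((hTmem k').mp hk')]
      have hli : LinearIndependent K (fun u : T × Fin 2 => z u.1 u.2) := by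
        have h1 := hz3 k
        let eqv : (T × Fin 2) ≃ ({l // Sim c k l} × Fin 2) :=
          (Equiv.subtypeEquivRight hTmem).prodCongr (Equiv.refl _)
        have h2 := (linearIndependent_equiv eqv (f := fun u : {l // Sim c k l} × Fin 2 =>
          z u.1 u.2)).mpr h1
        exact h2
      have hstable : ∀ X ∈ 𝔪, ∀ x ∈ plspan K z T, X x ∈ plspan K z T := by
        intro X hX x hx
        unfold plspan at hx
        induction hx using Submodule.span_induction with
        | mem x hx =>
          obtain ⟨k', hk', s, rfl⟩ := hx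
          rw [hXT X hX k' hk' s]
          refine Submodule.sum_mem _ fun l hl => Submodule.sum_mem _ fun t _ =>
            Submodule.smul_mem _ _ (Submodule.subset_span ⟨l, hl, t, rfl⟩)
        | zero => simp
        | add x y _ _ hx hy => rw [map_add]; exact Submodule.add_mem _ hx hy
        | smul a x _ hx => rw [map_smul]; exact Submodule.smul_mem _ _ hx
      have hndT := hnd (plspan K z T) hstable
      rcases dichotomy c k with hb | hs
      · -- bundle
        right
        constructor
        · obtain ⟨E, hE2, hE, a, ha⟩ := bundle z T hli Q halt hndT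
          have hEmem : E ∈ 𝒜 := Algebra.subset_adjoin
            ⟨hE2, fun X hX => hE X (hstable X hX) (hskew X hX)⟩
          change ((∏ l with Sim c k l, e l : Z) : ExteriorAlgebra K W) ∈ 𝒜
          rw [he_prod]
          have : (((∏ l ∈ T, μ l) • ∏ l ∈ T, pl (K := K) z l : Z) : ExteriorAlgebra K W) =
              (∏ l ∈ T, μ l) • mon K z T := rfl
          rw [this, ha]
          exact Subalgebra.smul_mem _ (Subalgebra.smul_mem _ (Subalgebra.pow_mem _ hEmem _) _) _
        · intro S hS l m hl hm hlS
          exact hb l m hl hm S (hc'0 S hS) hlS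
      · -- separated class
        left
        change ((∑ l with Sim c k l, e l : Z) : ExteriorAlgebra K W) ∈ 𝒜
        have hcoe : ((∑ l ∈ T, e l : Z) : ExteriorAlgebra K W) =
            ∑ l ∈ T, μ l • (pl (K := K) z l : ExteriorAlgebra K W) := by
          rw [AddSubmonoidClass.coe_finsetSum]
          rfl
        rw [hcoe]
        apply Algebra.subset_adjoin
        have hmem1 : ∀ v : W, ι K v ∈ ⋀[K]^1 W := fun v => by
          simpa only [pow_one] using LinearMap.mem_range_self (ι K) v
        refine ⟨Submodule.sum_mem _ fun l _ => Submodule.smul_mem _ _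
          (SetLike.GradedMul.mul_mem (A := fun i : ℕ => ⋀[K]^i W) (hmem1 _) (hmem1 _)), ?_⟩
        intro X hX
        -- the traces are equal
        let tr : κ → K := fun l => ent b X (l, 0) (l, 0) + ent b X (l, 1) (l, 1)
        have htr_eq : ∀ l ∈ T, ∀ m ∈ T, tr l = tr m := by
          intro l hl m hm
          by_cases hlm : l = m
          · rw [hlm]
          obtain ⟨R, hlR, hmR, hcl, hcm⟩ := hs l m ((hTmem l).mp hl) ((hTmem m).mp hm) hlm
          have h1 := rel_diag b X p c hc (hω X hX) (insert l R)
          have h2 := rel_diag b X p c hc (hω X hX) (insert m R)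
          have h1' := (mul_eq_zero.mp h1).resolve_left hcl
          have h2' := (mul_eq_zero.mp h2).resolve_left hcm
          rw [Finset.sum_insert hlR] at h1'
          rw [Finset.sum_insert hmR] at h2'
          simp only [tr]
          linear_combination h1' - h2'
        have htr_sum : ∑ l ∈ T, tr l = 0 :=
          trace_zero z T hli Q hndT X (fun u v => ent b X u v) (hXT X hX) (hskew X hX)
        have htr0 : ∀ l ∈ T, tr l = 0 := by
          intro l hl
          have h1 : ∑ m ∈ T, tr m = T.card • tr l := by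
            rw [← Finset.sum_const]
            exact Finset.sum_congr rfl fun m hm => htr_eq m hm l hl
          rw [h1] at htr_sum
          have hne : (T.card : K) ≠ 0 := by
            exact_mod_cast (Finset.card_ne_zero_of_mem hkT)
          rw [nsmul_eq_mul] at htr_sum
          exact (mul_eq_zero.mp htr_sum).resolve_left hne
        refine der_sum_pl z T X (fun u v => ent b X u v) (hXT X hX) μ ?_
        intro k1 hk1 l1 hl1 s t
        by_cases hkl : k1 = l1
        · subst hkl
          have h0 := htr0 k1 hk1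
          simp only [tr] at h0
          congr 1
          fin_cases s <;> fin_cases t
          · rfl
          · simp only [sg, Fin.rev]
            simp
            linear_combination h0
          · simp only [sg, Fin.rev]
            simp
            linear_combination (-1 : K) * h0
          · rfl
        · obtain ⟨R, hkR, hlR, hck, hcl⟩ := hs k1 l1 ((hTmem k1).mp hk1) ((hTmem l1).mp hl1) hkl
          have h1 := rel b X p c hc (hω X hX) hkl hkR hlR s t
          have h2 := hμ k1 l1 R (heq.trans (heq.symm ((hTmem k1).mp hk1)) ((hTmem l1).mp hl1)) hkR hlR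
          have h3 : c (insert l1 R) * (μ k1 * (sg K s * ent b X (l1, t) (k1, s.rev))) =
              c (insert l1 R) * (μ l1 * (sg K t * ent b X (k1, s) (l1, t.rev))) := by
            linear_combination μ l1 * h1 - (sg K s * ent b X (l1, t) (k1, s.rev)) * h2
          exact mul_left_cancel₀ hcl h3)
  exact hsymm

end Core

end Pool.Agent.Work.MP_298761_T2
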