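import Pool.Agent.Work.MP_298761_T2.BaseDefs

/-!
# Block DESC1 of theorem T2 (rational and real exterior algebras)
-/

namespace Pool.Agent.Work.MP_298761_T2

open ExteriorAlgebra Module

section Desc

variable {n : Type} [Fintype n] [DecidableEq n]

theorem DESC_incl_apply (v : n → ℚ) (i : n) : incl n v i = (v i : ℝ) := by
  simp [incl]

theorem DESC_toReal_ι (v : n → ℚ) : toReal n (ι ℚ v) = ι ℝ (incl n v) := by
  simp [toReal]

theorem DESC_algebraMap (r : ℚ) : algebraMap ℚ (ExteriorAlgebra ℝ (n → ℝ)) r =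
    algebraMap ℝ (ExteriorAlgebra ℝ (n → ℝ)) (r : ℝ) := by
  rw [IsScalarTower.algebraMap_apply ℚ ℝ (ExteriorAlgebra ℝ (n → ℝ))]
  simp

theorem DESC_toReal_algebraMap (r : ℚ) : toReal n (algebraMap ℚ _ r) =
    algebraMap ℝ (ExteriorAlgebra ℝ (n → ℝ)) (r : ℝ) := by
  rw [AlgHom.commutes, DESC_algebraMap]

theorem DESC_ratsmul (r : ℚ) (x : n → ℝ) : r • x = (r : ℝ) • x := by
  ext i
  simp [Rat.smul_def]

theorem DESC_ratsmul' (r : ℚ) (x : ExteriorAlgebra ℝ (n → ℝ)) : r • x = (r : ℝ) • x := by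
  rw [Algebra.smul_def, DESC_algebraMap, ← Algebra.smul_def]

theorem ext_incl (X : (n → ℚ) →ₗ[ℚ] (n → ℚ)) (v : n → ℚ) : ext X (incl n v) = incl n (X v) := by
  funext i
  have h : X v = (LinearMap.toMatrix' X).mulVec v := by
    rw [← Matrix.toLin'_apply, Matrix.toLin'_toMatrix']
  rw [DESC_incl_apply, h, ext, Matrix.toLin'_apply]
  simp only [Matrix.mulVec, dotProduct, Matrix.map_apply, DESC_incl_apply]
  push_cast
  rfl

theorem der_ext_toReal (X : (n → ℚ) →ₗ[ℚ] (n → ℚ)) (a : ExteriorAlgebra ℚ (n → ℚ)) :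
    der (ext X) (toReal n a) = toReal n (der X a) := by
  induction a using ExteriorAlgebra.induction with
  | algebraMap r => rw [DESC_toReal_algebraMap, der_algebraMap, der_algebraMap, map_zero]
  | ι x => rw [DESC_toReal_ι, der_ι, der_ι, DESC_toReal_ι, ext_incl]
  | mul a b ha hb => rw [map_mul, der_mul, der_mul, ha, hb, map_add, map_mul, map_mul]
  | add a b ha hb => rw [map_add, map_add, map_add, ha, hb, map_add]

theorem toReal_mem (d : ℕ) (a : ExteriorAlgebra ℚ (n → ℚ)) (ha : a ∈ ⋀[ℚ]^d (n → ℚ)) :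
    toReal n a ∈ ⋀[ℝ]^d (n → ℝ) := by
  have key : ∀ (d : ℕ) (a : ExteriorAlgebra ℚ (n → ℚ))
      (ha : a ∈ (LinearMap.range (ι ℚ : (n → ℚ) →ₗ[ℚ] ExteriorAlgebra ℚ (n → ℚ))) ^ d),
      toReal n a ∈ (LinearMap.range (ι ℝ : (n → ℝ) →ₗ[ℝ] ExteriorAlgebra ℝ (n → ℝ))) ^ d := by
    intro d a ha
    induction ha using Submodule.pow_induction_on_left' with
    | algebraMap r =>
      rw [DESC_toReal_algebraMap, pow_zero]
      exact Submodule.algebraMap_mem _
    | add x y i hx hy ihx ihy =>
      rw [map_add]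
      exact Submodule.add_mem _ ihx ihy
    | mem_mul m hm i x hx ih =>
      obtain ⟨v, rfl⟩ := hm
      rw [map_mul, DESC_toReal_ι, pow_succ']
      exact Submodule.mul_mem_mul ⟨_, rfl⟩ ih
  exact key d a ha

/-- Components of a real endomorphism over `ℚ`. -/
theorem exists_components (J : (n → ℝ) →ₗ[ℝ] (n → ℝ)) :
    ∃ (m : ℕ) (h : Fin m → ℝ) (X : Fin m → ((n → ℚ) →ₗ[ℚ] (n → ℚ))),
      LinearIndependent ℚ h ∧ J = ∑ k, h k • ext (X k) := by
  classical
  let S : Set ℝ := Set.range fun p : n × n => LinearMap.toMatrix' J p.1 p.2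
  have hfin : S.Finite := Set.finite_range _
  have : FiniteDimensional ℚ (Submodule.span ℚ S) := FiniteDimensional.span_of_finite ℚ hfin
  let B := Module.finBasis ℚ (Submodule.span ℚ S)
  have hmem : ∀ i j, LinearMap.toMatrix' J i j ∈ Submodule.span ℚ S := fun i j =>
    Submodule.subset_span ⟨(i, j), rfl⟩
  refine ⟨_, fun k => (B k : ℝ), fun k => Matrix.toLin' (Matrix.of fun i j =>
    B.repr ⟨_, hmem i j⟩ k), ?_, ?_⟩
  · exact B.linearIndependent.map' (Submodule.subtype _) (Submodule.ker_subtype _)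
  · apply LinearMap.toMatrix'.injective
    ext i j
    have h1 := congrArg (Submodule.subtype _) (B.sum_repr ⟨_, hmem i j⟩)
    simp only [map_sum, map_smul, Submodule.subtype_apply] at h1
    rw [map_sum]
    simp only [map_smul, ext, LinearMap.toMatrix'_toLin', Matrix.sum_apply, Matrix.smul_apply,
      Matrix.map_apply, Matrix.of_apply, smul_eq_mul]
    refine h1.symm.trans (Finset.sum_congr rfl fun k _ => ?_)
    rw [Rat.smul_def, mul_comm]

/-- Base change commutes with contraction. -/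
theorem DESC_contractLeft (d : Module.Dual ℚ (n → ℚ)) (d' : Module.Dual ℝ (n → ℝ))
    (h : ∀ v, d' (incl n v) = (d v : ℝ)) (a : ExteriorAlgebra ℚ (n → ℚ)) :
    CliffordAlgebra.contractLeft (Q := (0 : QuadraticForm ℝ (n → ℝ))) d' (toReal n a) =
      toReal n (CliffordAlgebra.contractLeft (Q := (0 : QuadraticForm ℚ (n → ℚ))) d a) := by
  induction a using CliffordAlgebra.left_induction with
  | algebraMap r =>
    have e1 : toReal n (algebraMap ℚ (CliffordAlgebra (0 : QuadraticForm ℚ (n → ℚ))) r) =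
        algebraMap ℝ (CliffordAlgebra (0 : QuadraticForm ℝ (n → ℝ))) (r : ℝ) :=
      DESC_toReal_algebraMap r
    rw [e1, CliffordAlgebra.contractLeft_algebraMap, CliffordAlgebra.contractLeft_algebraMap,
      map_zero]
  | add x y hx hy => rw [map_add, map_add, hx, hy, map_add, map_add]
  | ι_mul x m hx =>
    rw [CliffordAlgebra.contractLeft_ι_mul]
    have h1 : toReal n (CliffordAlgebra.ι (0 : QuadraticForm ℚ (n → ℚ)) m * x) =
        CliffordAlgebra.ι (0 : QuadraticForm ℝ (n → ℝ)) (incl n m) * toReal n x := by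
      rw [map_mul]
      congr 1
      exact DESC_toReal_ι m
    have h2 : ∀ y, toReal n (CliffordAlgebra.ι (0 : QuadraticForm ℚ (n → ℚ)) m * y) =
        CliffordAlgebra.ι (0 : QuadraticForm ℝ (n → ℝ)) (incl n m) * toReal n y := by
      intro y
      rw [map_mul]
      congr 1
      exact DESC_toReal_ι m
    rw [h1, CliffordAlgebra.contractLeft_ι_mul, hx, map_sub, h2, map_smul, h, DESC_ratsmul']

theorem DESC_algebraMapInv (a : ExteriorAlgebra ℚ (n → ℚ)) :
    algebraMapInv (toReal n a) = ((algebraMapInv a : ℚ) : ℝ) := by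
  induction a using ExteriorAlgebra.induction with
  | algebraMap r => rw [DESC_toReal_algebraMap, algebraMap_leftInverse, algebraMap_leftInverse]
  | ι x =>
    rw [DESC_toReal_ι]
    simp [algebraMapInv]
  | mul a b ha hb => rw [map_mul, map_mul, map_mul, ha, hb, Rat.cast_mul]
  | add a b ha hb => rw [map_add, map_add, map_add, ha, hb, Rat.cast_add]

theorem DESC_ιInv_mul {R M : Type*} [CommRing R] [AddCommGroup M] [Module R M]
    (a b : ExteriorAlgebra R M) :
    ιInv (a * b) = algebraMapInv a • ιInv b + algebraMapInv b • ιInv a := by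
  let : Module Rᵐᵒᵖ M := Module.compHom _ ((RingHom.id R).fromOpposite mul_comm)
  have : IsCentralScalar R M := ⟨fun r m => rfl⟩
  have hfst : ∀ a : ExteriorAlgebra R M, (toTrivSqZeroExt a).fst = algebraMapInv a := by
    intro a
    induction a using ExteriorAlgebra.induction with
    | algebraMap r => rw [algebraMap_leftInverse, AlgHom.commutes]; rfl
    | ι x => simp [algebraMapInv]
    | mul a b ha hb => simp [ha, hb]
    | add a b ha hb => simp [ha, hb]
  have h : ∀ a : ExteriorAlgebra R M, ιInv a = (toTrivSqZeroExt a).snd := fun a => rfl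
  rw [h, h, h, map_mul, TrivSqZeroExt.snd_mul, hfst, hfst, op_smul_eq_smul]

theorem DESC_ιInv (a : ExteriorAlgebra ℚ (n → ℚ)) :
    ιInv (toReal n a) = incl n (ιInv a) := by
  have hAM : ∀ {R : Type} [CommRing R] {M : Type} [AddCommGroup M] [Module R M] (r : R),
      ιInv (algebraMap R (ExteriorAlgebra R M) r) = 0 := by
    intro R _ M _ _ r
    let : Module Rᵐᵒᵖ M := Module.compHom _ ((RingHom.id R).fromOpposite mul_comm)
    have : IsCentralScalar R M := ⟨fun r m => rfl⟩
    have h : ∀ a : ExteriorAlgebra R M, ιInv a = (toTrivSqZeroExt a).snd := fun a => rfl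
    rw [h, AlgHom.commutes]
    rfl
  induction a using ExteriorAlgebra.induction with
  | algebraMap r => rw [DESC_toReal_algebraMap, hAM, hAM, map_zero]
  | ι x => rw [DESC_toReal_ι, ι_leftInverse, ι_leftInverse]
  | mul a b ha hb =>
    rw [map_mul, DESC_ιInv_mul, DESC_ιInv_mul, ha, hb, DESC_algebraMapInv, DESC_algebraMapInv,
      map_add, map_smul, map_smul, DESC_ratsmul, DESC_ratsmul]
  | add a b ha hb => rw [map_add, map_add, map_add, ha, hb, map_add]

/-- Contraction and base change. -/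
theorem endo_toReal (Q : Matrix n n ℚ) (D : ExteriorAlgebra ℚ (n → ℚ)) (x : n → ℚ) :
    endo (Matrix.toBilin' (Q.map (fun q : ℚ => (q : ℝ)))) (toReal n D) (incl n x) =
      incl n (endo (Matrix.toBilin' Q) D x) := by
  have h1 : endo (Matrix.toBilin' (Q.map (fun q : ℚ => (q : ℝ)))) (toReal n D) (incl n x) =
      ιInv (CliffordAlgebra.contractLeft (Q := (0 : QuadraticForm ℝ (n → ℝ)))
        (Matrix.toBilin' (Q.map (fun q : ℚ => (q : ℝ))) (incl n x)) (toReal n D)) := rfl
  have h2 : endo (Matrix.toBilin' Q) D x =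
      ιInv (CliffordAlgebra.contractLeft (Q := (0 : QuadraticForm ℚ (n → ℚ)))
        (Matrix.toBilin' Q x) D) := rfl
  rw [h1, h2, DESC_contractLeft (Matrix.toBilin' Q x), DESC_ιInv]
  intro v
  rw [Matrix.toBilin'_apply, Matrix.toBilin'_apply]
  simp only [DESC_incl_apply, Matrix.map_apply]
  push_cast
  rfl

end Desc

end Pool.Agent.Work.MP_298761_T2
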