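import Pool.Agent.Work.MP_298761_T2.BaseDefs

/-!
# Block DESC2 of theorem T2 (rational and real exterior algebras)
-/

namespace Pool.Agent.Work.MP_298761_T2

open ExteriorAlgebra Module

section Desc

theorem DESC2_ind {I K V : Type*} [Field K] [AddCommGroup V] [Module K V] (b : Basis I K V)
    (P : V → Prop) (h0 : P 0) (ha : ∀ x y, P x → P y → P (x + y))
    (hs : ∀ (c : K) x, P x → P (c • x)) (hb : ∀ i, P (b i)) (x : V) : P x := by
  have hx : x ∈ Submodule.span K (Set.range b) := by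
    rw [b.span_eq]
    exact Submodule.mem_top
  induction hx using Submodule.span_induction with
  | mem y hy => obtain ⟨i, rfl⟩ := hy; exact hb i
  | zero => exact h0
  | add y z _ _ hy hz => exact ha y z hy hz
  | smul r y _ hy => exact hs r y hy

variable {n : Type}

theorem DESC2_incl_apply (v : n → ℚ) (i : n) : incl n v i = (v i : ℝ) := by
  simp [incl]

theorem DESC2_toReal_ι (v : n → ℚ) : toReal n (ι ℚ v) = ι ℝ (incl n v) := by
  simp [toReal]

theorem DESC2_algebraMap (r : ℚ) : algebraMap ℚ (ExteriorAlgebra ℝ (n → ℝ)) r =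
    algebraMap ℝ (ExteriorAlgebra ℝ (n → ℝ)) (r : ℝ) := by
  rw [IsScalarTower.algebraMap_apply ℚ ℝ (ExteriorAlgebra ℝ (n → ℝ))]
  simp

theorem DESC2_toReal_algebraMap (r : ℚ) : toReal n (algebraMap ℚ _ r) =
    algebraMap ℝ (ExteriorAlgebra ℝ (n → ℝ)) (r : ℝ) := by
  rw [AlgHom.commutes, DESC2_algebraMap]

theorem DESC2_ratsmul (r : ℚ) (x : ExteriorAlgebra ℝ (n → ℝ)) : r • x = (r : ℝ) • x := by
  rw [Algebra.smul_def, DESC2_algebraMap, ← Algebra.smul_def]

theorem DESC2_ιMulti (k : ℕ) (v : Fin k → (n → ℚ)) :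
    toReal n (ιMulti ℚ k v) = ιMulti ℝ k (fun i => incl n (v i)) := by
  rw [ιMulti_apply, ιMulti_apply, map_list_prod, List.map_ofFn]
  congr 1
  congr 1
  funext i
  exact DESC2_toReal_ι (v i)

variable [Fintype n] [DecidableEq n]

/-- A rational and a real basis with the same index set. -/
theorem DESC2_bases : ∃ (I : Type) (bQ : Basis I ℚ (ExteriorAlgebra ℚ (n → ℚ)))
    (bR : Basis I ℝ (ExteriorAlgebra ℝ (n → ℝ))), ∀ i, toReal n (bQ i) = bR i := by
  classical
  let : LinearOrder n := LinearOrder.lift' (Fintype.equivFin n) (Fintype.equivFin n).injective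
  refine ⟨Finset n, (Pi.basisFun ℚ n).ExteriorAlgebra, (Pi.basisFun ℝ n).ExteriorAlgebra, ?_⟩
  intro s
  rw [ExteriorAlgebra.basis_apply, ExteriorAlgebra.basis_apply]
  unfold ιMulti_family
  rw [DESC2_ιMulti]
  congr 1
  funext i
  funext j
  simp only [Function.comp_apply, DESC2_incl_apply, Pi.basisFun_apply]
  simp only [Pi.single_apply]
  split_ifs <;> simp

theorem DESC2_repr {I : Type} (bQ : Basis I ℚ (ExteriorAlgebra ℚ (n → ℚ)))
    (bR : Basis I ℝ (ExteriorAlgebra ℝ (n → ℝ))) (hb : ∀ i, toReal n (bQ i) = bR i)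
    (a : ExteriorAlgebra ℚ (n → ℚ)) (i : I) :
    bR.repr (toReal n a) i = ((bQ.repr a i : ℚ) : ℝ) := by
  refine DESC2_ind bQ (fun a => bR.repr (toReal n a) i = ((bQ.repr a i : ℚ) : ℝ)) ?_ ?_ ?_ ?_ a
  · simp
  · intro x y hx hy
    simp [hx, hy]
  · intro c x hx
    have e : toReal n (c • x) = (c : ℝ) • toReal n x := by rw [map_smul, DESC2_ratsmul]
    rw [e]
    simp [hx]
  · intro j
    rw [hb, Basis.repr_self, Basis.repr_self]
    by_cases hij : i = j
    · subst hij
      simp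
    · rw [Finsupp.single_eq_of_ne hij, Finsupp.single_eq_of_ne hij, Rat.cast_zero]

/-- Independence. -/
theorem components_zero {m : ℕ} {h : Fin m → ℝ} (hh : LinearIndependent ℚ h)
    (a : Fin m → ExteriorAlgebra ℚ (n → ℚ)) (ha : ∑ k, h k • toReal n (a k) = 0) (k : Fin m) :
    a k = 0 := by
  obtain ⟨I, bQ, bR, hb⟩ := DESC2_bases (n := n)
  apply bQ.repr.injective
  rw [map_zero]
  ext i
  have h1 := congrArg (fun x => bR.repr x i) ha
  simp only [map_sum, map_smul, map_zero, Finsupp.coe_finsetSum, Finset.sum_apply,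
    Finsupp.coe_smul, Pi.smul_apply, smul_eq_mul, Finsupp.coe_zero, Pi.zero_apply,
    DESC2_repr bQ bR hb] at h1
  have h2 : ∑ k, (bQ.repr (a k) i) • h k = 0 := by
    rw [← h1]
    refine Finset.sum_congr rfl fun k _ => ?_
    rw [Rat.smul_def, mul_comm]
  rw [Fintype.linearIndependent_iff] at hh
  simpa using hh _ h2 k

omit [Fintype n] [DecidableEq n] in
/-- Components of an element of the real span of a rational subspace. -/
theorem DESC2_span (U : Submodule ℚ (ExteriorAlgebra ℚ (n → ℚ))) (η : ExteriorAlgebra ℝ (n → ℝ))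
    (hη : η ∈ Submodule.span ℝ (toReal n '' (U : Set (ExteriorAlgebra ℚ (n → ℚ))))) :
    ∃ (m : ℕ) (h : Fin m → ℝ) (a : Fin m → ExteriorAlgebra ℚ (n → ℚ)),
      LinearIndependent ℚ h ∧ (∀ k, a k ∈ U) ∧ η = ∑ k, h k • toReal n (a k) := by
  classical
  obtain ⟨r, c, v, rfl⟩ := (Submodule.mem_span_set' ).1 hη
  choose u hu hu' using fun i => (v i).2
  let S : Set ℝ := Set.range c
  have hfin : S.Finite := Set.finite_range _
  have : FiniteDimensional ℚ (Submodule.span ℚ S) := FiniteDimensional.span_of_finite ℚ hfin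
  let B := Module.finBasis ℚ (Submodule.span ℚ S)
  have hmem : ∀ i, c i ∈ Submodule.span ℚ S := fun i => Submodule.subset_span ⟨i, rfl⟩
  refine ⟨_, fun k => (B k : ℝ), fun k => ∑ i, B.repr ⟨_, hmem i⟩ k • u i, ?_, ?_, ?_⟩
  · exact B.linearIndependent.map' (Submodule.subtype _) (Submodule.ker_subtype _)
  · exact fun k => Submodule.sum_mem _ fun i _ => Submodule.smul_mem _ _ (hu i)
  · simp only [map_sum, map_smul, DESC2_ratsmul, Finset.smul_sum, smul_smul]
    rw [Finset.sum_comm]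
    refine Finset.sum_congr rfl fun i _ => ?_
    rw [← Finset.sum_smul, ← hu' i]
    congr 1
    have h1 := congrArg (Submodule.subtype _) (B.sum_repr ⟨_, hmem i⟩)
    simp only [map_sum, map_smul, Submodule.subtype_apply] at h1
    refine h1.symm.trans (Finset.sum_congr rfl fun k _ => ?_)
    rw [Rat.smul_def, mul_comm]

theorem DESC2_span_top (d : ℕ) (η : ExteriorAlgebra ℝ (n → ℝ)) (hη : η ∈ ⋀[ℝ]^d (n → ℝ)) :
    η ∈ Submodule.span ℝ (toReal n '' ((⋀[ℚ]^d (n → ℚ) :
      Submodule ℚ (ExteriorAlgebra ℚ (n → ℚ))) : Set (ExteriorAlgebra ℚ (n → ℚ)))) := by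
  have key : ∀ (d : ℕ) (η : ExteriorAlgebra ℝ (n → ℝ))
      (hη : η ∈ (LinearMap.range (ι ℝ : (n → ℝ) →ₗ[ℝ] ExteriorAlgebra ℝ (n → ℝ))) ^ d),
      η ∈ Submodule.span ℝ (toReal n '' (((LinearMap.range
        (ι ℚ : (n → ℚ) →ₗ[ℚ] ExteriorAlgebra ℚ (n → ℚ))) ^ d :
          Submodule ℚ (ExteriorAlgebra ℚ (n → ℚ))) : Set (ExteriorAlgebra ℚ (n → ℚ)))) := by
    intro d η hη
    induction hη using Submodule.pow_induction_on_left' with
    | algebraMap r =>
      rw [Algebra.algebraMap_eq_smul_one]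
      refine Submodule.smul_mem _ _ (Submodule.subset_span ⟨1, ?_, map_one _⟩)
      rw [pow_zero]
      exact Submodule.one_le.1 le_rfl
    | add x y i hx hy ihx ihy => exact Submodule.add_mem _ ihx ihy
    | mem_mul m hm i x hx ih =>
      obtain ⟨v, rfl⟩ := hm
      have hv : v = ∑ j, v j • incl n (Pi.single j 1) := by
        funext i
        rw [Finset.sum_apply, Finset.sum_eq_single i]
        · simp [DESC2_incl_apply]
        · intro j _ hj
          simp [DESC2_incl_apply, Pi.single_eq_of_ne' hj]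
        · intro h
          exact absurd (Finset.mem_univ i) h
      rw [hv, map_sum, Finset.sum_mul]
      refine Submodule.sum_mem _ fun j _ => ?_
      rw [map_smul, smul_mul_assoc]
      refine Submodule.smul_mem _ _ ?_
      clear hx
      induction ih using Submodule.span_induction with
      | mem y hy =>
        obtain ⟨z, hz, rfl⟩ := hy
        refine Submodule.subset_span ⟨ι ℚ (Pi.single j 1) * z, ?_, ?_⟩
        · rw [pow_succ']
          exact Submodule.mul_mem_mul ⟨_, rfl⟩ hz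
        · rw [map_mul, DESC2_toReal_ι]
      | zero => rw [mul_zero]; exact Submodule.zero_mem _
      | add y z _ _ hy hz => rw [mul_add]; exact Submodule.add_mem _ hy hz
      | smul r y _ hy => rw [mul_smul_comm]; exact Submodule.smul_mem _ _ hy
  exact key d η hη

/-- Components of an element of degree `d`. -/
theorem exists_components_ext (d : ℕ) (η : ExteriorAlgebra ℝ (n → ℝ)) (hη : η ∈ ⋀[ℝ]^d (n → ℝ)) :
    ∃ (m : ℕ) (h : Fin m → ℝ) (a : Fin m → ExteriorAlgebra ℚ (n → ℚ)),
      LinearIndependent ℚ h ∧ (∀ k, a k ∈ ⋀[ℚ]^d (n → ℚ)) ∧ η = ∑ k, h k • toReal n (a k) :=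
  DESC2_span _ η (DESC2_span_top d η hη)

/-- Descent of subspaces. -/
theorem mem_of_toReal_mem (U : Submodule ℚ (ExteriorAlgebra ℚ (n → ℚ)))
    (ω : ExteriorAlgebra ℚ (n → ℚ))
    (h : toReal n ω ∈ Submodule.span ℝ (toReal n '' (U : Set (ExteriorAlgebra ℚ (n → ℚ))))) :
    ω ∈ U := by
  by_contra hω
  obtain ⟨f, hf1, hf2⟩ := Submodule.exists_le_ker_of_notMem hω
  obtain ⟨I, bQ, bR, hb⟩ := DESC2_bases (n := n)
  let F : ExteriorAlgebra ℝ (n → ℝ) →ₗ[ℝ] ℝ := bR.constr ℝ fun i => ((f (bQ i) : ℚ) : ℝ)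
  have hF : ∀ a, F (toReal n a) = ((f a : ℚ) : ℝ) := by
    intro a
    refine DESC2_ind bQ (fun a => F (toReal n a) = ((f a : ℚ) : ℝ)) ?_ ?_ ?_ ?_ a
    · simp
    · intro x y hx hy
      simp [hx, hy]
    · intro c x hx
      have e : toReal n (c • x) = (c : ℝ) • toReal n x := by rw [map_smul, DESC2_ratsmul]
      rw [e]
      simp [hx]
    · intro j
      rw [hb]
      exact bR.constr_basis ℝ _ j
  have h0 : ∀ x ∈ Submodule.span ℝ (toReal n '' (U : Set (ExteriorAlgebra ℚ (n → ℚ)))),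
      F x = 0 := by
    intro x hx
    induction hx using Submodule.span_induction with
    | mem y hy =>
      obtain ⟨z, hz, rfl⟩ := hy
      rw [hF]
      have := hf2 hz
      rw [LinearMap.mem_ker] at this
      simp [this]
    | zero => exact map_zero _
    | add y z _ _ hy hz => rw [map_add, hy, hz, add_zero]
    | smul r y _ hy => rw [map_smul, hy, smul_zero]
  have h1 := h0 _ h
  rw [hF] at h1
  exact hf1 (by exact_mod_cast h1)

end Desc

end Pool.Agent.Work.MP_298761_T2
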