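import Pool.Agent.Work.MP_298761_T2.BaseDefs

/-!
# Block DIAG
-/

namespace Pool.Agent.Work.MP_298761_T2

open ExteriorAlgebra Module

section Eigen

/-- A symmetric operator for a positive definite form has an eigenvector. -/
theorem diag_eig {V : Type*} [AddCommGroup V] [Module ℝ V] [FiniteDimensional ℝ V] [Nontrivial V]
    (B : V →ₗ[ℝ] V →ₗ[ℝ] ℝ) (hs : ∀ x y, B x y = B y x) (hp : ∀ x, x ≠ 0 → 0 < B x x)
    (a : V →ₗ[ℝ] V) (ha : ∀ x y, B (a x) y = B x (a y)) :
    ∃ (μ : ℝ) (x : V), x ≠ 0 ∧ a x = μ • x := by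
  let core : InnerProductSpace.Core ℝ V :=
    { inner := fun x y => B x y
      conj_inner_symm := fun x y => by simp [hs y x]
      re_inner_nonneg := fun x => by
        by_cases h : x = 0
        · simp [h]
        · simpa using (hp x h).le
      add_left := fun x y z => by simp
      smul_left := fun x y r => by simp
      definite := fun x hx => by
        by_contra h
        exact (hp x h).ne' hx }
  let : NormedAddCommGroup V := core.toNormedAddCommGroup
  let : InnerProductSpace ℝ V := InnerProductSpace.ofCore core.toCore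
  have hsym : a.IsSymmetric := fun x y => ha x y
  obtain ⟨x, hx⟩ := (hsym.hasEigenvalue_iSup_of_finiteDimensional).exists_hasEigenvector
  exact ⟨_, x, hx.2, hx.apply_eq_smul⟩

variable {W : Type*} [AddCommGroup W] [Module ℝ W] [FiniteDimensional ℝ W]

/-- Commuting symmetric operators have a joint eigenvector in every nonzero stable subspace. -/
theorem diag_joint (B : W →ₗ[ℝ] W →ₗ[ℝ] ℝ) (hs : ∀ x y, B x y = B y x)
    (hp : ∀ x, x ≠ 0 → 0 < B x x) (A : Set (W →ₗ[ℝ] W))
    (hA : ∀ a ∈ A, ∀ x y, B (a x) y = B x (a y))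
    (hcomm : ∀ a ∈ A, ∀ a' ∈ A, ∀ x, a (a' x) = a' (a x)) (n : ℕ) :
    ∀ E : Submodule ℝ W, finrank ℝ E = n → E ≠ ⊥ → (∀ a ∈ A, ∀ x ∈ E, a x ∈ E) →
      ∃ x ∈ E, x ≠ 0 ∧ ∀ a ∈ A, ∃ μ : ℝ, a x = μ • x := by
  induction n using Nat.strong_induction_on with
  | _ n ih =>
    intro E hn hE hst
    by_cases hsc : ∀ a ∈ A, ∃ μ : ℝ, ∀ x ∈ E, a x = μ • x
    · obtain ⟨x, hx, hx0⟩ := Submodule.exists_mem_ne_zero_of_ne_bot hE
      refine ⟨x, hx, hx0, fun a ha => ?_⟩
      obtain ⟨μ, hμ⟩ := hsc a ha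
      exact ⟨μ, hμ x hx⟩
    · push Not at hsc
      obtain ⟨a, ha, hna⟩ := hsc
      have : Nontrivial E := Submodule.nontrivial_iff_ne_bot.mpr hE
      obtain ⟨μ, x0, hx0, hax0⟩ := diag_eig (V := E)
        ((B.domRestrict₁₂ E E)) (fun x y => hs _ _)
        (fun x hx => hp _ (fun h => hx (Subtype.ext h))) (a.restrict (hst a ha))
        (fun x y => hA a ha _ _)
      have hax0' : a (x0 : W) = μ • (x0 : W) := congrArg Subtype.val hax0
      set E' : Submodule ℝ W := E ⊓ LinearMap.ker (a - μ • LinearMap.id) with hE'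
      have hmem : ∀ x, x ∈ E' ↔ x ∈ E ∧ a x = μ • x := by
        intro x
        rw [hE', Submodule.mem_inf, LinearMap.mem_ker, LinearMap.sub_apply, LinearMap.smul_apply,
          LinearMap.id_apply, sub_eq_zero]
      have hx0E' : (x0 : W) ∈ E' := (hmem _).2 ⟨x0.2, hax0'⟩
      have hE'ne : E' ≠ ⊥ := by
        intro h
        rw [h, Submodule.mem_bot] at hx0E'
        exact hx0 (Subtype.ext hx0E')
      have hlt : E' < E := by
        refine lt_of_le_of_ne inf_le_left fun h => ?_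
        obtain ⟨x, hx, hxa⟩ := hna μ
        rw [← h] at hx
        exact hxa ((hmem x).1 hx).2
      have hst' : ∀ a' ∈ A, ∀ x ∈ E', a' x ∈ E' := by
        intro a' ha' x hx
        obtain ⟨h1, h2⟩ := (hmem x).1 hx
        refine (hmem _).2 ⟨hst a' ha' x h1, ?_⟩
        rw [hcomm a ha a' ha', h2, map_smul]
      obtain ⟨x, hx, hx', hx''⟩ := ih (finrank ℝ E') (hn ▸ Submodule.finrank_lt_finrank_of_lt hlt)
        E' rfl hE'ne hst'
      exact ⟨x, hlt.le hx, hx', hx''⟩

/-- A unitary family of joint eigenvectors. -/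
theorem diag_family (Q : W →ₗ[ℝ] W →ₗ[ℝ] ℝ) (halt : ∀ x, Q x x = 0) (J : W →ₗ[ℝ] W)
    (hJ : ∀ x, J (J x) = -x) (hQJ : ∀ x y, Q (J x) (J y) = Q x y)
    (hpos : ∀ x, x ≠ 0 → 0 < Q x (J x)) (A : Set (W →ₗ[ℝ] W))
    (hA : ∀ a ∈ A, ∀ x y, Q (a x) y = Q x (a y)) (hAJ : ∀ a ∈ A, ∀ x, a (J x) = J (a x))
    (hcomm : ∀ a ∈ A, ∀ a' ∈ A, ∀ x, a (a' x) = a' (a x)) (n : ℕ) :
    ∀ E : Submodule ℝ W, finrank ℝ E = n → (∀ x ∈ E, J x ∈ E) → (∀ a ∈ A, ∀ x ∈ E, a x ∈ E) →
      ∃ (m : ℕ) (w : Fin m → W), (∀ k, w k ∈ E) ∧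
        (∀ k l, Q (w k) (J (w l)) = if k = l then 1 else 0) ∧ (∀ k l, Q (w k) (w l) = 0) ∧
        (∀ a ∈ A, ∀ k, ∃ μ : ℝ, a (w k) = μ • w k) ∧
        E ≤ Submodule.span ℝ (Set.range w ∪ Set.range (fun k => J (w k))) := by
  have hanti : ∀ x y, Q x y = - Q y x := by
    intro x y
    have := halt (x + y)
    simp only [map_add, LinearMap.add_apply, halt, zero_add, add_zero] at this
    linarith
  have hQJ' : ∀ x y, Q x (J y) = - Q (J x) y := by
    intro x y
    have := hQJ x (J y)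
    rw [hJ, map_neg] at this
    linarith
  induction n using Nat.strong_induction_on with
  | _ n ih =>
    intro E hn hEJ hst
    by_cases hE : E = ⊥
    · exact ⟨0, Fin.elim0, fun k => k.elim0, fun k => k.elim0, fun k => k.elim0,
        fun _ _ k => k.elim0, by rw [hE]; exact bot_le⟩
    · -- a joint eigenvector
      set B : W →ₗ[ℝ] W →ₗ[ℝ] ℝ := Q.compl₂ J with hB
      have hBapp : ∀ x y, B x y = Q x (J y) := fun x y => rfl
      obtain ⟨x, hxE, hx0, hxA⟩ := diag_joint B
        (fun x y => by rw [hBapp, hBapp, hQJ' x y, hanti (J x) y, neg_neg]) (fun x hx => hpos x hx)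
        A (fun a ha x y => by rw [hBapp, hBapp, hA a ha, hAJ a ha]) hcomm n E hn hE hst
      -- normalise
      set r : ℝ := Q x (J x) with hr
      have hr0 : 0 < r := hpos x hx0
      set y : W := (Real.sqrt r)⁻¹ • x with hy
      have hyE : y ∈ E := Submodule.smul_mem _ _ hxE
      have hyy : Q y (J y) = 1 := by
        simp only [hy, map_smul, LinearMap.smul_apply, smul_eq_mul, ← hr]
        have hsq : Real.sqrt r * Real.sqrt r = r := Real.mul_self_sqrt hr0.le
        have hne : Real.sqrt r ≠ 0 := (Real.sqrt_pos.mpr hr0).ne'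
        field_simp
        rw [sq, hsq]
      have hyA : ∀ a ∈ A, ∃ μ : ℝ, a y = μ • y := by
        intro a ha
        obtain ⟨μ, hμ⟩ := hxA a ha
        exact ⟨μ, by rw [hy, map_smul, hμ, smul_comm]⟩
      set E' : Submodule ℝ W := E ⊓ (LinearMap.ker (Q y) ⊓ LinearMap.ker (Q (J y))) with hE'
      have hmem : ∀ v, v ∈ E' ↔ v ∈ E ∧ Q y v = 0 ∧ Q (J y) v = 0 := by
        intro v
        simp [hE', Submodule.mem_inf, LinearMap.mem_ker]
      have hE'J : ∀ v ∈ E', J v ∈ E' := by
        intro v hv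
        obtain ⟨h1, h2, h3⟩ := (hmem v).1 hv
        exact (hmem _).2 ⟨hEJ v h1, by rw [hQJ', h3, neg_zero], by rw [hQJ, h2]⟩
      have hst' : ∀ a ∈ A, ∀ v ∈ E', a v ∈ E' := by
        intro a ha v hv
        obtain ⟨h1, h2, h3⟩ := (hmem v).1 hv
        obtain ⟨μ, hμ⟩ := hyA a ha
        refine (hmem _).2 ⟨hst a ha v h1, ?_, ?_⟩
        · rw [← hA a ha, hμ, map_smul, LinearMap.smul_apply, h2, smul_zero]
        · rw [← hA a ha, hAJ a ha, hμ, map_smul, map_smul, LinearMap.smul_apply, h3, smul_zero]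
      have hlt : E' < E := by
        refine lt_of_le_of_ne inf_le_left fun h => ?_
        have h1 : y ∈ E' := h ▸ hyE
        have h2 := ((hmem y).1 h1).2.2
        rw [hanti, hyy] at h2
        norm_num at h2
      obtain ⟨m, w, hw1, hw2, hw3, hw4, hw5⟩ := ih (finrank ℝ E')
        (hn ▸ Submodule.finrank_lt_finrank_of_lt hlt) E' rfl hE'J hst'
      have hyw : ∀ k, Q y (w k) = 0 := fun k => ((hmem _).1 (hw1 k)).2.1
      have hyJw : ∀ k, Q y (J (w k)) = 0 := fun k => ((hmem _).1 (hE'J _ (hw1 k))).2.1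
      refine ⟨m + 1, Fin.cons y w, ?_, ?_, ?_, ?_, ?_⟩
      · intro k
        refine Fin.cases ?_ (fun k => ?_) k
        · simpa using hyE
        · simpa using hlt.le (hw1 k)
      · intro k l
        refine Fin.cases ?_ (fun k => ?_) k
        · refine Fin.cases ?_ (fun l => ?_) l
          · simpa using hyy
          · simpa [Fin.succ_ne_zero, (Fin.succ_ne_zero l).symm] using hyJw l
        · refine Fin.cases ?_ (fun l => ?_) l
          · have : Q (w k) (J y) = 0 := by
              rw [hQJ', hanti, neg_neg]; exact hyJw k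
            simpa [Fin.succ_ne_zero] using this
          · simpa using hw2 k l
      · intro k l
        refine Fin.cases ?_ (fun k => ?_) k
        · refine Fin.cases ?_ (fun l => ?_) l
          · simpa using halt y
          · simpa using hyw l
        · refine Fin.cases ?_ (fun l => ?_) l
          · have : Q (w k) y = 0 := by
              rw [hanti, hyw k, neg_zero]
            simpa using this
          · simpa using hw3 k l
      · intro a ha k
        refine Fin.cases ?_ (fun k => ?_) k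
        · simpa using hyA a ha
        · simpa using hw4 a ha k
      · intro v hv
        -- remove the components along y and J y
        set v' : W := v + Q (J y) v • y - Q y v • J y with hv'
        have hv'E' : v' ∈ E' := by
          refine (hmem _).2 ⟨?_, ?_, ?_⟩
          · exact Submodule.sub_mem _ (Submodule.add_mem _ hv (Submodule.smul_mem _ _ hyE))
              (Submodule.smul_mem _ _ (hEJ y hyE))
          · simp [hv', halt, hyy]
          · simp [hv', halt, hanti (J y) y, hyy]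
        have h1 := hw5 hv'E'
        have hle : Submodule.span ℝ (Set.range w ∪ Set.range (fun k => J (w k))) ≤
            Submodule.span ℝ (Set.range (Fin.cons y w : Fin (m + 1) → W) ∪
              Set.range (fun k => J ((Fin.cons y w : Fin (m + 1) → W) k))) := by
          refine Submodule.span_mono (Set.union_subset_union ?_ ?_)
          · rintro _ ⟨k, rfl⟩
            exact ⟨k.succ, by simp⟩
          · rintro _ ⟨k, rfl⟩
            exact ⟨k.succ, by simp⟩
        have h2 : v = v' - Q (J y) v • y + Q y v • J y := by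
          rw [hv']; abel
        rw [h2]
        refine Submodule.add_mem _ (Submodule.sub_mem _ (hle h1) (Submodule.smul_mem _ _ ?_))
          (Submodule.smul_mem _ _ ?_)
        · exact Submodule.subset_span (Or.inl ⟨0, by simp⟩)
        · exact Submodule.subset_span (Or.inr ⟨0, by simp⟩)

end Eigen

section Contract

variable {W : Type*} [AddCommGroup W] [Module ℝ W]

theorem diag_ind {p : ExteriorAlgebra ℝ W → Prop} (hadd : ∀ a b, p a → p b → p (a + b))
    (hι : ∀ u v : W, p (ι ℝ u * ι ℝ v)) {D : ExteriorAlgebra ℝ W} (hD : D ∈ ⋀[ℝ]^2 W) : p D := by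
  have hD' : D ∈ LinearMap.range (ι ℝ : W →ₗ[ℝ] _) * LinearMap.range (ι ℝ : W →ₗ[ℝ] _) := by
    rw [← pow_two]; exact hD
  refine Submodule.mul_induction_on hD' (fun m hm n hn => ?_) (fun x y hx hy => hadd x y hx hy)
  obtain ⟨u, rfl⟩ := hm
  obtain ⟨v, rfl⟩ := hn
  exact hι u v

theorem diag_contract (d : Module.Dual ℝ W) (u v : W) :
    CliffordAlgebra.contractLeft (Q := (0 : QuadraticForm ℝ W)) d (ι ℝ u * ι ℝ v) =
      d u • ι ℝ v - d v • ι ℝ u := by
  have h := CliffordAlgebra.contractLeft_ι_mul (Q := (0 : QuadraticForm ℝ W)) d u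
    (CliffordAlgebra.ι (0 : QuadraticForm ℝ W) v)
  rw [CliffordAlgebra.contractLeft_ι, ← Algebra.commutes, ← Algebra.smul_def] at h
  exact h

theorem diag_endo_apply (Q : W →ₗ[ℝ] W →ₗ[ℝ] ℝ) (D : ExteriorAlgebra ℝ W) (x : W) :
    endo Q D x = ExteriorAlgebra.ιInv
      (CliffordAlgebra.contractLeft (Q := (0 : QuadraticForm ℝ W)) (Q x) D) := rfl

theorem diag_endo_add (Q : W →ₗ[ℝ] W →ₗ[ℝ] ℝ) (D D' : ExteriorAlgebra ℝ W) (x : W) :
    endo Q (D + D') x = endo Q D x + endo Q D' x := by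
  simp only [diag_endo_apply, map_add]

theorem diag_endo_mul (Q : W →ₗ[ℝ] W →ₗ[ℝ] ℝ) (u v x : W) :
    endo Q (ι ℝ u * ι ℝ v) x = Q x u • v - Q x v • u := by
  rw [diag_endo_apply, diag_contract, map_sub, map_smul, map_smul, ι_leftInverse, ι_leftInverse]

theorem diag_ι_endo (Q : W →ₗ[ℝ] W →ₗ[ℝ] ℝ) {D : ExteriorAlgebra ℝ W} (hD : D ∈ ⋀[ℝ]^2 W)
    (x : W) : CliffordAlgebra.contractLeft (Q := (0 : QuadraticForm ℝ W)) (Q x) D =
      ι ℝ (endo Q D x) := by
  refine diag_ind (p := fun D => CliffordAlgebra.contractLeft (Q := (0 : QuadraticForm ℝ W))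
    (Q x) D = ι ℝ (endo Q D x)) ?_ ?_ hD
  · intro a b ha hb
    rw [map_add, ha, hb, diag_endo_add, map_add]
  · intro u v
    rw [diag_contract, diag_endo_mul, map_sub, map_smul, map_smul]

theorem diag_endo_symm (Q : W →ₗ[ℝ] W →ₗ[ℝ] ℝ) (hanti : ∀ x y, Q x y = - Q y x)
    {D : ExteriorAlgebra ℝ W} (hD : D ∈ ⋀[ℝ]^2 W) (x y : W) :
    Q (endo Q D x) y = Q x (endo Q D y) := by
  refine diag_ind (p := fun D => Q (endo Q D x) y = Q x (endo Q D y)) ?_ ?_ hD
  · intro a b ha hb
    simp only [diag_endo_add, map_add, LinearMap.add_apply, ha, hb]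
  · intro u v
    simp only [diag_endo_mul, map_sub, map_smul, LinearMap.sub_apply, LinearMap.smul_apply,
      smul_eq_mul]
    rw [hanti v y, hanti u y]
    ring

theorem diag_endo_J (Q : W →ₗ[ℝ] W →ₗ[ℝ] ℝ) (J : W →ₗ[ℝ] W)
    (hQJ' : ∀ x y, Q x (J y) = - Q (J x) y) {D : ExteriorAlgebra ℝ W} (hD : D ∈ ⋀[ℝ]^2 W)
    (x : W) : CliffordAlgebra.contractLeft (Q := (0 : QuadraticForm ℝ W)) (Q x) (der J D) =
      ι ℝ (J (endo Q D x) - endo Q D (J x)) := by
  refine diag_ind (p := fun D => CliffordAlgebra.contractLeft (Q := (0 : QuadraticForm ℝ W))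
    (Q x) (der J D) = ι ℝ (J (endo Q D x) - endo Q D (J x))) ?_ ?_ hD
  · intro a b ha hb
    simp only [diag_endo_add, map_add, ha, hb, map_sub]
    abel
  · intro u v
    rw [der_mul, der_ι, der_ι, map_add, diag_contract, diag_contract]
    simp only [diag_endo_mul, map_sub, map_smul, hQJ']
    simp only [neg_smul]
    abel

end Contract

section Diag

variable {W : Type*} [AddCommGroup W] [Module ℝ W] [FiniteDimensional ℝ W]

omit [FiniteDimensional ℝ W] in
/-- Euler's identity in degree two. -/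
theorem diag_euler {υ : Type*} [Fintype υ] (b : Basis υ ℝ W) {D : ExteriorAlgebra ℝ W}
    (hD : D ∈ ⋀[ℝ]^2 W) :
    ∑ u, ι ℝ (b u) * CliffordAlgebra.contractLeft (Q := (0 : QuadraticForm ℝ W)) (b.coord u) D =
      (2 : ℝ) • D := by
  refine diag_ind (p := fun D => ∑ u, ι ℝ (b u) *
    CliffordAlgebra.contractLeft (Q := (0 : QuadraticForm ℝ W)) (b.coord u) D = (2 : ℝ) • D)
    ?_ ?_ hD
  · intro a b ha hb
    simp only [map_add, mul_add, Finset.sum_add_distrib, ha, hb, smul_add]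
  · intro x y
    have h1 : ∀ v w : W, ∑ u, ι ℝ (b u) * (b.coord u v • ι ℝ w) = ι ℝ v * ι ℝ w := by
      intro v w
      have : ∑ u, ι ℝ (b u) * (b.coord u v • ι ℝ w) =
          (ι ℝ (∑ u, b.coord u v • b u)) * ι ℝ w := by
        rw [map_sum, Finset.sum_mul]
        refine Finset.sum_congr rfl fun u _ => ?_
        rw [map_smul, smul_mul_assoc, mul_smul_comm]
      rw [this]
      congr 2
      exact b.sum_repr v
    simp only [diag_contract, mul_sub, Finset.sum_sub_distrib, h1]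
    rw [ι_mul_ι_comm y x, sub_neg_eq_add, two_smul]

/-- Commuting `(1,1)`-classes are simultaneously diagonal in a Darboux basis. -/
theorem diagonalize (Q : W →ₗ[ℝ] W →ₗ[ℝ] ℝ) (halt : ∀ x, Q x x = 0) (J : W →ₗ[ℝ] W)
    (hJ : ∀ x, J (J x) = -x) (hQJ : ∀ x y, Q (J x) (J y) = Q x y)
    (hpos : ∀ x, x ≠ 0 → 0 < Q x (J x)) (S : Set (ExteriorAlgebra ℝ W))
    (hS : ∀ D ∈ S, D ∈ ⋀[ℝ]^2 W ∧ der J D = 0)
    (hcomm : ∀ D ∈ S, ∀ D' ∈ S, ∀ x, endo Q D (endo Q D' x) = endo Q D' (endo Q D x)) :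
    ∃ (m : ℕ) (b : Basis (Fin m × Fin 2) ℝ W), ∀ D ∈ S,
      D ∈ Submodule.span ℝ (Set.range fun k => (pl (K := ℝ) (bz b) k : ExteriorAlgebra ℝ W)) := by
  classical
  have hanti : ∀ x y, Q x y = - Q y x := by
    intro x y
    have := halt (x + y)
    simp only [map_add, LinearMap.add_apply, halt, zero_add, add_zero] at this
    linarith
  have hQJ' : ∀ x y, Q x (J y) = - Q (J x) y := by
    intro x y
    have := hQJ x (J y)
    rw [hJ, map_neg] at this
    linarith
  have hendoJ : ∀ D ∈ S, ∀ x, endo Q D (J x) = J (endo Q D x) := by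
    intro D hD x
    have h1 := diag_endo_J Q J hQJ' (hS D hD).1 x
    rw [(hS D hD).2, map_zero] at h1
    have h2 := congrArg ExteriorAlgebra.ιInv h1
    rw [ι_leftInverse, map_zero] at h2
    exact (sub_eq_zero.mp h2.symm).symm
  obtain ⟨m, w, -, hw2, hw3, hw4, hw5⟩ := diag_family Q halt J hJ hQJ hpos (endo Q '' S)
    (by rintro _ ⟨D, hD, rfl⟩ x y; exact diag_endo_symm Q hanti (hS D hD).1 x y)
    (by rintro _ ⟨D, hD, rfl⟩ x; exact hendoJ D hD x)
    (by rintro _ ⟨D, hD, rfl⟩ _ ⟨D', hD', rfl⟩ x; exact hcomm D hD D' hD' x)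
    (finrank ℝ (⊤ : Submodule ℝ W)) ⊤ rfl (fun _ _ => trivial) (fun _ _ _ _ => trivial)
  set e : Fin m × Fin 2 → W := fun u => if u.2 = 0 then w u.1 else J (w u.1) with he
  have he0 : ∀ k, e (k, 0) = w k := fun k => by simp [he]
  have he1 : ∀ k, e (k, 1) = J (w k) := fun k => by simp [he]
  set f : Fin m × Fin 2 → Module.Dual ℝ W :=
    fun u => if u.2 = 0 then - Q (J (w u.1)) else Q (w u.1) with hf
  have hf0 : ∀ k, f (k, 0) = - Q (J (w k)) := fun k => by simp [hf]
  have hf1 : ∀ k, f (k, 1) = Q (w k) := fun k => by simp [hf]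
  have hfe : ∀ u v, f u (e v) = if u = v then 1 else 0 := by
    rintro ⟨k, s⟩ ⟨l, t⟩
    fin_cases s <;> fin_cases t
    · simp only [Fin.zero_eta, Fin.isValue, hf0, he0, LinearMap.neg_apply, Prod.mk.injEq, and_true]
      rw [← hQJ', hw2]
    · simp only [Fin.zero_eta, Fin.mk_one, Fin.isValue, hf0, he1, LinearMap.neg_apply, hQJ,
        Prod.mk.injEq, zero_ne_one, and_false, if_false, hw3, neg_zero]
    · simp only [Fin.zero_eta, Fin.mk_one, Fin.isValue, hf1, he0, hw3,
        Prod.mk.injEq, one_ne_zero, and_false, if_false]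
    · simp only [Fin.mk_one, Fin.isValue, hf1, he1, hw2, Prod.mk.injEq, and_true]
  have hli : LinearIndependent ℝ e := by
    refine LinearIndependent.of_pairwise_dual_eq_zero_one e f ?_ ?_
    · intro u v huv
      rw [hfe, if_neg huv]
    · intro u
      rw [hfe, if_pos rfl]
  have hsp : ⊤ ≤ Submodule.span ℝ (Set.range e) := by
    refine hw5.trans (Submodule.span_mono (Set.union_subset ?_ ?_))
    · rintro _ ⟨k, rfl⟩
      exact ⟨(k, 0), he0 k⟩
    · rintro _ ⟨k, rfl⟩
      exact ⟨(k, 1), he1 k⟩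
  set b : Basis (Fin m × Fin 2) ℝ W := Basis.mk hli hsp with hb
  have hbe : ∀ u, b u = e u := fun u => by rw [hb, Basis.mk_apply]
  have hcoord : ∀ u, b.coord u = f u := by
    intro u
    refine b.ext fun v => ?_
    rw [Basis.coord_apply, Basis.repr_self, hbe, hfe, Finsupp.single_apply]
    simp only [eq_comm]
  refine ⟨m, b, fun D hD => ?_⟩
  have hD2 := (hS D hD).1
  have hμ : ∀ k, ∃ μ : ℝ, endo Q D (w k) = μ • w k := fun k => hw4 _ ⟨D, hD, rfl⟩ k
  choose μ hμ using hμ
  have hμJ : ∀ k, endo Q D (J (w k)) = μ k • J (w k) := by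
    intro k
    rw [hendoJ D hD, hμ, map_smul]
  have heul := diag_euler b hD2
  rw [Fintype.sum_prod_type] at heul
  simp only [Fin.sum_univ_two, hcoord, hbe, hf0, hf1, he0, he1, map_neg, LinearMap.neg_apply,
    diag_ι_endo Q hD2, hμ, hμJ, map_smul] at heul
  have h2 : ∀ k, (pl (K := ℝ) (bz b) k : ExteriorAlgebra ℝ W) = ι ℝ (w k) * ι ℝ (J (w k)) := by
    intro k
    change ι ℝ (b (k, 0)) * ι ℝ (b (k, 1)) = _
    rw [hbe, hbe, he0, he1]
  have h3 : D = ∑ k, (-(μ k)) • (pl (K := ℝ) (bz b) k : ExteriorAlgebra ℝ W) := by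
    have h4 : (2 : ℝ) • D = (2 : ℝ) • ∑ k, (-(μ k)) • (pl (K := ℝ) (bz b) k : ExteriorAlgebra ℝ W) := by
      rw [← heul, Finset.smul_sum]
      refine Finset.sum_congr rfl fun k _ => ?_
      rw [h2, mul_neg, mul_smul_comm, mul_smul_comm, ι_mul_ι_comm (J (w k)) (w k), two_smul]
      simp only [smul_neg, neg_smul]
    exact smul_right_injective _ (two_ne_zero) h4
  rw [h3]
  exact Submodule.sum_mem _ fun k _ => Submodule.smul_mem _ _ (Submodule.subset_span ⟨k, rfl⟩)

end Diag

end Pool.Agent.Work.MP_298761_T2
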