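import Pool.Agent.Work.MP_298761_T2.BaseDefs

/-! Block HL: the Hodge condition and the derivation. -/

namespace Pool.Agent.Work.MP_298761_T2

open ExteriorAlgebra Module

section HL

variable {W : Type*} [AddCommGroup W] [Module ℝ W]

theorem HL_exists_poly (J : W →ₗ[ℝ] W) (ω : ExteriorAlgebra ℝ W) :
    ∃ P : Polynomial (ExteriorAlgebra ℝ W), P.coeff 0 = ω ∧ P.coeff 1 = der J ω ∧
      ∀ t : ℝ, ExteriorAlgebra.map (LinearMap.id + t • J) ω =
        Polynomial.eval₂ (RingHom.id _) (algebraMap ℝ (ExteriorAlgebra ℝ W) t) P := by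
  induction ω using ExteriorAlgebra.induction with
  | algebraMap r =>
    refine ⟨Polynomial.C (algebraMap ℝ _ r), by simp, by simp [Polynomial.coeff_C], fun t => ?_⟩
    simp
  | ι x =>
    refine ⟨Polynomial.C (ι ℝ x) + Polynomial.C (ι ℝ (J x)) * Polynomial.X, by simp,
      by simp [Polynomial.coeff_C], fun t => ?_⟩
    rw [ExteriorAlgebra.map_apply_ι]
    rw [Polynomial.eval₂_add, Polynomial.eval₂_C, Polynomial.eval₂_mul_X, Polynomial.eval₂_C]
    simp only [LinearMap.add_apply, LinearMap.id_coe, id_eq, LinearMap.smul_apply, map_add,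
      map_smul, RingHom.id_apply]
    rw [← Algebra.commutes, Algebra.smul_def]
  | mul a b ha hb =>
    obtain ⟨P, hP0, hP1, hP⟩ := ha
    obtain ⟨R, hR0, hR1, hR⟩ := hb
    refine ⟨P * R, by rw [Polynomial.mul_coeff_zero, hP0, hR0], ?_, fun t => ?_⟩
    · rw [Polynomial.mul_coeff_one, hP0, hP1, hR0, hR1, der_mul]
      abel
    · rw [map_mul, hP, hR, Polynomial.eval₂_mul_noncomm]
      intro k
      exact (Algebra.commutes t _).symm
  | add a b ha hb =>
    obtain ⟨P, hP0, hP1, hP⟩ := ha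
    obtain ⟨R, hR0, hR1, hR⟩ := hb
    refine ⟨P + R, by rw [Polynomial.coeff_add, hP0, hR0], ?_, fun t => ?_⟩
    · rw [Polynomial.coeff_add, hP1, hR1, map_add]
    · rw [map_add, hP, hR, Polynomial.eval₂_add]

theorem der_eq_zero_of_hodge (J : W →ₗ[ℝ] W) (ω : ExteriorAlgebra ℝ W) (p : ℕ)
    (h : ∀ a b : ℝ, ExteriorAlgebra.map (a • LinearMap.id + b • J) ω = (a ^ 2 + b ^ 2) ^ p • ω) :
    der J ω = 0 := by
  obtain ⟨P, _, hP1, hP⟩ := HL_exists_poly J ω
  rw [← Module.forall_dual_apply_eq_zero_iff ℝ (der J ω)]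
  intro φ
  rw [← hP1]
  set q : Polynomial ℝ := ∑ n ∈ Finset.range (P.natDegree + 1),
    Polynomial.C (φ (P.coeff n)) * Polynomial.X ^ n with hq
  have hqe : ∀ t : ℝ, q.eval t = (1 + t ^ 2) ^ p * φ ω := by
    intro t
    have h1 := h 1 t
    rw [one_smul, hP t] at h1
    have h2 : φ (Polynomial.eval₂ (RingHom.id _) (algebraMap ℝ (ExteriorAlgebra ℝ W) t) P) =
        q.eval t := by
      rw [Polynomial.eval₂_eq_sum_range, map_sum, hq, Polynomial.eval_finsetSum]
      refine Finset.sum_congr rfl (fun n _ => ?_)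
      rw [RingHom.id_apply, ← map_pow, ← Algebra.commutes, ← Algebra.smul_def, map_smul, smul_eq_mul,
        Polynomial.eval_mul, Polynomial.eval_C, Polynomial.eval_pow, Polynomial.eval_X, mul_comm]
    rw [← h2, h1, map_smul, smul_eq_mul, one_pow]
  have hqp : q = (1 + Polynomial.X ^ 2) ^ p * Polynomial.C (φ ω) := by
    refine Polynomial.funext (fun t => ?_)
    rw [hqe]
    simp
  have hq1 : q.coeff 1 = φ (P.coeff 1) := by
    rw [hq, Polynomial.finsetSum_coeff]
    have e : ∀ n ∈ Finset.range (P.natDegree + 1),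
        (Polynomial.C (φ (P.coeff n)) * Polynomial.X ^ n).coeff 1 =
        if n = 1 then φ (P.coeff 1) else 0 := by
      intro n _
      rw [Polynomial.coeff_C_mul_X_pow]
      by_cases hn : n = 1
      · subst hn; simp
      · rw [if_neg (fun h => hn h.symm), if_neg hn]
    rw [Finset.sum_congr rfl e, Finset.sum_ite_eq']
    split_ifs with hmem
    · rfl
    · rw [Finset.mem_range, not_lt] at hmem
      rw [Polynomial.coeff_eq_zero_of_natDegree_lt (by omega), map_zero]
  have hd : q.derivative.eval 0 = q.coeff 1 := by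
    rw [← Polynomial.coeff_zero_eq_eval_zero, Polynomial.coeff_derivative]
    simp
  rw [← hq1, ← hd, hqp]
  simp [Polynomial.derivative_pow]

theorem HL_map_two (J : W →ₗ[ℝ] W) (hJ : ∀ x, J (J x) = -x) (η : ExteriorAlgebra ℝ W)
    (h2 : η ∈ ⋀[ℝ]^2 W) (a b : ℝ) :
    ExteriorAlgebra.map (a • LinearMap.id + b • J) η =
      a ^ 2 • η + (a * b) • der J η + b ^ 2 • (η + (1 / 2 : ℝ) • der J (der J η)) := by
  have h2' : η ∈ LinearMap.range (ι ℝ : W →ₗ[ℝ] ExteriorAlgebra ℝ W) *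
      LinearMap.range (ι ℝ : W →ₗ[ℝ] ExteriorAlgebra ℝ W) := by
    rw [← pow_two]; exact h2
  induction h2' using Submodule.mul_induction_on' with
  | mem_mul_mem m hm n hn =>
    obtain ⟨u, rfl⟩ := hm
    obtain ⟨v, rfl⟩ := hn
    rw [map_mul, ExteriorAlgebra.map_apply_ι, ExteriorAlgebra.map_apply_ι]
    simp only [der_mul, der_ι, map_add, hJ, LinearMap.add_apply, LinearMap.smul_apply,
      LinearMap.id_coe, id_eq, map_smul, map_neg, neg_mul, mul_neg]
    simp only [add_mul, mul_add, smul_mul_assoc, mul_smul_comm, smul_add, smul_smul, smul_neg]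
    module
  | add x hx y hy ihx ihy =>
    have hx' : x ∈ ⋀[ℝ]^2 W := by
      change x ∈ LinearMap.range (ι ℝ : W →ₗ[ℝ] ExteriorAlgebra ℝ W) ^ 2
      rw [pow_two]; exact hx
    have hy' : y ∈ ⋀[ℝ]^2 W := by
      change y ∈ LinearMap.range (ι ℝ : W →ₗ[ℝ] ExteriorAlgebra ℝ W) ^ 2
      rw [pow_two]; exact hy
    rw [map_add, ihx hx', ihy hy', map_add, map_add]
    module

theorem hodge_of_der_eq_zero (J : W →ₗ[ℝ] W) (hJ : ∀ x, J (J x) = -x) (η : ExteriorAlgebra ℝ W)
    (h2 : η ∈ ⋀[ℝ]^2 W) (h : der J η = 0) (a b : ℝ) :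
    ExteriorAlgebra.map (a • LinearMap.id + b • J) η = (a ^ 2 + b ^ 2) • η := by
  rw [HL_map_two J hJ η h2, h, map_zero]
  module

end HL

end Pool.Agent.Work.MP_298761_T2
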