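import Mathlib

/-!
# Families of abelian varieties through their Hodge structures
-/

namespace Pool.Agent.Work.MP_298761_T2

open Matrix

/-- A polarised complex structure on `ℚ^n = H^1(A, ℚ)`: a complex structure `J` on `ℝ^n` and a
rational alternating form `Q` with `Q(Jx, Jy) = Q(x, y)` and `Q(x, Jx) > 0` for `x ≠ 0`. -/
structure PolCS (n : Type) [Fintype n] [DecidableEq n] where
  /-- the complex structure on `H^1(A, ℝ)` -/
  J : Matrix n n ℝ
  /-- the polarisation form on `H^1(A, ℚ)` -/
  Q : Matrix n n ℚ
  J_sq : J * J = -1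
  Q_alt : Qᵀ = -Q
  Q_J : Jᵀ * Q.map (fun q : ℚ => (q : ℝ)) * J = Q.map (fun q : ℚ => (q : ℝ))
  pos : ∀ x : n → ℝ, x ≠ 0 → 0 < x ⬝ᵥ (Q.map (fun q : ℚ => (q : ℝ)) *ᵥ (J *ᵥ x))

/-- A family of complex abelian varieties over a connected base `S`, through its local system and
its Hodge structures: for every point `s` the polarised complex structure of the fibre on
`H^1(A_s, ℚ) = ℚ^n` (a basis is chosen for every `s`), and the parallel transports along the paths
of the base. -/
structure AbScheme (n : Type) [Fintype n] [DecidableEq n] where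
  /-- the points of the base -/
  S : Type
  /-- the fibres -/
  fib : S → PolCS n
  /-- the parallel transports `H^1(A_s, ℚ) → H^1(A_t, ℚ)` along paths from `s` to `t` -/
  trans : S → S → Set (GL n ℚ)
  /-- the base is connected -/
  conn : ∀ s t, (trans s t).Nonempty

end Pool.Agent.Work.MP_298761_T2
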