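import Pool.Agent.Work.MP_298761_T2.BaseDefs
import Pool.Agent.Work.MP_298761_T2.Structures

/-!
# Abelian schemes through Hodge theory: the definitions of the statement

`H^*(A, ℚ)` of a complex abelian variety `A` is the exterior algebra of `H^1(A, ℚ) = ℚ^n`; the
variety is given, up to isogeny, by the complex structure `J` on `H^1(A, ℝ) = ℝ^n` and a rational
polarisation form `Q` (Riemann).
-/

namespace Pool.Agent.Work.MP_298761_T2

open ExteriorAlgebra Matrix

variable {n : Type} [Fintype n] [DecidableEq n]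

/-- Rational Hodge classes of type `(p,p)` in `H^{2p}(A, ℚ)`: a complex number `a + bi` acts on
`H^1(A, ℝ)` as `a + bJ` and on the class by `|a + bi|^{2p}`. -/
def PolCS.IsHodge (A : PolCS n) (p : ℕ) (ω : ExteriorAlgebra ℚ (n → ℚ)) : Prop :=
  ω ∈ ⋀[ℚ]^(2 * p) (n → ℚ) ∧ ∀ a b : ℝ,
    ExteriorAlgebra.map (a • LinearMap.id + b • Matrix.toLin' A.J) (toReal n ω) =
      (a ^ 2 + b ^ 2) ^ p • toReal n ω

/-- The rational `(1,1)`-classes of `A`, that is, the rational divisor classes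
(Lefschetz `(1,1)`-theorem). -/
def PolCS.NS (A : PolCS n) : Set (ExteriorAlgebra ℚ (n → ℚ)) := {d | A.IsHodge 1 d}

/-- Sums of Hodge classes of `A` (of all degrees): the Hodge classes of `H^{even}(A, ℚ)`. -/
def PolCS.Hdg (A : PolCS n) : Submodule ℚ (ExteriorAlgebra ℚ (n → ℚ)) :=
  Submodule.span ℚ {ω | ∃ p, A.IsHodge p ω}

/-- The endomorphism of `H^1(A, ℚ)` attached to a class `d` of degree 2 by the polarisation. -/
noncomputable def PolCS.endo (A : PolCS n) (d : ExteriorAlgebra ℚ (n → ℚ)) :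
    (n → ℚ) →ₗ[ℚ] (n → ℚ) :=
  MP_298761_T2.endo (Matrix.toBilin' A.Q) d

/-- Global sections of the local system `H^*(A_s, ℚ)`. -/
def AbScheme.IsFlat (A : AbScheme n) (φ : A.S → ExteriorAlgebra ℚ (n → ℚ)) : Prop :=
  ∀ s t, ∀ g ∈ A.trans s t, ExteriorAlgebra.map (Matrix.toLin' (g : Matrix n n ℚ)) (φ s) = φ t

end Pool.Agent.Work.MP_298761_T2
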