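import Pool.Agent.Work.MP_298761_T2.Core
import Pool.Agent.Work.MP_298761_T2.Statement
import Pool.Agent.Work.MP_298761_T2.DIAG
import Pool.Agent.Work.MP_298761_T2.HL
import Pool.Agent.Work.MP_298761_T2.DESC1
import Pool.Agent.Work.MP_298761_T2.DESC2

/-!
# The two-point theorem
-/

namespace Pool.Agent.Work.MP_298761_T2

open ExteriorAlgebra Matrix Module

section General

variable {K : Type*} [Field K] {W : Type*} [AddCommGroup W] [Module K W]

theorem ι_mem_one (v : W) : ι K v ∈ ⋀[K]^1 W := by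
  simpa only [pow_one] using LinearMap.mem_range_self (ι K) v

theorem pl_mem_two {κ : Type*} (z : κ → Fin 2 → W) (k : κ) :
    (pl (K := K) z k : ExteriorAlgebra K W) ∈ ⋀[K]^2 W :=
  SetLike.GradedMul.mul_mem (A := fun i : ℕ => ⋀[K]^i W) (ι_mem_one _) (ι_mem_one _)

theorem mon_mul_mon {κ : Type*} [DecidableEq κ] (z : κ → Fin 2 → W) (S T : Finset κ) :
    mon K z S * mon K z T = if Disjoint S T then mon K z (S ∪ T) else 0 := by
  split_ifs with h
  · rw [mon_union z h]
  · obtain ⟨k, hkS, hkT⟩ := Finset.not_disjoint_iff.mp h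
    rw [← Finset.insert_erase hkS, mon_insert z (Finset.notMem_erase k S), mul_assoc, mul_assoc,
      ← mon_comm, ← mul_assoc (ι K (z k 1)), ι_mul_mon_eq_zero z hkT]
    simp

/-- The algebra generated by the planes is the span of the monomials. -/
theorem adjoin_pl_le_span {κ : Type*} (z : κ → Fin 2 → W) (x : ExteriorAlgebra K W)
    (hx : x ∈ Algebra.adjoin K (Set.range fun k => (pl (K := K) z k : ExteriorAlgebra K W))) :
    x ∈ Submodule.span K (Set.range (mon K z)) := by
  classical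
  induction hx using Algebra.adjoin_induction with
  | mem x hx =>
    obtain ⟨k, rfl⟩ := hx
    refine Submodule.subset_span ⟨{k}, ?_⟩
    simp [mon]
  | algebraMap r =>
    have h1 : (1 : ExteriorAlgebra K W) ∈ Submodule.span K (Set.range (mon K z)) :=
      Submodule.subset_span ⟨∅, by simp⟩
    rw [Algebra.algebraMap_eq_smul_one]
    exact Submodule.smul_mem _ _ h1
  | add x y hx hy ihx ihy => exact Submodule.add_mem _ ihx ihy
  | mul x y hx hy ihx ihy =>
    have h1 := Submodule.mul_mem_mul ihx ihy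
    rw [Submodule.span_mul_span] at h1
    refine Submodule.span_le.mpr ?_ h1
    rintro _ ⟨_, ⟨S, rfl⟩, _, ⟨T, rfl⟩, rfl⟩
    simp only [mon_mul_mon]
    split_ifs
    · exact Submodule.subset_span ⟨_, rfl⟩
    · exact Submodule.zero_mem _

/-- Homogeneous elements of the algebra generated by the planes. -/
theorem exists_coeff {κ : Type*} [Fintype κ] [DecidableEq κ] (z : κ → Fin 2 → W) (p : ℕ)
    (ω : ExteriorAlgebra K W) (hω : ω ∈ ⋀[K]^(2 * p) W)
    (h : ω ∈ Algebra.adjoin K (Set.range fun k => (pl (K := K) z k : ExteriorAlgebra K W))) :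
    ∃ c : Finset κ → K, (∀ S, c S ≠ 0 → S.card = p) ∧ ω = ∑ S, c S • mon K z S := by
  have h1 := adjoin_pl_le_span z ω h
  obtain ⟨c, hc⟩ := (Submodule.mem_span_range_iff_exists_fun K).mp h1
  refine ⟨fun S => if S.card = p then c S else 0, ?_, ?_⟩
  · intro S hS
    by_contra h
    simp [h] at hS
  · have h2 : GradedAlgebra.proj (fun i : ℕ => ⋀[K]^i W) (2 * p) ω = ω := by
      rw [GradedAlgebra.proj_apply]
      exact DirectSum.decompose_of_mem_same _ hω
    rw [← h2, ← hc, map_sum]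
    refine Finset.sum_congr rfl fun S _ => ?_
    rw [map_smul]
    by_cases hS : S.card = p
    · simp only [if_pos hS]
      rw [GradedAlgebra.proj_apply, DirectSum.decompose_of_mem_same]
      rw [← hS]
      exact mon_mem z S
    · simp only [if_neg hS]
      rw [GradedAlgebra.proj_apply,
        DirectSum.decompose_of_mem_ne (fun i : ℕ => ⋀[K]^i W) (mon_mem z S) (by omega)]
      simp

end General

variable {n : Type} [Fintype n] [DecidableEq n]

theorem toReal_adjoin (D : Set (ExteriorAlgebra ℚ (n → ℚ))) (ω : ExteriorAlgebra ℚ (n → ℚ))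
    (h : ω ∈ Algebra.adjoin ℚ D) : toReal n ω ∈ Algebra.adjoin ℝ (toReal n '' D) := by
  induction h using Algebra.adjoin_induction with
  | mem x hx => exact Algebra.subset_adjoin ⟨x, hx, rfl⟩
  | algebraMap r =>
    rw [AlgHom.commutes, IsScalarTower.algebraMap_apply ℚ ℝ]
    exact Subalgebra.algebraMap_mem _ _
  | add x y _ _ hx hy => rw [map_add]; exact Subalgebra.add_mem _ hx hy
  | mul x y _ _ hx hy => rw [map_mul]; exact Subalgebra.mul_mem _ hx hy

theorem adjoin_toReal_le (D : Set (ExteriorAlgebra ℚ (n → ℚ))) (x : ExteriorAlgebra ℝ (n → ℝ))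
    (h : x ∈ Algebra.adjoin ℝ (toReal n '' D)) :
    x ∈ Submodule.span ℝ (toReal n ''
      ((Algebra.adjoin ℚ D).toSubmodule : Set (ExteriorAlgebra ℚ (n → ℚ)))) := by
  induction h using Algebra.adjoin_induction with
  | mem x hx =>
    obtain ⟨d, hd, rfl⟩ := hx
    exact Submodule.subset_span ⟨d, Algebra.subset_adjoin hd, rfl⟩
  | algebraMap r =>
    rw [Algebra.algebraMap_eq_smul_one]
    refine Submodule.smul_mem _ _ (Submodule.subset_span ⟨1, Subalgebra.one_mem _, map_one _⟩)
  | add x y _ _ hx hy => exact Submodule.add_mem _ hx hy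
  | mul x y _ _ hx hy =>
    have h1 := Submodule.mul_mem_mul hx hy
    rw [Submodule.span_mul_span] at h1
    refine Submodule.span_mono ?_ h1
    rintro _ ⟨_, ⟨a, ha, rfl⟩, _, ⟨b, hb, rfl⟩, rfl⟩
    exact ⟨a * b, Subalgebra.mul_mem _ ha hb, map_mul _ _ _⟩

/-- the real polarisation form as a bilinear form. -/
noncomputable abbrev PolCS.QR (A : PolCS n) : (n → ℝ) →ₗ[ℝ] (n → ℝ) →ₗ[ℝ] ℝ :=
  Matrix.toBilin' (A.Q.map (fun q : ℚ => (q : ℝ)))

theorem PolCS.QR_apply (A : PolCS n) (x y : n → ℝ) :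
    A.QR x y = x ⬝ᵥ (A.Q.map (fun q : ℚ => (q : ℝ)) *ᵥ y) := by
  simp [PolCS.QR, Matrix.toBilin'_apply']

theorem PolCS.QR_alt (A : PolCS n) (x : n → ℝ) : A.QR x x = 0 := by
  have h1 : A.QR x x = - A.QR x x := by
    rw [PolCS.QR_apply]
    conv_lhs => rw [Matrix.dotProduct_mulVec, ← Matrix.mulVec_transpose, dotProduct_comm]
    rw [← Matrix.transpose_map, A.Q_alt]
    have : (-A.Q).map (fun q : ℚ => (q : ℝ)) = -(A.Q.map (fun q : ℚ => (q : ℝ))) := by
      ext i j; simp
    rw [this, Matrix.neg_mulVec, dotProduct_neg]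
  linarith

theorem PolCS.J_J (A : PolCS n) (x : n → ℝ) :
    Matrix.toLin' A.J (Matrix.toLin' A.J x) = -x := by
  rw [Matrix.toLin'_apply, Matrix.toLin'_apply, Matrix.mulVec_mulVec, A.J_sq]
  simp [Matrix.neg_mulVec]

theorem PolCS.QR_J (A : PolCS n) (x y : n → ℝ) :
    A.QR (Matrix.toLin' A.J x) (Matrix.toLin' A.J y) = A.QR x y := by
  conv_rhs => rw [PolCS.QR_apply, ← A.Q_J]
  rw [PolCS.QR_apply, Matrix.toLin'_apply, Matrix.toLin'_apply]
  rw [← Matrix.mulVec_mulVec, ← Matrix.mulVec_mulVec, Matrix.dotProduct_mulVec x A.Jᵀ,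
    Matrix.vecMul_transpose]

theorem PolCS.QR_pos (A : PolCS n) (x : n → ℝ) (hx : x ≠ 0) :
    0 < A.QR x (Matrix.toLin' A.J x) := by
  rw [PolCS.QR_apply, Matrix.toLin'_apply]
  exact A.pos x hx

end Pool.Agent.Work.MP_298761_T2
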