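import Pool.Agent.Work.MP_298761_T2.Final1

/-!
# The two-point theorem
-/

namespace Pool.Agent.Work.MP_298761_T2

open ExteriorAlgebra Matrix Module

variable {n : Type} [Fintype n] [DecidableEq n]

/-- Two real endomorphisms which agree on rational vectors agree. -/
theorem ext_of_incl {M : Type*} [AddCommGroup M] [Module ℝ M] (f g : (n → ℝ) →ₗ[ℝ] M)
    (h : ∀ v : n → ℚ, f (incl n v) = g (incl n v)) : f = g := by
  refine (Pi.basisFun ℝ n).ext fun i => ?_
  have h1 : (Pi.basisFun ℝ n) i = incl n (Pi.single i 1) := by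
    ext j
    simp only [Pi.basisFun_apply, incl, LinearMap.compLeft_apply, Function.comp_apply,
      Algebra.linearMap_apply]
    by_cases hij : j = i
    · subst hij; simp
    · simp [Pi.single_eq_of_ne hij]
  rw [h1]
  exact h _

theorem der_toReal_of_hodge (A : PolCS n) (p : ℕ) (ω : ExteriorAlgebra ℚ (n → ℚ))
    (h : A.IsHodge p ω) : der (Matrix.toLin' A.J) (toReal n ω) = 0 :=
  der_eq_zero_of_hodge _ _ p h.2

theorem der_sum_ext {m : ℕ} (h : Fin m → ℝ) (X : Fin m → ((n → ℚ) →ₗ[ℚ] (n → ℚ)))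
    (a : ExteriorAlgebra ℚ (n → ℚ)) :
    der (∑ k, h k • ext (X k)) (toReal n a) = ∑ k, h k • toReal n (der (X k) a) := by
  rw [← derL_apply, map_sum]
  refine Finset.sum_congr rfl fun k _ => ?_
  rw [map_smul, derL_apply, der_ext_toReal]

/-- The components of the complex structure are skew for the polarisation. -/
theorem skew_components (A : PolCS n) {m : ℕ} {h : Fin m → ℝ}
    {X : Fin m → ((n → ℚ) →ₗ[ℚ] (n → ℚ))} (hh : LinearIndependent ℚ h)
    (hJ : Matrix.toLin' A.J = ∑ k, h k • ext (X k)) (k : Fin m) (x y : n → ℝ) :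
    A.QR (ext (X k) x) y = - A.QR x (ext (X k) y) := by
  -- rational version
  have hrat : ∀ v w : n → ℚ, Matrix.toBilin' A.Q (X k v) w + Matrix.toBilin' A.Q v (X k w) = 0 := by
    intro v w
    have hQ : ∀ v w : n → ℚ, A.QR (incl n v) (incl n w) = ((Matrix.toBilin' A.Q v w : ℚ) : ℝ) := by
      intro v w
      simp [PolCS.QR, Matrix.toBilin'_apply, incl]
    have h1 : A.QR (Matrix.toLin' A.J (incl n v)) (incl n w) +
        A.QR (incl n v) (Matrix.toLin' A.J (incl n w)) = 0 := by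
      have h2 := A.QR_J (Matrix.toLin' A.J (incl n v)) (incl n w)
      rw [A.J_J, map_neg, LinearMap.neg_apply] at h2
      linarith
    rw [hJ] at h1
    simp only [LinearMap.sum_apply, LinearMap.smul_apply, map_sum, map_smul, ext_incl, hQ,
      ← Finset.sum_add_distrib] at h1
    have h3 : ∑ k, (Matrix.toBilin' A.Q (X k v) w + Matrix.toBilin' A.Q v (X k w)) • h k = 0 := by
      rw [← h1]
      refine Finset.sum_congr rfl fun j _ => ?_
      rw [Rat.smul_def]
      push_cast
      simp only [smul_eq_mul]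
      ring
    exact (Fintype.linearIndependent_iff.mp hh) _ h3 k
  -- real version
  have h1 : (A.QR ∘ₗ ext (X k)) = -(A.QR.compl₂ (ext (X k))) := by
    refine ext_of_incl _ _ fun v => ?_
    refine ext_of_incl _ _ fun w => ?_
    have hQ : ∀ v w : n → ℚ, A.QR (incl n v) (incl n w) = ((Matrix.toBilin' A.Q v w : ℚ) : ℝ) := by
      intro v w
      simp [PolCS.QR, Matrix.toBilin'_apply, incl]
    simp only [LinearMap.comp_apply, LinearMap.neg_apply, LinearMap.compl₂_apply, ext_incl, hQ]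
    have := hrat v w
    have h2 : Matrix.toBilin' A.Q (X k v) w = - Matrix.toBilin' A.Q v (X k w) := by linarith
    rw [h2]; push_cast; rfl
  have := LinearMap.congr_fun (LinearMap.congr_fun h1 x) y
  simpa using this

/-- **The two-point theorem.** -/
theorem two_point (A₀ A : PolCS n) (D : Set (ExteriorAlgebra ℚ (n → ℚ))) (hD : D ⊆ A₀.NS)
    (hcomm : ∀ d ∈ D, ∀ d' ∈ D, Commute (A₀.endo d) (A₀.endo d')) (p : ℕ)
    (ω : ExteriorAlgebra ℚ (n → ℚ)) (hω : ω ∈ Algebra.adjoin ℚ D) (hH : A.IsHodge p ω) :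
    ω ∈ Algebra.adjoin ℚ A.NS := by
  classical
  -- diagonalise
  obtain ⟨m, b, hb⟩ := diagonalize A₀.QR A₀.QR_alt (Matrix.toLin' A₀.J) A₀.J_J A₀.QR_J
    A₀.QR_pos (toReal n '' D) (by
      rintro _ ⟨d, hd, rfl⟩
      have h1 := hD hd
      exact ⟨toReal_mem _ d h1.1, der_toReal_of_hodge A₀ 1 d h1⟩) (by
      rintro _ ⟨d, hd, rfl⟩ _ ⟨d', hd', rfl⟩ x
      have h1 : (endo A₀.QR (toReal n d)) ∘ₗ (endo A₀.QR (toReal n d')) =
          (endo A₀.QR (toReal n d')) ∘ₗ (endo A₀.QR (toReal n d)) := by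
        refine ext_of_incl _ _ fun v => ?_
        simp only [LinearMap.comp_apply, PolCS.QR, endo_toReal]
        have h2 := hcomm d hd d' hd'
        have h3 := LinearMap.congr_fun h2 v
        simp only [Module.End.mul_apply, PolCS.endo] at h3
        rw [h3]
      exact LinearMap.congr_fun h1 x)
  have hadj : toReal n ω ∈ Algebra.adjoin ℝ (Set.range fun k =>
      (pl (K := ℝ) (bz b) k : ExteriorAlgebra ℝ (n → ℝ))) := by
    refine Algebra.adjoin_le ?_ (toReal_adjoin D ω hω)
    intro d hd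
    have h1 := hb d hd
    exact (Submodule.span_le (p := (Algebra.adjoin ℝ (Set.range fun k =>
      (pl (K := ℝ) (bz b) k : ExteriorAlgebra ℝ (n → ℝ)))).toSubmodule)).mpr
      Algebra.subset_adjoin h1
  obtain ⟨c, hc, hωc⟩ := exists_coeff (bz b) p (toReal n ω) (toReal_mem _ _ hH.1) hadj
  -- components of the complex structure
  obtain ⟨N, h, X, hh, hJ⟩ := exists_components (Matrix.toLin' A.J)
  have hder : ∀ k, der (X k) ω = 0 := by
    have h1 := der_toReal_of_hodge A p ω hH
    rw [hJ, der_sum_ext] at h1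
    exact components_zero hh _ h1
  set 𝔪 : Set ((n → ℝ) →ₗ[ℝ] (n → ℝ)) := Set.range fun k => ext (X k) with h𝔪
  have hnd : ∀ P : Submodule ℝ (n → ℝ), (∀ Y ∈ 𝔪, ∀ x ∈ P, Y x ∈ P) → ∀ x ∈ P,
      (∀ y ∈ P, A.QR x y = 0) → x = 0 := by
    intro P hP x hx hxy
    by_contra hne
    have h1 : Matrix.toLin' A.J x ∈ P := by
      rw [hJ, LinearMap.sum_apply]
      exact Submodule.sum_mem _ fun k _ => by
        rw [LinearMap.smul_apply]
        exact Submodule.smul_mem _ _ (hP _ ⟨k, rfl⟩ x hx)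
    have h2 := A.QR_pos x hne
    rw [hxy _ h1] at h2
    exact lt_irrefl _ h2
  have hcore := core b A.QR A.QR_alt 𝔪 (by
      rintro _ ⟨k, rfl⟩ x y
      exact skew_components A hh hJ k x y) hnd p c hc (by
      rintro _ ⟨k, rfl⟩
      rw [← hωc, der_ext_toReal, hder k, map_zero])
  rw [← hωc] at hcore
  -- descent
  have hgen : ∀ η : ExteriorAlgebra ℝ (n → ℝ), (η ∈ ⋀[ℝ]^2 (n → ℝ) ∧ ∀ Y ∈ 𝔪, der Y η = 0) →
      η ∈ Submodule.span ℝ (toReal n '' A.NS) := by
    rintro η ⟨hη2, hη⟩
    obtain ⟨M, h', a, hh', ha2, hηa⟩ := exists_components_ext 2 η hη2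
    have hda : ∀ k j, der (X k) (a j) = 0 := by
      intro k
      have h1 := hη (ext (X k)) ⟨k, rfl⟩
      rw [hηa, map_sum] at h1
      simp only [map_smul, der_ext_toReal] at h1
      exact components_zero hh' _ h1
    have haNS : ∀ j, a j ∈ A.NS := by
      intro j
      refine ⟨by simpa using ha2 j, fun u v => ?_⟩
      rw [pow_one]
      refine hodge_of_der_eq_zero _ A.J_J _ (toReal_mem 2 _ (ha2 j)) ?_ u v
      rw [hJ, der_sum_ext]
      simp [hda]
    rw [hηa]
    exact Submodule.sum_mem _ fun j _ => Submodule.smul_mem _ _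
      (Submodule.subset_span ⟨a j, haNS j, rfl⟩)
  have hfin : toReal n ω ∈ Algebra.adjoin ℝ (toReal n '' A.NS) := by
    refine Algebra.adjoin_le ?_ hcore
    intro η hη
    exact (Submodule.span_le (p := (Algebra.adjoin ℝ (toReal n '' A.NS)).toSubmodule)).mpr
      Algebra.subset_adjoin (hgen η hη)
  exact mem_of_toReal_mem _ ω (adjoin_toReal_le _ _ hfin)

end Pool.Agent.Work.MP_298761_T2
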