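import Pool.Agent.Work.MP_298761_T2.Final2

/-!
# Inhomogeneous classes and families
-/

namespace Pool.Agent.Work.MP_298761_T2

open ExteriorAlgebra Matrix Module

variable {n : Type} [Fintype n] [DecidableEq n]

/-- The component of degree `i` of a class. -/
noncomputable abbrev comp (i : ℕ) : ExteriorAlgebra ℚ (n → ℚ) →ₗ[ℚ] ExteriorAlgebra ℚ (n → ℚ) :=
  GradedAlgebra.proj (fun i : ℕ => ⋀[ℚ]^i (n → ℚ)) i

theorem comp_same {i : ℕ} {x : ExteriorAlgebra ℚ (n → ℚ)} (h : x ∈ ⋀[ℚ]^i (n → ℚ)) :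
    comp i x = x := by
  rw [comp, GradedAlgebra.proj_apply]
  exact DirectSum.decompose_of_mem_same _ h

theorem comp_ne {i j : ℕ} {x : ExteriorAlgebra ℚ (n → ℚ)} (h : x ∈ ⋀[ℚ]^j (n → ℚ)) (hij : j ≠ i) :
    comp i x = 0 := by
  rw [comp, GradedAlgebra.proj_apply]
  exact DirectSum.decompose_of_mem_ne (fun i : ℕ => ⋀[ℚ]^i (n → ℚ)) h hij

theorem isHodge_zero (A : PolCS n) (p : ℕ) : A.IsHodge p 0 :=
  ⟨Submodule.zero_mem _, fun a b => by simp⟩

theorem isHodge_add (A : PolCS n) (p : ℕ) {x y : ExteriorAlgebra ℚ (n → ℚ)} (hx : A.IsHodge p x)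
    (hy : A.IsHodge p y) : A.IsHodge p (x + y) :=
  ⟨Submodule.add_mem _ hx.1 hy.1, fun a b => by
    rw [map_add, map_add, hx.2, hy.2, smul_add]⟩

theorem isHodge_smul (A : PolCS n) (p : ℕ) (r : ℚ) {x : ExteriorAlgebra ℚ (n → ℚ)}
    (hx : A.IsHodge p x) : A.IsHodge p (r • x) :=
  ⟨Submodule.smul_mem _ _ hx.1, fun a b => by
    have h1 : toReal n (r • x) = (r : ℝ) • toReal n x := by
      rw [map_smul, Rat.cast_smul_eq_qsmul]
    rw [h1, map_smul, hx.2, smul_comm]⟩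

theorem comp_adjoin (A : PolCS n) (D : Set (ExteriorAlgebra ℚ (n → ℚ))) (hD : D ⊆ A.NS) (i : ℕ)
    (x : ExteriorAlgebra ℚ (n → ℚ)) (hx : x ∈ Algebra.adjoin ℚ D) :
    comp i x ∈ Algebra.adjoin ℚ D := by
  have h1 : x ∈ (Algebra.adjoin ℚ D).toSubmodule := hx
  rw [Algebra.adjoin_eq_span] at h1
  induction h1 using Submodule.span_induction with
  | mem m hm =>
    have h2 : ∃ k : ℕ, m ∈ ⋀[ℚ]^(2 * k) (n → ℚ) := by
      have hm' : m ∈ Submonoid.closure D := hm
      clear hx hm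
      induction hm' using Submonoid.closure_induction with
      | mem d hd => exact ⟨1, (hD hd).1⟩
      | one => exact ⟨0, SetLike.GradedOne.one_mem (A := fun i : ℕ => ⋀[ℚ]^i (n → ℚ))⟩
      | mul x y _ _ hx hy =>
        obtain ⟨k, hk⟩ := hx
        obtain ⟨l, hl⟩ := hy
        refine ⟨k + l, ?_⟩
        have := SetLike.GradedMul.mul_mem (A := fun i : ℕ => ⋀[ℚ]^i (n → ℚ)) hk hl
        rwa [← Nat.mul_add] at this
    obtain ⟨k, hk⟩ := h2
    by_cases hki : 2 * k = i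
    · subst hki
      rw [comp_same hk]; exact hx
    · rw [comp_ne hk hki]; exact Subalgebra.zero_mem _
  | zero => rw [map_zero]; exact Subalgebra.zero_mem _
  | add x y hx' hy' ihx ihy =>
    rw [map_add]
    rw [← Algebra.adjoin_eq_span] at hx' hy'
    exact Subalgebra.add_mem _ (ihx hx') (ihy hy')
  | smul r x hx' ihx =>
    rw [map_smul]
    rw [← Algebra.adjoin_eq_span] at hx'
    exact Subalgebra.smul_mem _ (ihx hx') _

theorem comp_hdg (A : PolCS n) (x : ExteriorAlgebra ℚ (n → ℚ)) (hx : x ∈ A.Hdg) :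
    (∀ p, A.IsHodge p (comp (2 * p) x)) ∧ ∀ i, ¬ Even i → comp i x = 0 := by
  unfold PolCS.Hdg at hx
  induction hx using Submodule.span_induction with
  | mem m hm =>
    obtain ⟨q, hq⟩ := hm
    refine ⟨fun p => ?_, fun i hi => ?_⟩
    · by_cases hpq : q = p
      · subst hpq; rw [comp_same hq.1]; exact hq
      · rw [comp_ne hq.1 (by omega)]; exact isHodge_zero A p
    · rw [comp_ne hq.1]
      rintro rfl
      exact hi (even_two_mul q)
  | zero => exact ⟨fun p => by rw [map_zero]; exact isHodge_zero A p, fun i _ => map_zero _⟩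
  | add x y _ _ ihx ihy =>
    refine ⟨fun p => ?_, fun i hi => ?_⟩
    · rw [map_add]; exact isHodge_add A p (ihx.1 p) (ihy.1 p)
    · rw [map_add, ihx.2 i hi, ihy.2 i hi, add_zero]
  | smul r x _ ihx =>
    refine ⟨fun p => ?_, fun i hi => ?_⟩
    · rw [map_smul]; exact isHodge_smul A p r (ihx.1 p)
    · rw [map_smul, ihx.2 i hi, smul_zero]

/-- The two-point theorem for sums of Hodge classes. -/
theorem two_point_total (A₀ A : PolCS n) (D : Set (ExteriorAlgebra ℚ (n → ℚ))) (hD : D ⊆ A₀.NS)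
    (hcomm : ∀ d ∈ D, ∀ d' ∈ D, Commute (A₀.endo d) (A₀.endo d'))
    (ω : ExteriorAlgebra ℚ (n → ℚ)) (hω : ω ∈ Algebra.adjoin ℚ D) (hH : ω ∈ A.Hdg) :
    ω ∈ Algebra.adjoin ℚ A.NS := by
  classical
  have h1 := DirectSum.sum_support_decompose (fun i : ℕ => ⋀[ℚ]^i (n → ℚ)) ω
  rw [← h1]
  refine Subalgebra.sum_mem _ fun i _ => ?_
  have h2 : ((DirectSum.decompose (fun i : ℕ => ⋀[ℚ]^i (n → ℚ)) ω) i :
      ExteriorAlgebra ℚ (n → ℚ)) = comp i ω := by
    rw [comp, GradedAlgebra.proj_apply]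
  rw [h2]
  by_cases hi : Even i
  · obtain ⟨p, hp⟩ := hi
    have hp' : i = 2 * p := by omega
    subst hp'
    exact two_point A₀ A D hD hcomm p _ (comp_adjoin A₀ D hD _ ω hω) ((comp_hdg A ω hH).1 p)
  · rw [(comp_hdg A ω hH).2 i hi]
    exact Subalgebra.zero_mem _

/-! ## Pull back along a rational isomorphism -/

theorem castM_mul (M N : Matrix n n ℚ) : (M * N).map (fun q : ℚ => (q : ℝ)) =
    M.map (fun q : ℚ => (q : ℝ)) * N.map (fun q : ℚ => (q : ℝ)) :=
  Matrix.map_mul (f := Rat.castHom ℝ)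

theorem castM_one : (1 : Matrix n n ℚ).map (fun q : ℚ => (q : ℝ)) = 1 :=
  Matrix.map_one _ Rat.cast_zero Rat.cast_one

theorem castM_inv (g : GL n ℚ) : (g : Matrix n n ℚ).map (fun q : ℚ => (q : ℝ)) *
    ((g⁻¹ : GL n ℚ) : Matrix n n ℚ).map (fun q : ℚ => (q : ℝ)) = 1 := by
  rw [← castM_mul, ← Units.val_mul, mul_inv_cancel, Units.val_one, castM_one]

theorem castM_inv' (g : GL n ℚ) : ((g⁻¹ : GL n ℚ) : Matrix n n ℚ).map (fun q : ℚ => (q : ℝ)) *
    (g : Matrix n n ℚ).map (fun q : ℚ => (q : ℝ)) = 1 := by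
  rw [← castM_mul, ← Units.val_mul, inv_mul_cancel, Units.val_one, castM_one]

theorem castM_conj (G Q : Matrix n n ℚ) : (Gᵀ * Q * G).map (fun q : ℚ => (q : ℝ)) =
    (G.map (fun q : ℚ => (q : ℝ)))ᵀ * Q.map (fun q : ℚ => (q : ℝ)) *
      G.map (fun q : ℚ => (q : ℝ)) := by
  rw [castM_mul, castM_mul, Matrix.transpose_map]

/-- Transport of a polarised complex structure along a rational isomorphism. -/
noncomputable def PolCS.pull (A : PolCS n) (g : GL n ℚ) : PolCS n where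
  J := ((g⁻¹ : GL n ℚ) : Matrix n n ℚ).map (fun q : ℚ => (q : ℝ)) * A.J *
    (g : Matrix n n ℚ).map (fun q : ℚ => (q : ℝ))
  Q := (g : Matrix n n ℚ)ᵀ * A.Q * (g : Matrix n n ℚ)
  J_sq := by
    have h1 := castM_inv g
    have h1' := castM_inv' g
    set G := (g : Matrix n n ℚ).map (fun q : ℚ => (q : ℝ))
    set Gi := ((g⁻¹ : GL n ℚ) : Matrix n n ℚ).map (fun q : ℚ => (q : ℝ))
    calc Gi * A.J * G * (Gi * A.J * G) = Gi * A.J * (G * Gi) * A.J * G := by
          simp only [Matrix.mul_assoc]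
      _ = Gi * (A.J * A.J) * G := by rw [h1, Matrix.mul_one, Matrix.mul_assoc Gi]
      _ = -1 := by rw [A.J_sq, Matrix.mul_neg, Matrix.mul_one, Matrix.neg_mul, h1']
  Q_alt := by
    rw [Matrix.transpose_mul, Matrix.transpose_mul, Matrix.transpose_transpose, A.Q_alt]
    simp only [Matrix.mul_assoc, Matrix.neg_mul, Matrix.mul_neg]
  Q_J := by
    have h1 := castM_inv g
    have hmap := castM_conj (g : Matrix n n ℚ) A.Q
    rw [hmap]
    set G := (g : Matrix n n ℚ).map (fun q : ℚ => (q : ℝ))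
    set Gi := ((g⁻¹ : GL n ℚ) : Matrix n n ℚ).map (fun q : ℚ => (q : ℝ))
    set QR := A.Q.map (fun q : ℚ => (q : ℝ)) with hQR
    have h1t : Giᵀ * Gᵀ = 1 := by rw [← Matrix.transpose_mul, h1, Matrix.transpose_one]
    rw [Matrix.transpose_mul, Matrix.transpose_mul]
    calc Gᵀ * (A.Jᵀ * Giᵀ) * (Gᵀ * QR * G) * (Gi * A.J * G)
        = Gᵀ * A.Jᵀ * (Giᵀ * Gᵀ) * QR * (G * Gi) * A.J * G := by simp only [Matrix.mul_assoc]
      _ = Gᵀ * (A.Jᵀ * QR * A.J) * G := by
          rw [h1, h1t, Matrix.mul_one, Matrix.mul_one]; simp only [Matrix.mul_assoc]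
      _ = Gᵀ * QR * G := by rw [hQR, A.Q_J]
  pos := by
    intro x hx
    have h1 := castM_inv g
    have h1' := castM_inv' g
    have hmap := castM_conj (g : Matrix n n ℚ) A.Q
    rw [hmap]
    set G := (g : Matrix n n ℚ).map (fun q : ℚ => (q : ℝ))
    set Gi := ((g⁻¹ : GL n ℚ) : Matrix n n ℚ).map (fun q : ℚ => (q : ℝ))
    set QR := A.Q.map (fun q : ℚ => (q : ℝ)) with hQR
    have hGx : G *ᵥ x ≠ 0 := by
      intro h0
      apply hx
      have : (Gi * G) *ᵥ x = 0 := by rw [← Matrix.mulVec_mulVec, h0, Matrix.mulVec_zero]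
      rwa [h1', Matrix.one_mulVec] at this
    have h2 := A.pos (G *ᵥ x) hGx
    have h3 : x ⬝ᵥ ((Gᵀ * QR * G) *ᵥ ((Gi * A.J * G) *ᵥ x)) =
        (G *ᵥ x) ⬝ᵥ (QR *ᵥ (A.J *ᵥ (G *ᵥ x))) := by
      rw [Matrix.mulVec_mulVec]
      have h4 : Gᵀ * QR * G * (Gi * A.J * G) = Gᵀ * (QR * (A.J * G)) := by
        calc Gᵀ * QR * G * (Gi * A.J * G) = Gᵀ * QR * (G * Gi) * A.J * G := by
              simp only [Matrix.mul_assoc]
          _ = Gᵀ * (QR * (A.J * G)) := by rw [h1, Matrix.mul_one]; simp only [Matrix.mul_assoc]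
      rw [h4, ← Matrix.mulVec_mulVec, Matrix.dotProduct_mulVec, Matrix.vecMul_transpose,
        ← Matrix.mulVec_mulVec, ← Matrix.mulVec_mulVec]
    rw [h3]
    exact h2

theorem incl_apply (v : n → ℚ) (i : n) : incl n v i = (v i : ℝ) := rfl

/-- `toReal` and functoriality. -/
theorem toReal_map (G : Matrix n n ℚ) (ω : ExteriorAlgebra ℚ (n → ℚ)) :
    toReal n (ExteriorAlgebra.map (Matrix.toLin' G) ω) =
      ExteriorAlgebra.map (Matrix.toLin' (G.map (fun q : ℚ => (q : ℝ)))) (toReal n ω) := by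
  have hι : ∀ v : n → ℚ, toReal n (ι ℚ v) = ι ℝ (incl n v) := by
    intro v
    simp [toReal]
  induction ω using ExteriorAlgebra.induction with
  | algebraMap r =>
    rw [AlgHom.commutes, AlgHom.commutes, IsScalarTower.algebraMap_apply ℚ ℝ, AlgHom.commutes]
  | ι v =>
    rw [map_apply_ι, hι, hι, map_apply_ι]
    congr 1
    ext i
    rw [incl_apply]
    simp only [Matrix.toLin'_apply, Matrix.mulVec, dotProduct, incl_apply, Matrix.map_apply]
    push_cast
    rfl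
  | mul a b ha hb => rw [map_mul, map_mul, ha, hb, map_mul, map_mul]
  | add a b ha hb => rw [map_add, map_add, ha, hb, map_add, map_add]

theorem map_mem_pow (G : Matrix n n ℚ) (i : ℕ) (ω : ExteriorAlgebra ℚ (n → ℚ))
    (h : ω ∈ ⋀[ℚ]^i (n → ℚ)) : ExteriorAlgebra.map (Matrix.toLin' G) ω ∈ ⋀[ℚ]^i (n → ℚ) := by
  rw [← ExteriorAlgebra.ιMulti_span_fixedDegree] at h ⊢
  induction h using Submodule.span_induction with
  | mem x hx =>
    obtain ⟨v, rfl⟩ := hx
    rw [ExteriorAlgebra.map_apply_ιMulti]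
    exact Submodule.subset_span ⟨_, rfl⟩
  | zero => rw [map_zero]; exact Submodule.zero_mem _
  | add x y _ _ hx hy => rw [map_add]; exact Submodule.add_mem _ hx hy
  | smul r x _ hx => rw [map_smul]; exact Submodule.smul_mem _ _ hx

/-- Hodge classes and transport. -/
theorem isHodge_pull (A : PolCS n) (g : GL n ℚ) (p : ℕ) (ω : ExteriorAlgebra ℚ (n → ℚ)) :
    (A.pull g).IsHodge p ω ↔
      A.IsHodge p (ExteriorAlgebra.map (Matrix.toLin' (g : Matrix n n ℚ)) ω) := by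
  have h0 : (g : Matrix n n ℚ) * ((g⁻¹ : GL n ℚ) : Matrix n n ℚ) = 1 := by
    rw [← Units.val_mul, mul_inv_cancel, Units.val_one]
  have h0' : ((g⁻¹ : GL n ℚ) : Matrix n n ℚ) * (g : Matrix n n ℚ) = 1 := by
    rw [← Units.val_mul, inv_mul_cancel, Units.val_one]
  have h1 := castM_inv g
  have h1' := castM_inv' g
  set G := (g : Matrix n n ℚ).map (fun q : ℚ => (q : ℝ)) with hG
  set Gi := ((g⁻¹ : GL n ℚ) : Matrix n n ℚ).map (fun q : ℚ => (q : ℝ)) with hGi
  have hJ : (A.pull g).J = Gi * A.J * G := rfl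
  -- the intertwining relation
  have hint : ∀ a b : ℝ, (a • LinearMap.id + b • Matrix.toLin' A.J) ∘ₗ Matrix.toLin' G =
      Matrix.toLin' G ∘ₗ (a • LinearMap.id + b • Matrix.toLin' (A.pull g).J) := by
    intro a b
    rw [hJ, LinearMap.add_comp, LinearMap.comp_add, LinearMap.smul_comp, LinearMap.smul_comp,
      LinearMap.comp_smul, LinearMap.comp_smul, LinearMap.id_comp, LinearMap.comp_id,
      ← Matrix.toLin'_mul, ← Matrix.toLin'_mul, ← Matrix.mul_assoc, ← Matrix.mul_assoc, h1,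
      Matrix.one_mul]
  have hmap : ∀ a b : ℝ, ExteriorAlgebra.map (a • LinearMap.id + b • Matrix.toLin' A.J)
      (toReal n (ExteriorAlgebra.map (Matrix.toLin' (g : Matrix n n ℚ)) ω)) =
      ExteriorAlgebra.map (Matrix.toLin' G)
        (ExteriorAlgebra.map (a • LinearMap.id + b • Matrix.toLin' (A.pull g).J) (toReal n ω)) := by
    intro a b
    rw [toReal_map, ← AlgHom.comp_apply, ← AlgHom.comp_apply, ExteriorAlgebra.map_comp_map,
      ExteriorAlgebra.map_comp_map, hint]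
  have hinj : Function.Injective (ExteriorAlgebra.map (Matrix.toLin' G)) := by
    intro x y hxy
    have h2 := congrArg (ExteriorAlgebra.map (Matrix.toLin' Gi)) hxy
    rw [← AlgHom.comp_apply, ← AlgHom.comp_apply, ExteriorAlgebra.map_comp_map,
      ← Matrix.toLin'_mul, h1', Matrix.toLin'_one] at h2
    simpa using h2
  constructor
  · rintro ⟨h2, h3⟩
    refine ⟨map_mem_pow _ _ _ h2, fun a b => ?_⟩
    rw [hmap, h3, map_smul, toReal_map]
  · rintro ⟨h2, h3⟩
    refine ⟨?_, fun a b => ?_⟩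
    · have h4 := map_mem_pow ((g⁻¹ : GL n ℚ) : Matrix n n ℚ) _ _ h2
      rw [← AlgHom.comp_apply, ExteriorAlgebra.map_comp_map, ← Matrix.toLin'_mul, h0',
        Matrix.toLin'_one] at h4
      simpa using h4
    · apply hinj
      rw [← hmap, h3, map_smul, toReal_map]

theorem hdg_pull (A : PolCS n) (g : GL n ℚ) (ω : ExteriorAlgebra ℚ (n → ℚ))
    (h : ExteriorAlgebra.map (Matrix.toLin' (g : Matrix n n ℚ)) ω ∈ A.Hdg) :
    ω ∈ (A.pull g).Hdg := by
  have h0' : ((g⁻¹ : GL n ℚ) : Matrix n n ℚ) * (g : Matrix n n ℚ) = 1 := by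
    rw [← Units.val_mul, inv_mul_cancel, Units.val_one]
  have h0 : (g : Matrix n n ℚ) * ((g⁻¹ : GL n ℚ) : Matrix n n ℚ) = 1 := by
    rw [← Units.val_mul, mul_inv_cancel, Units.val_one]
  have key : ∀ x ∈ A.Hdg,
      ExteriorAlgebra.map (Matrix.toLin' ((g⁻¹ : GL n ℚ) : Matrix n n ℚ)) x ∈ (A.pull g).Hdg := by
    intro x hx
    unfold PolCS.Hdg at hx
    induction hx using Submodule.span_induction with
    | mem m hm =>
      obtain ⟨q, hq⟩ := hm
      refine Submodule.subset_span ⟨q, ?_⟩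
      rw [isHodge_pull, ← AlgHom.comp_apply, ExteriorAlgebra.map_comp_map, ← Matrix.toLin'_mul, h0,
        Matrix.toLin'_one]
      simpa using hq
    | zero => rw [map_zero]; exact Submodule.zero_mem _
    | add x y _ _ ihx ihy => rw [map_add]; exact Submodule.add_mem _ ihx ihy
    | smul r x _ ihx => rw [map_smul]; exact Submodule.smul_mem _ _ ihx
  have h2 := key _ h
  rw [← AlgHom.comp_apply, ExteriorAlgebra.map_comp_map, ← Matrix.toLin'_mul, h0',
    Matrix.toLin'_one] at h2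
  simpa using h2

theorem adjoin_pull (A : PolCS n) (g : GL n ℚ) (ω : ExteriorAlgebra ℚ (n → ℚ))
    (h : ω ∈ Algebra.adjoin ℚ (A.pull g).NS) :
    ExteriorAlgebra.map (Matrix.toLin' (g : Matrix n n ℚ)) ω ∈ Algebra.adjoin ℚ A.NS := by
  induction h using Algebra.adjoin_induction with
  | mem x hx => exact Algebra.subset_adjoin ((isHodge_pull A g 1 x).mp hx)
  | algebraMap r => rw [AlgHom.commutes]; exact Subalgebra.algebraMap_mem _ _
  | add x y _ _ hx hy => rw [map_add]; exact Subalgebra.add_mem _ hx hy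
  | mul x y _ _ hx hy => rw [map_mul]; exact Subalgebra.mul_mem _ hx hy

/-- **The theorem for families of abelian varieties.** -/
theorem vhc_abelian (A : AbScheme n) (φ : A.S → ExteriorAlgebra ℚ (n → ℚ)) (hflat : A.IsFlat φ)
    (hHodge : ∀ s, φ s ∈ (A.fib s).Hdg) (o : A.S) (B : PolCS n)
    (D : Set (ExteriorAlgebra ℚ (n → ℚ))) (hD : D ⊆ B.NS)
    (hcomm : ∀ d ∈ D, ∀ d' ∈ D, Commute (B.endo d) (B.endo d'))
    (ho : φ o ∈ Algebra.adjoin ℚ D) (s : A.S) : φ s ∈ Algebra.adjoin ℚ (A.fib s).NS := by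
  obtain ⟨g, hg⟩ := A.conn o s
  rw [← hflat o s g hg]
  apply adjoin_pull
  refine two_point_total B ((A.fib s).pull g) D hD hcomm (φ o) ho (hdg_pull _ g _ ?_)
  rw [hflat o s g hg]
  exact hHodge s

end Pool.Agent.Work.MP_298761_T2
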