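import Pool.Agent.Work.MP_298761_T2.BaseDefs

/-!
# Block REL: the coefficient relations
-/

namespace Pool.Agent.Work.MP_298761_T2

open ExteriorAlgebra Module

section Rel

variable {K : Type*} [Field K] {W : Type*} [AddCommGroup W] [Module K W]
variable {κ : Type*}

/-- The projection onto the span of the basis vectors with index in `T`. -/
noncomputable def RELq (b : Basis (κ × Fin 2) K W) (T : Finset (κ × Fin 2)) : W →ₗ[K] W :=
  ∑ u ∈ T, (b.coord u).smulRight (b u)

theorem RELq_apply (b : Basis (κ × Fin 2) K W) (T : Finset (κ × Fin 2)) (w : W) :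
    RELq b T w = ∑ u ∈ T, b.repr w u • b u := by
  simp [RELq]

theorem RELq_basis [DecidableEq κ] (b : Basis (κ × Fin 2) K W) (T : Finset (κ × Fin 2))
    (v : κ × Fin 2) : RELq b T (b v) = if v ∈ T then b v else 0 := by
  rw [RELq_apply]
  simp [Basis.repr_self, Finsupp.single_apply]

theorem REL_mon_congr {z z' : κ → Fin 2 → W} {S : Finset κ}
    (h : ∀ j ∈ S, ∀ s, z j s = z' j s) : mon K z S = mon K z' S := by
  have h2 : ∀ j ∈ S, pl (K := K) z j = pl (K := K) z' j := fun j hj =>
    Subtype.ext (by simp only [pl]; rw [h j hj 0, h j hj 1])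
  unfold mon
  rw [Finset.prod_congr rfl h2]

theorem REL_mon_zero [DecidableEq κ] {z : κ → Fin 2 → W} {S : Finset κ} {j : κ} (hj : j ∈ S)
    {s : Fin 2} (h : z j s = 0) : mon K z S = 0 := by
  rw [← Finset.insert_erase hj, mon_insert z (Finset.notMem_erase j S)]
  fin_cases s
  · simp only [Fin.zero_eta, Fin.isValue] at h
    simp [h]
  · simp only [Fin.mk_one, Fin.isValue] at h
    simp [h]

theorem REL_map_mon [DecidableEq κ] (q : W →ₗ[K] W) (z : κ → Fin 2 → W) (S : Finset κ) :
    ExteriorAlgebra.map q (mon K z S) = mon K (fun k s => q (z k s)) S := by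
  induction S using Finset.induction_on with
  | empty => simp
  | insert k S hk ih =>
    rw [mon_insert _ hk, mon_insert _ hk, map_mul, map_mul, ih]
    simp

theorem REL_sum2 {A : Type*} [AddCommMonoid A] (s : Fin 2) (F : Fin 2 → A) :
    ∑ s', F s' = F s + F s.rev := by
  fin_cases s
  · simp [Fin.sum_univ_two]
  · simp [Fin.sum_univ_two, add_comm]

theorem REL_map_der_pl (q X : W →ₗ[K] W) (z : κ → Fin 2 → W) (m : κ) :
    ExteriorAlgebra.map q (der X (pl (K := K) z m : ExteriorAlgebra K W)) =
      ∑ s, sg K s • (ι K (q (z m s)) * ι K (q (X (z m s.rev)))) := by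
  rw [der_pl, Fin.sum_univ_two]
  simp only [map_add, map_mul, ExteriorAlgebra.map_apply_ι, sg, Fin.isValue, Matrix.cons_val_zero,
    Matrix.cons_val_one, one_smul, neg_smul]
  have e0 : (0 : Fin 2).rev = 1 := rfl
  have e1 : (1 : Fin 2).rev = 0 := rfl
  rw [e0, e1, ← ι_mul_ι_comm, add_comm]

/-- contraction with the coordinate `u` -/
noncomputable abbrev RELd (b : Basis (κ × Fin 2) K W) (u : κ × Fin 2) :
    ExteriorAlgebra K W →ₗ[K] ExteriorAlgebra K W :=
  CliffordAlgebra.contractLeft (Q := (0 : QuadraticForm K W)) (b.coord u)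

theorem RELd_self (b : Basis (κ × Fin 2) K W) (u : κ × Fin 2) (a : ExteriorAlgebra K W)
    (ha : RELd b u a = 0) : RELd b u (ι K (b u) * a) = a := by
  have := CliffordAlgebra.contractLeft_ι_mul (Q := (0 : QuadraticForm K W)) (d := b.coord u)
    (b u) a
  change RELd b u (ι K (b u) * a) = b.coord u (b u) • a - ι K (b u) * RELd b u a at this
  rw [this, ha]
  simp

theorem RELd_ne (b : Basis (κ × Fin 2) K W) (u v : κ × Fin 2) (huv : v ≠ u)
    (a : ExteriorAlgebra K W) (ha : RELd b u a = 0) : RELd b u (ι K (b v) * a) = 0 := by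
  have := CliffordAlgebra.contractLeft_ι_mul (Q := (0 : QuadraticForm K W)) (d := b.coord u)
    (b v) a
  change RELd b u (ι K (b v) * a) = b.coord u (b v) • a - ι K (b v) * RELd b u a at this
  rw [this, ha]
  simp [Basis.coord_apply, Finsupp.single_apply, huv]

theorem RELd_mon [DecidableEq κ] (b : Basis (κ × Fin 2) K W) (R : Finset κ) (k : κ) (hk : k ∉ R)
    (s : Fin 2) : RELd b (k, s) (mon K (bz b) R) = 0 := by
  induction R using Finset.induction_on with
  | empty =>
    rw [mon_empty]
    exact CliffordAlgebra.contractLeft_one (Q := (0 : QuadraticForm K W)) (d := b.coord (k, s))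
  | insert r R hr ih =>
    rw [Finset.mem_insert, not_or] at hk
    rw [mon_insert _ hr, mul_assoc]
    have h1 : ∀ t : Fin 2, ((r, t) : κ × Fin 2) ≠ (k, s) := fun t h => hk.1 (congrArg Prod.fst h).symm
    exact RELd_ne b _ _ (h1 0) _ (RELd_ne b _ _ (h1 1) _ (ih hk.2))

theorem REL_mon_ne_zero [DecidableEq κ] (b : Basis (κ × Fin 2) K W) (R : Finset κ) :
    mon K (bz b) R ≠ 0 := by
  induction R using Finset.induction_on with
  | empty =>
    rw [mon_empty]
    exact one_ne_zero
  | insert r R hr ih =>
    rw [mon_insert _ hr, mul_assoc]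
    intro h0
    apply ih
    have h1 : RELd b (r, 0) (ι K (b (r, 1)) * mon K (bz b) R) = 0 :=
      RELd_ne b _ _ (by simp) _ (RELd_mon b R r hr 0)
    have h2 := RELd_self b (r, 0) _ h1
    change ι K (b (r, 0)) * (ι K (b (r, 1)) * mon K (bz b) R) = 0 at h0
    rw [h0, map_zero] at h2
    have h3 := RELd_self b (r, 1) _ (RELd_mon b R r hr 1)
    rw [← h2, map_zero] at h3
    exact h3.symm

theorem REL_two_ne_zero [DecidableEq κ] (b : Basis (κ × Fin 2) K W) (R : Finset κ) {k l : κ}
    (hkl : k ≠ l) (hk : k ∉ R) (hl : l ∉ R) (s t : Fin 2) :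
    ι K (b (k, s)) * (ι K (b (l, t)) * mon K (bz b) R) ≠ 0 := by
  intro h0
  apply REL_mon_ne_zero b R
  have h1 : RELd b (k, s) (ι K (b (l, t)) * mon K (bz b) R) = 0 :=
    RELd_ne b _ _ (fun h => hkl (congrArg Prod.fst h).symm) _ (RELd_mon b R k hk s)
  have h2 := RELd_self b (k, s) _ h1
  rw [h0, map_zero] at h2
  have h3 := RELd_self b (l, t) _ (RELd_mon b R l hl t)
  rw [← h2, map_zero] at h3
  exact h3.symm

variable [Fintype κ] [DecidableEq κ]

theorem REL_image (q X : W →ₗ[K] W) (z : κ → Fin 2 → W) (c : Finset κ → K)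
    (hX : der X (∑ S, c S • mon K z S) = 0) :
    ∑ S, c S • ∑ m ∈ S, ExteriorAlgebra.map q (der X (pl (K := K) z m : ExteriorAlgebra K W)) *
      mon K (fun k s => q (z k s)) (S.erase m) = 0 := by
  have h := congrArg (ExteriorAlgebra.map q) hX
  rw [map_zero, map_sum, map_sum] at h
  rw [← h]
  refine Finset.sum_congr rfl fun S _ => ?_
  rw [map_smul, map_smul, der_mon, map_sum]
  congr 1
  refine Finset.sum_congr rfl fun m _ => ?_
  rw [map_mul, REL_map_mon]

theorem rel (b : Basis (κ × Fin 2) K W) (X : W →ₗ[K] W) (p : ℕ) (c : Finset κ → K)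
    (hc : ∀ S, c S ≠ 0 → S.card = p) (hX : der X (∑ S, c S • mon K (bz b) S) = 0)
    {k l : κ} (hkl : k ≠ l) {R : Finset κ} (hk : k ∉ R) (hl : l ∉ R) (s t : Fin 2) :
    c (insert k R) * (sg K s * ent b X (l, t) (k, s.rev)) =
      c (insert l R) * (sg K t * ent b X (k, s) (l, t.rev)) := by
  by_cases hp : R.card + 1 = p
  swap
  · have h1 : c (insert k R) = 0 := by
      by_contra h0
      exact hp (by rw [← hc _ h0, Finset.card_insert_of_notMem hk])
    have h2 : c (insert l R) = 0 := by
      by_contra h0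
      exact hp (by rw [← hc _ h0, Finset.card_insert_of_notMem hl])
    rw [h1, h2]
    ring
  set T : Finset (κ × Fin 2) := insert (k, s) (insert (l, t) (R ×ˢ Finset.univ)) with hT
  set q := RELq b T with hq
  set z := bz b with hz
  set z' : κ → Fin 2 → W := fun k s => q (z k s) with hz'
  have hz'v : ∀ j s', z' j s' = if (j, s') ∈ T then b (j, s') else 0 := fun j s' =>
    RELq_basis b T (j, s')
  have hrev : ∀ s : Fin 2, s.rev ≠ s := by decide
  have hkT : ((k, s.rev) : κ × Fin 2) ∉ T := by
    simp [hT, hrev s, hkl, hk]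
  have hlT : ((l, t.rev) : κ × Fin 2) ∉ T := by
    simp [hT, hrev t, Ne.symm hkl, hl]
  have hoT : ∀ j s', j ∉ R → j ≠ k → j ≠ l → ((j, s') : κ × Fin 2) ∉ T := by
    intro j s' h1 h2 h3
    simp [hT, h1, h2, h3]
  have hRT : ∀ j s', j ∈ R → ((j, s') : κ × Fin 2) ∈ T := by
    intro j s' h1
    simp [hT, h1]
  have hzero : ∀ j, j ∉ R → ∃ s', z' j s' = 0 := by
    intro j hj
    by_cases h1 : j = k
    · exact ⟨s.rev, by rw [hz'v, h1, if_neg hkT]⟩
    · by_cases h2 : j = l
      · exact ⟨t.rev, by rw [hz'v, h2, if_neg hlT]⟩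
      · exact ⟨0, by rw [hz'v, if_neg (hoT j 0 hj h1 h2)]⟩
  have hmonR : mon K z' R = mon K z R := by
    refine REL_mon_congr fun j hj s' => ?_
    rw [hz'v, if_pos (hRT j s' hj)]
    rfl
  have hI := REL_image q X z c hX
  have hmain : ∀ j, j ∉ R → (j = k ∨ j = l) →
      (∑ m ∈ insert j R, ExteriorAlgebra.map q (der X (pl (K := K) z m : ExteriorAlgebra K W)) *
        mon K z' ((insert j R).erase m)) =
      ExteriorAlgebra.map q (der X (pl (K := K) z j : ExteriorAlgebra K W)) * mon K z R := by
    intro j hj _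
    rw [Finset.sum_insert hj, Finset.erase_insert hj, hmonR, Finset.sum_eq_zero, add_zero]
    intro m hm
    have hmj : j ≠ m := fun e => hj (e ▸ hm)
    obtain ⟨s', hs'⟩ := hzero j hj
    rw [REL_mon_zero (j := j) (s := s') (Finset.mem_erase.mpr ⟨hmj, Finset.mem_insert_self _ _⟩) hs',
      mul_zero]
  have hsum := Fintype.sum_eq_add (insert k R) (insert l R)
    (f := fun S => c S • ∑ m ∈ S, ExteriorAlgebra.map q
      (der X (pl (K := K) z m : ExteriorAlgebra K W)) * mon K z' (S.erase m))
    (fun h => by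
      have : k ∈ insert l R := h ▸ Finset.mem_insert_self k R
      rcases Finset.mem_insert.mp this with h | h
      · exact hkl h
      · exact hk h)
    (by
      rintro S ⟨h1, h2⟩
      by_cases hS : c S = 0
      · simp [hS]
      have hcard := hc S hS
      have : (∑ m ∈ S, ExteriorAlgebra.map q
        (der X (pl (K := K) z m : ExteriorAlgebra K W)) * mon K z' (S.erase m)) = 0 := by
        refine Finset.sum_eq_zero fun m hm => ?_
        by_cases hsub : S.erase m ⊆ R
        · have heq : S.erase m = R := Finset.eq_of_subset_of_card_le hsub (by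
            rw [Finset.card_erase_of_mem hm, hcard, ← hp]; simp)
          have hSm : S = insert m R := by rw [← heq, Finset.insert_erase hm]
          have hmR : m ∉ R := by rw [← heq]; exact Finset.notMem_erase m S
          have hmk : m ≠ k := fun e => h1 (by rw [hSm, e])
          have hml : m ≠ l := fun e => h2 (by rw [hSm, e])
          rw [REL_map_der_pl]
          have : ∀ s', q (z m s') = 0 := fun s' => by
            have := hz'v m s'
            rw [if_neg (hoT m s' hmR hmk hml)] at this
            exact this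
          simp [this]
        · obtain ⟨j, hj, hjR⟩ := Finset.not_subset.mp hsub
          obtain ⟨s', hs'⟩ := hzero j hjR
          rw [REL_mon_zero hj hs', mul_zero]
      simp [this])
  rw [hI, hmain k hk (Or.inl rfl), hmain l hl (Or.inr rfl), REL_map_der_pl, REL_map_der_pl,
    REL_sum2 s, REL_sum2 t] at hsum
  have a1 : q (z k s) = b (k, s) := by
    have := hz'v k s
    rw [if_pos (by simp [hT])] at this
    exact this
  have a2 : q (z k s.rev) = 0 := by
    have := hz'v k s.rev
    rw [if_neg hkT] at this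
    exact this
  have a3 : q (z l t) = b (l, t) := by
    have := hz'v l t
    rw [if_pos (by simp [hT])] at this
    exact this
  have a4 : q (z l t.rev) = 0 := by
    have := hz'v l t.rev
    rw [if_neg hlT] at this
    exact this
  have hexp : ∀ w : W, ι K (q w) * mon K z R =
      b.repr w (k, s) • (ι K (b (k, s)) * mon K z R) +
        b.repr w (l, t) • (ι K (b (l, t)) * mon K z R) := by
    intro w
    have hkn : ((k, s) : κ × Fin 2) ∉ insert (l, t) (R ×ˢ (Finset.univ : Finset (Fin 2))) := by
      simp [hkl, hk]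
    have hln : ((l, t) : κ × Fin 2) ∉ (R ×ˢ (Finset.univ : Finset (Fin 2))) := by
      simp [hl]
    have hz0 : ∑ u ∈ R ×ˢ (Finset.univ : Finset (Fin 2)),
        b.repr w u • (ι K (b u) * mon K z R) = 0 := by
      refine Finset.sum_eq_zero fun u hu => ?_
      have hu1 : u.1 ∈ R := (Finset.mem_product.mp hu).1
      have := ι_mul_mon_eq_zero (K := K) z hu1 u.2
      change ι K (b (u.1, u.2)) * mon K z R = 0 at this
      rw [Prod.mk.eta] at this
      rw [this, smul_zero]
    rw [hq, RELq_apply, map_sum, Finset.sum_mul]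
    simp only [map_smul, smul_mul_assoc]
    rw [hT, Finset.sum_insert hkn, Finset.sum_insert hln, hz0, add_zero]
  rw [a1, a2, a3, a4] at hsum
  simp only [map_zero, zero_mul, smul_zero, add_zero, smul_mul_assoc, mul_assoc, hexp, mul_add,
    mul_smul_comm] at hsum
  have hsq : ∀ v a, ι K v * (ι K v * a) = (0 : ExteriorAlgebra K W) := fun v a => by
    rw [← mul_assoc, ι_sq_zero, zero_mul]
  have hsw : ι K (b (l, t)) * (ι K (b (k, s)) * mon K z R) =
      -(ι K (b (k, s)) * (ι K (b (l, t)) * mon K z R)) := by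
    rw [← mul_assoc, ι_mul_ι_comm, neg_mul, mul_assoc]
  rw [hsq, hsq, hsw] at hsum
  have hN := REL_two_ne_zero b R hkl hk hl s t
  set N := ι K (b (k, s)) * (ι K (b (l, t)) * mon K z R) with hNdef
  have e1 : b.repr (X (z k s.rev)) (l, t) = ent b X (l, t) (k, s.rev) := rfl
  have e2 : b.repr (X (z l t.rev)) (k, s) = ent b X (k, s) (l, t.rev) := rfl
  rw [e1, e2] at hsum
  simp only [smul_zero, zero_add, add_zero, smul_neg, smul_smul] at hsum
  have hfin : (c (insert k R) * (sg K s * ent b X (l, t) (k, s.rev)) -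
      c (insert l R) * (sg K t * ent b X (k, s) (l, t.rev))) • N = 0 := by
    rw [sub_smul, sub_eq_add_neg]
    exact hsum.symm
  rcases smul_eq_zero.mp hfin with h | h
  · exact sub_eq_zero.mp h
  · exact absurd h hN

theorem rel_diag (b : Basis (κ × Fin 2) K W) (X : W →ₗ[K] W) (p : ℕ) (c : Finset κ → K)
    (hc : ∀ S, c S ≠ 0 → S.card = p) (hX : der X (∑ S, c S • mon K (bz b) S) = 0)
    (S : Finset κ) :
    c S * ∑ k ∈ S, (ent b X (k, 0) (k, 0) + ent b X (k, 1) (k, 1)) = 0 := by
  by_cases hcS : c S = 0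
  · rw [hcS, zero_mul]
  have hp := hc S hcS
  set T : Finset (κ × Fin 2) := S ×ˢ Finset.univ with hT
  set q := RELq b T with hq
  set z := bz b with hz
  set z' : κ → Fin 2 → W := fun k s => q (z k s) with hz'
  have hz'v : ∀ j s', z' j s' = if (j, s') ∈ T then b (j, s') else 0 := fun j s' =>
    RELq_basis b T (j, s')
  have hoT : ∀ j s', j ∉ S → ((j, s') : κ × Fin 2) ∉ T := by
    intro j s' h1
    simp [hT, h1]
  have hiT : ∀ j s', j ∈ S → ((j, s') : κ × Fin 2) ∈ T := by
    intro j s' h1
    simp [hT, h1]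
  have hI := REL_image q X z c hX
  rw [Fintype.sum_eq_single S] at hI
  swap
  · intro S' hS'
    by_cases hc' : c S' = 0
    · simp [hc']
    have hp' := hc S' hc'
    have : (∑ m ∈ S', ExteriorAlgebra.map q
        (der X (pl (K := K) z m : ExteriorAlgebra K W)) * mon K z' (S'.erase m)) = 0 := by
      refine Finset.sum_eq_zero fun m hm => ?_
      by_cases hmS : m ∈ S
      · have : ¬ S'.erase m ⊆ S := by
          intro hsub
          apply hS'
          refine Finset.eq_of_subset_of_card_le (fun x hx => ?_) (by rw [hp, hp'])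
          by_cases hxm : x = m
          · exact hxm ▸ hmS
          · exact hsub (Finset.mem_erase.mpr ⟨hxm, hx⟩)
        obtain ⟨j, hj, hjS⟩ := Finset.not_subset.mp this
        rw [REL_mon_zero (j := j) (s := 0) hj (by rw [hz'v, if_neg (hoT j 0 hjS)]), mul_zero]
      · rw [REL_map_der_pl]
        have : ∀ s', q (z m s') = 0 := fun s' => by
          have := hz'v m s'
          rw [if_neg (hoT m s' hmS)] at this
          exact this
        simp [this]
    change c S' • (∑ m ∈ S', ExteriorAlgebra.map q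
        (der X (pl (K := K) z m : ExteriorAlgebra K W)) * mon K z' (S'.erase m)) = 0
    rw [this, smul_zero]
  have hterm : ∀ m ∈ S, ExteriorAlgebra.map q
      (der X (pl (K := K) z m : ExteriorAlgebra K W)) * mon K z' (S.erase m) =
      (ent b X (m, 0) (m, 0) + ent b X (m, 1) (m, 1)) • mon K z S := by
    intro m hm
    have hmon : mon K z' (S.erase m) = mon K z (S.erase m) := by
      refine REL_mon_congr fun j hj s' => ?_
      rw [hz'v, if_pos (hiT j s' (Finset.mem_of_mem_erase hj))]
      rfl
    have hqz : ∀ s', q (z m s') = b (m, s') := fun s' => by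
      have := hz'v m s'
      rw [if_pos (hiT m s' hm)] at this
      exact this
    have hTm : T = insert (m, 0) (insert (m, 1) ((S.erase m) ×ˢ Finset.univ)) := by
      ext ⟨j, s'⟩
      simp only [hT, Finset.mem_product, Finset.mem_univ, and_true, Finset.mem_insert,
        Prod.mk.injEq, Finset.mem_erase]
      constructor
      · intro hj
        by_cases hjm : j = m
        · fin_cases s'
          · left; exact ⟨hjm, rfl⟩
          · right; left; exact ⟨hjm, rfl⟩
        · right; right; exact ⟨hjm, hj⟩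
      · rintro (⟨rfl, _⟩ | ⟨rfl, _⟩ | ⟨_, h⟩)
        · exact hm
        · exact hm
        · exact h
    have hexp : ∀ w : W, ι K (q w) * mon K z (S.erase m) =
        b.repr w (m, 0) • (ι K (b (m, 0)) * mon K z (S.erase m)) +
          b.repr w (m, 1) • (ι K (b (m, 1)) * mon K z (S.erase m)) := by
      intro w
      have hkn : ((m, 0) : κ × Fin 2) ∉
          insert (m, 1) ((S.erase m) ×ˢ (Finset.univ : Finset (Fin 2))) := by simp
      have hln : ((m, 1) : κ × Fin 2) ∉ ((S.erase m) ×ˢ (Finset.univ : Finset (Fin 2))) := by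
        simp
      have hz0 : ∑ u ∈ (S.erase m) ×ˢ (Finset.univ : Finset (Fin 2)),
          b.repr w u • (ι K (b u) * mon K z (S.erase m)) = 0 := by
        refine Finset.sum_eq_zero fun u hu => ?_
        have hu1 : u.1 ∈ S.erase m := (Finset.mem_product.mp hu).1
        have := ι_mul_mon_eq_zero (K := K) z hu1 u.2
        change ι K (b (u.1, u.2)) * mon K z (S.erase m) = 0 at this
        rw [Prod.mk.eta] at this
        rw [this, smul_zero]
      rw [hq, RELq_apply, map_sum, Finset.sum_mul]
      simp only [map_smul, smul_mul_assoc]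
      rw [hTm, Finset.sum_insert hkn, Finset.sum_insert hln, hz0, add_zero]
    have hsq : ∀ v a, ι K v * (ι K v * a) = (0 : ExteriorAlgebra K W) := fun v a => by
      rw [← mul_assoc, ι_sq_zero, zero_mul]
    have hmS : mon K z S = ι K (b (m, 0)) * (ι K (b (m, 1)) * mon K z (S.erase m)) := by
      conv_lhs => rw [← Finset.insert_erase hm, mon_insert z (Finset.notMem_erase m S), mul_assoc]
      rfl
    have hsw : ι K (b (m, 1)) * (ι K (b (m, 0)) * mon K z (S.erase m)) =
        -(ι K (b (m, 0)) * (ι K (b (m, 1)) * mon K z (S.erase m))) := by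
      rw [← mul_assoc, ι_mul_ι_comm, neg_mul, mul_assoc]
    rw [hmon, REL_map_der_pl, Fin.sum_univ_two]
    have r0 : (0 : Fin 2).rev = 1 := rfl
    have r1 : (1 : Fin 2).rev = 0 := rfl
    have s0 : sg K 0 = 1 := rfl
    have s1 : sg K 1 = -1 := rfl
    rw [r0, r1, s0, s1, hqz, hqz]
    simp only [add_mul, smul_mul_assoc, mul_assoc, hexp, mul_add, mul_smul_comm, hsq, hsw]
    rw [← hmS]
    have e1 : b.repr (X (z m 1)) (m, 1) = ent b X (m, 1) (m, 1) := rfl
    have e2 : b.repr (X (z m 0)) (m, 0) = ent b X (m, 0) (m, 0) := rfl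
    rw [e1, e2]
    simp only [smul_zero, zero_add, add_zero, one_smul, smul_neg, neg_smul, neg_neg, add_smul]
    abel
  rw [Finset.sum_congr rfl hterm, ← Finset.sum_smul, smul_smul] at hI
  rcases smul_eq_zero.mp hI with h | h
  · exact h
  · exact absurd h (REL_mon_ne_zero b S)

end Rel

end Pool.Agent.Work.MP_298761_T2
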