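import Pool.Agent.Work.MP_298761_T2.Final3

/-!
# Families of abelian varieties through Hodge theory: the definitions of the statement

`H^*(A, ℚ)` of a complex abelian variety `A` is the exterior algebra of `H^1(A, ℚ) = ℚ^n`; up to
isogeny `A` is given by the complex structure `J` on `H^1(A, ℝ) = ℝ^n` and a rational polarisation
form `Q` (Riemann).
-/

namespace Pool.Agent.Work.MP_298761_T2.Stmt

open ExteriorAlgebra Matrix

noncomputable section

/-- `H^1(A, ℚ) = ℚ^n`. -/
def VQ (n : Type) : Type := n → ℚ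

/-- `H^1(A, ℝ) = ℝ^n`. -/
def VR (n : Type) : Type := n → ℝ

instance (n : Type) : AddCommGroup (VQ n) := Pi.addCommGroup
instance (n : Type) : Module ℚ (VQ n) := Pi.Function.module n ℚ ℚ
instance (n : Type) : AddCommGroup (VR n) := Pi.addCommGroup
instance (n : Type) : Module ℝ (VR n) := Pi.Function.module n ℝ ℝ
instance (n : Type) : Module ℚ (VR n) := Pi.Function.module n ℚ ℝ
instance (n : Type) : IsScalarTower ℚ ℝ (VR n) := inferInstanceAs (IsScalarTower ℚ ℝ (n → ℝ))

/-- The rational cohomology ring `H^*(A, ℚ)`: the exterior algebra of `H^1(A, ℚ)`. -/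
def HQ (n : Type) : Type := ExteriorAlgebra ℚ (VQ n)

/-- The real cohomology ring `H^*(A, ℝ)`: the exterior algebra of `H^1(A, ℝ)`. -/
def HR (n : Type) : Type := ExteriorAlgebra ℝ (VR n)

instance (n : Type) : Ring (HQ n) := CliffordAlgebra.instRing (0 : QuadraticForm ℚ (VQ n))
instance (n : Type) : Algebra ℚ (HQ n) := CliffordAlgebra.instAlgebra (0 : QuadraticForm ℚ (VQ n))
instance (n : Type) : Ring (HR n) := CliffordAlgebra.instRing (0 : QuadraticForm ℝ (VR n))
instance (n : Type) : Algebra ℝ (HR n) := CliffordAlgebra.instAlgebra (0 : QuadraticForm ℝ (VR n))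
instance (n : Type) : Algebra ℚ (HR n) := CliffordAlgebra.instAlgebra' (0 : QuadraticForm ℝ (VR n))

/-- `H^1(A, ℚ) → H^*(A, ℝ)`: a rational vector as a real class of degree 1. -/
def inclFun (n : Type) (v : VQ n) : HR n := ExteriorAlgebra.ι ℝ (M := VR n) fun i => (v i : ℝ)

theorem inclFun_add (n : Type) (v w : VQ n) : inclFun n (v + w) = inclFun n v + inclFun n w := by
  have h : (fun i => ((v + w) i : ℝ)) = (fun i => (v i : ℝ)) + (fun i => (w i : ℝ)) := by
    funext i
    exact Rat.cast_add _ _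
  unfold inclFun
  rw [h]
  exact map_add (ExteriorAlgebra.ι ℝ (M := VR n)) _ _

theorem inclFun_smul (n : Type) (r : ℚ) (v : VQ n) : inclFun n (r • v) = r • inclFun n v := by
  have h : (fun i => ((r • v) i : ℝ)) = (r : ℝ) • (fun i => (v i : ℝ)) := by
    funext i
    exact Rat.cast_mul _ _
  unfold inclFun
  rw [h]
  have h2 := map_smul (ExteriorAlgebra.ι ℝ (M := VR n)) (r : ℝ) (fun i => (v i : ℝ))
  refine h2.trans ?_
  exact Rat.cast_smul_eq_qsmul ℝ r (ExteriorAlgebra.ι ℝ (M := n → ℝ) fun i => (v i : ℝ))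

/-- `H^1(A, ℚ) → H^*(A, ℝ)` as a linear map. -/
def inclLin (n : Type) : VQ n →ₗ[ℚ] HR n :=
  ⟨⟨inclFun n, inclFun_add n⟩, inclFun_smul n⟩

theorem inclLin_sq (n : Type) (v : VQ n) : inclLin n v * inclLin n v = 0 :=
  ExteriorAlgebra.ι_sq_zero (R := ℝ) (M := VR n) _

/-- The linear maps `H^1(A, ℚ) → H^*(A, ℝ)` with square zero: they extend to `H^*(A, ℚ)`. -/
def SqZero (n : Type) : Type := {f : VQ n →ₗ[ℚ] HR n // ∀ v, f v * f v = 0}

/-- The inclusion of `H^1(A, ℚ)`. -/
def inclSq (n : Type) : SqZero n := ⟨inclLin n, inclLin_sq n⟩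

/-- The universal property of the exterior algebra. -/
def liftEquiv (n : Type) : SqZero n ≃ (HQ n →ₐ[ℚ] HR n) := ExteriorAlgebra.lift ℚ

/-- `H^*(A, ℚ) → H^*(A, ℝ)`: the inclusion of the rational classes. -/
def toR (n : Type) : HQ n →ₐ[ℚ] HR n := liftEquiv n (inclSq n)

/-- `H^i(A, ℚ)`. -/
def deg (n : Type) (i : ℕ) : Submodule ℚ (HQ n) := ⋀[ℚ]^i (VQ n)

/-- The ring homomorphism of `H^*(A, ℝ)` induced by an endomorphism of `H^1(A, ℝ)`. -/
def mapR {n : Type} (f : VR n →ₗ[ℝ] VR n) : HR n →ₐ[ℝ] HR n := ExteriorAlgebra.map f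

/-- The ring homomorphism of `H^*(A, ℚ)` induced by an endomorphism of `H^1(A, ℚ)`. -/
def mapQ {n : Type} (f : VQ n →ₗ[ℚ] VQ n) : HQ n →ₐ[ℚ] HQ n := ExteriorAlgebra.map f

/-- Contraction of a rational class with a linear form. -/
def contract (n : Type) : (VQ n →ₗ[ℚ] ℚ) →ₗ[ℚ] HQ n →ₗ[ℚ] HQ n :=
  CliffordAlgebra.contractLeft (Q := (0 : QuadraticForm ℚ (VQ n)))

/-- The component of degree 1 of a rational class. -/
def degOne (n : Type) : HQ n →ₗ[ℚ] VQ n := ExteriorAlgebra.ιInv

variable {n : Type} [Fintype n] [DecidableEq n]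

/-- The operator `a + bJ` on `H^1(A, ℝ)`: multiplication by the complex number `a + bi`. -/
def mulFun (J : Matrix n n ℝ) (a b : ℝ) (x : VR n) : VR n := fun i => a * x i + b * ∑ j, J i j * x j

omit [DecidableEq n] in
theorem mulFun_add (J : Matrix n n ℝ) (a b : ℝ) (x y : VR n) :
    mulFun J a b (x + y) = mulFun J a b x + mulFun J a b y := by
  funext i
  have h : ∀ j, (x + y) j = x j + y j := fun j => rfl
  change a * (x + y) i + b * ∑ j, J i j * (x + y) j =
    (a * x i + b * ∑ j, J i j * x j) + (a * y i + b * ∑ j, J i j * y j)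
  simp only [h, mul_add, Finset.sum_add_distrib]
  ring

omit [DecidableEq n] in
theorem mulFun_smul (J : Matrix n n ℝ) (a b r : ℝ) (x : VR n) :
    mulFun J a b (r • x) = r • mulFun J a b x := by
  funext i
  have h : ∀ j, (r • x) j = r * x j := fun j => rfl
  change a * (r • x) i + b * ∑ j, J i j * (r • x) j = r * (a * x i + b * ∑ j, J i j * x j)
  simp only [h]
  rw [mul_add, Finset.mul_sum, Finset.mul_sum, Finset.mul_sum]
  congr 1
  · ring
  · exact Finset.sum_congr rfl fun j _ => by ring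

/-- The operator `a + bJ` on `H^1(A, ℝ)` as a linear map. -/
def mulC (J : Matrix n n ℝ) (a b : ℝ) : VR n →ₗ[ℝ] VR n :=
  ⟨⟨mulFun J a b, mulFun_add J a b⟩, mulFun_smul J a b⟩

/-- The number `Q(x, y)`. -/
def pair (Q : Matrix n n ℚ) (x y : VQ n) : ℚ := ∑ i, ∑ j, x i * Q i j * y j

omit [DecidableEq n] in
theorem pair_add (Q : Matrix n n ℚ) (x y z : VQ n) : pair Q x (y + z) = pair Q x y + pair Q x z := by
  have h : ∀ j, (y + z) j = y j + z j := fun j => rfl
  simp only [pair, h, mul_add, Finset.sum_add_distrib]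

omit [DecidableEq n] in
theorem pair_smul (Q : Matrix n n ℚ) (x : VQ n) (r : ℚ) (y : VQ n) :
    pair Q x (r • y) = r • pair Q x y := by
  have h : ∀ j, (r • y) j = r * y j := fun j => rfl
  simp only [pair, h, smul_eq_mul, Finset.mul_sum]
  exact Finset.sum_congr rfl fun i _ => Finset.sum_congr rfl fun j _ => by ring

/-- The linear form `Q(x, ·)` on `H^1(A, ℚ)`. -/
def form (Q : Matrix n n ℚ) (x : VQ n) : VQ n →ₗ[ℚ] ℚ :=
  ⟨⟨pair Q x, pair_add Q x⟩, pair_smul Q x⟩

/-- Rational Hodge classes of type `(p,p)` of the abelian variety `A`: classes of degree `2p` on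
which `a + bi` (acting on `H^1(A, ℝ)` as `a + bJ`) acts as `|a + bi|^{2p}`. -/
def IsHodge (A : PolCS n) (p : ℕ) (ω : HQ n) : Prop :=
  ω ∈ deg n (2 * p) ∧ ∀ a b : ℝ, mapR (mulC A.J a b) (toR n ω) = (a ^ 2 + b ^ 2) ^ p • toR n ω

/-- The rational `(1,1)`-classes of `A`: the rational divisor classes (Lefschetz). -/
def NS (A : PolCS n) : Set (HQ n) := {d | IsHodge A 1 d}

/-- The Hodge classes of `H^{even}(A, ℚ)`: sums of rational classes of type `(p,p)`. -/
def Hdg (A : PolCS n) : Submodule ℚ (HQ n) := Submodule.span ℚ {ω | ∃ p, IsHodge A p ω}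

/-- The endomorphism of `H^1(A, ℚ)` attached to a class `d` of degree 2 by the polarisation `Q`:
it maps `x` to the contraction of `d` with `Q(x, ·)`. -/
def endo (A : PolCS n) (d : HQ n) (x : VQ n) : VQ n := degOne n (contract n (form A.Q x) d)

/-- The endomorphisms attached to the classes of `D` commute pairwise. -/
def Commuting (A : PolCS n) (D : Set (HQ n)) : Prop :=
  ∀ d ∈ D, ∀ d' ∈ D, ∀ x : VQ n, endo A d (endo A d' x) = endo A d' (endo A d x)

/-- The automorphism of `H^*(A, ℚ)` given by a matrix acting on `H^1(A, ℚ)`. -/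
def act (g : GL n ℚ) : HQ n →ₐ[ℚ] HQ n := mapQ (Matrix.toLin' (g : Matrix n n ℚ))

/-- Global sections of the local system `H^*(A_s, ℚ)`. -/
def IsFlat (A : AbScheme n) (φ : A.S → HQ n) : Prop :=
  ∀ s t, ∀ g ∈ A.trans s t, act g (φ s) = φ t

/-! ### Comparison with the working definitions -/

theorem toR_eq (n : Type) [Fintype n] [DecidableEq n] : toR n = toReal n := by
  apply ExteriorAlgebra.hom_ext
  apply LinearMap.ext
  intro v
  rfl

end

end Pool.Agent.Work.MP_298761_T2.Stmt
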