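import Pool.Agent.Work.MP_298761_T2.Stmt

/-!
# The theorem in the terms of the statement
-/

namespace Pool.Agent.Work.MP_298761_T2.Stmt

open ExteriorAlgebra Matrix

variable {n : Type} [Fintype n] [DecidableEq n]

theorem mulC_eq (J : Matrix n n ℝ) (a b : ℝ) :
    mulC J a b = (a • LinearMap.id + b • Matrix.toLin' J : (n → ℝ) →ₗ[ℝ] (n → ℝ)) := by
  have key : ∀ x : n → ℝ, (fun i => a * x i + b * ∑ j, J i j * x j) =
      (a • LinearMap.id + b • Matrix.toLin' J : (n → ℝ) →ₗ[ℝ] (n → ℝ)) x := by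
    intro x
    funext i
    simp [Matrix.toLin'_apply, Matrix.mulVec, dotProduct]
  exact LinearMap.ext key

theorem form_eq (Q : Matrix n n ℚ) (x : VQ n) : form Q x = Matrix.toBilin' Q (x : n → ℚ) := by
  have key : ∀ x y : n → ℚ, (∑ i, ∑ j, x i * Q i j * y j) = Matrix.toBilin' Q x y := by
    intro x y
    rw [Matrix.toBilin'_apply]
  exact LinearMap.ext (key x)

theorem isHodge_iff (A : PolCS n) (p : ℕ) (ω : HQ n) : IsHodge A p ω ↔ A.IsHodge p ω := by
  unfold IsHodge PolCS.IsHodge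
  refine and_congr Iff.rfl (forall_congr' fun a => forall_congr' fun b => ?_)
  rw [mulC_eq, toR_eq]
  rfl

theorem NS_eq (A : PolCS n) : NS A = A.NS := by
  ext d
  exact isHodge_iff A 1 d

theorem Hdg_eq (A : PolCS n) : Hdg A = A.Hdg := by
  unfold Hdg PolCS.Hdg
  have : {ω : HQ n | ∃ p, IsHodge A p ω} = {ω | ∃ p, A.IsHodge p ω} := by
    ext ω
    exact exists_congr fun p => isHodge_iff A p ω
  rw [this]
  rfl

theorem endo_eq (A : PolCS n) (d : HQ n) (x : VQ n) : endo A d x = A.endo d x := by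
  unfold endo
  rw [form_eq]
  rfl

theorem vhc (A : AbScheme n) (φ : A.S → HQ n) (hflat : IsFlat A φ)
    (hHodge : ∀ s, φ s ∈ Hdg (A.fib s)) (o : A.S) (B : PolCS n) (D : Set (HQ n)) (hD : D ⊆ NS B)
    (hcomm : Commuting B D) (ho : φ o ∈ Algebra.adjoin ℚ D) (s : A.S) :
    φ s ∈ Algebra.adjoin ℚ (NS (A.fib s)) := by
  rw [NS_eq]
  refine vhc_abelian A φ hflat (fun s => ?_) o B D ?_ ?_ ho s
  · have := hHodge s
    rw [Hdg_eq] at this
    exact this
  · rw [NS_eq] at hD
    exact hD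
  · intro d hd d' hd'
    apply LinearMap.ext
    intro x
    have h := hcomm d hd d' hd' x
    rw [endo_eq, endo_eq, endo_eq, endo_eq] at h
    exact h

end Pool.Agent.Work.MP_298761_T2.Stmt
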